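import Mathlib
import Pool.Agent.H395.Local.Defs

/-!
# Fields of quadratic type: definitions
-/

set_option autoImplicit false

namespace Pool.Agent.H395.Exo

open NumberField Module

variable {k : Type} [Field k]

/-- The rational functions with sum zero on the set of the embeddings of `E` which extend the
embedding `κ` of `k` are an irreducible representation of the automorphisms of the complex numbers
over `k`. -/
def SumZeroIrreducible (κ : k →+* ℂ) {E : Type} [Field E] [NumberField E] (θ : k →+* E) : Prop :=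
  ∀ V : Submodule ℚ ((E →+* ℂ) → ℚ),
    (∀ c ∈ V, (∀ φ, φ.comp θ ≠ κ → c φ = 0) ∧ ∑ φ, c φ = 0) →
    (∀ σ : ℂ ≃+* ℂ, (∀ x, σ (κ x) = κ x) → ∀ c ∈ V,
      (fun φ => c ((σ : ℂ →+* ℂ).comp φ)) ∈ V) →
      V = ⊥ ∨ ∀ c : (E →+* ℂ) → ℚ, (∀ φ, φ.comp θ ≠ κ → c φ = 0) → ∑ φ, c φ = 0 → c ∈ V

open Classical in
/-- One of the slopes of `π` over `κ` dominates the others: there are an identification of the
complex numbers with the algebraic closure of `ℚ_p`, an embedding `z` over `κ` and a rational number
`t` such that for the slopes `q w` (the `p`-adic valuations of the numbers `w π`, with value one at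
`p`) the absolute value of `q z - t` is larger than the sum of the absolute values of `q w - t`,
`w ≠ z` over `κ`, or for the absolute value of some prime number `l` the absolute value of `q z - t`
is larger than those of `q w - t`. -/
def DominatedOver (p : ℕ) [Fact p.Prime] (κ : k →+* ℂ) {E : Type} [Field E] [NumberField E]
    (π : E) (θ : k →+* E) : Prop :=
  ∃ (ν : PadicAlgCl p ≃+* ℂ) (q : (E →+* ℂ) → ℚ) (t : ℚ) (z : E →+* ℂ),
    (∀ w, (q w : ℝ) = - Real.logb p ‖ν.symm (w π)‖) ∧ z.comp θ = κ ∧
      (∑ w with (w.comp θ = κ ∧ w ≠ z), |q w - t| < |q z - t| ∨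
        ∃ l : ℕ, l.Prime ∧ q z ≠ t ∧ ∀ w, w.comp θ = κ → w ≠ z →
          padicNorm l (q w - t) < padicNorm l (q z - t))

variable {I : Type} {K : I → Type} [∀ i, Field (K i)]

/-- The **exotic relations come from one imaginary quadratic field** `k`: the multiplicative
relations between the conjugates of the Weil numbers `π i` and the number `q`, that is the families
of integers `n` such that the product of the powers `(φ (π i)) ^ (n ⟨i, φ⟩)` over all embeddings
`φ` of all fields `K i` is a power of `q`, are trivial outside `J` (they take the same value at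
complex conjugate embeddings), and for `i` in `J` the difference of the values of `n` at `φ` and at
the conjugate of `φ` does not depend on the embedding `φ` of `K i` which extends `κ`. -/
def QuadShape [Fintype I] [∀ i, NumberField (K i)] (q : ℕ) (π : ∀ i, K i) (κ : k →+* ℂ)
    (J : Set I) (θ : ∀ i, i ∈ J → (k →+* K i)) : Prop :=
  ∀ (r : ℤ) (n : (Σ i, (K i →+* ℂ)) → ℤ), ∏ x, (x.2 (π x.1)) ^ n x = (q : ℂ) ^ r →
    (∀ i, i ∉ J → ∀ φ : K i →+* ℂ, n ⟨i, φ⟩ = n ⟨i, ComplexEmbedding.conjugate φ⟩) ∧
    ∀ i (hi : i ∈ J) (φ ψ : K i →+* ℂ), φ.comp (θ i hi) = κ → ψ.comp (θ i hi) = κ →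
      n ⟨i, φ⟩ - n ⟨i, ComplexEmbedding.conjugate φ⟩ =
        n ⟨i, ψ⟩ - n ⟨i, ComplexEmbedding.conjugate ψ⟩

/-- Two embeddings of `K i` which extend `κ` are conjugate by an automorphism over `k` which fixes
the embeddings of the other fields `K j`, `j` in `J`: the field `K i` is linearly disjoint over `k`
from the compositum of the Galois closures of these fields. -/
def MovesAlone (κ : k →+* ℂ) (J : Set I) (i : I) (θ : k →+* K i) : Prop :=
  ∀ φ ψ : K i →+* ℂ, φ.comp θ = κ → ψ.comp θ = κ → ∃ σ : ℂ ≃+* ℂ, (∀ x, σ (κ x) = κ x) ∧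
    (σ : ℂ →+* ℂ).comp φ = ψ ∧ ∀ j ∈ J, j ≠ i → ∀ χ : K j →+* ℂ, (σ : ℂ →+* ℂ).comp χ = χ

/-- All positive powers of the Weil numbers `π i` generate the fields `K i`; for `i` outside `J` the
field `K i` has an embedding whose class is of one of the local types; for `i` in `J` the field
`K i` contains `k`, the functions with sum zero on the embeddings over `k` are irreducible or one
slope over `k` dominates the others, and `K i` is linearly disjoint over `k` from the Galois closures
of the other fields `K j`, `j` in `J`. -/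
structure QuadTypes [∀ i, NumberField (K i)] [Fintype I] (p : ℕ) [Fact p.Prime] (m : I → ℕ)
    (π : ∀ i, K i) (κ : k →+* ℂ) (J : Set I) (θ : ∀ i, i ∈ J → (k →+* K i)) : Prop where
  powers : ∀ i, ∀ s : ℕ, 0 < s → IntermediateField.adjoin ℚ {π i ^ s} = ⊤
  local_type : ∀ i, i ∉ J → ∃ φ : K i →+* ℂ, Local.LocalType p m π ⟨i, φ⟩
  over_k : ∀ i (h : i ∈ J), SumZeroIrreducible κ (θ i h) ∨ DominatedOver p κ (π i) (θ i h)
  alone : ∀ i (h : i ∈ J), MovesAlone κ J i (θ i h)

end Pool.Agent.H395.Exo
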