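import Mathlib
import Pool.Agent.H395.Free

/-!
# The relations vanish on a field with an embedding whose class is of a local type

The proof is that of `free_of_local`, for one field of the family.
-/

set_option autoImplicit false
set_option linter.unusedSectionVars false
set_option linter.unusedVariables false

namespace Pool.Agent.H395.Exo

open NumberField Module Pool.Agent.W527 Pool.Agent.H204R3.CM Pool.Agent.H977R3.WN
  Pool.Agent.H485R3.Exact Pool.Agent.TH127.SC

noncomputable section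

variable {p : ℕ} [hp : Fact p.Prime] {I : Type} [Fintype I] {K : I → Type} [∀ i, Field (K i)]
  [∀ i, NumberField (K i)] [∀ i, IsCMField (K i)] {m : I → ℕ} {π : ∀ i, K i}

/-- A relation vanishes on the field `K i₀` if it has an embedding whose class is of one of the
types. -/
theorem zero_at_local (hpow : PowersGenerate π) (i₀ : I) (χ : K i₀ →+* ℂ)
    (hχ : LocalType p m π ⟨i₀, χ⟩)
    (hint : ∀ i, IsIntegral ℤ (π i))
    (hweil : ∀ i, ∀ φ : K i →+* ℂ, ‖φ (π i)‖ ^ 2 = (p : ℝ) ^ m i)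
    {κ : I → ℚ} (hκ : ∀ i, 0 < κ i) {u : ∀ i, (K i →+* PadicAlgCl p) → ℤ}
    (hodd : ∀ i, OddDeviations p m π i → ∀ τ, Odd (u i τ))
    (hu : ∀ i, ∀ τ : K i →+* PadicAlgCl p,
      2 * (- Real.logb p ‖τ (π i)‖) - m i = (κ i : ℝ) * u i τ)
    {L : Type} [Field L] [NumberField L] [IsGalois ℚ L] (j : L →+* ℂ)
    (h : ∀ i, ∀ ψ : K i →+* ℂ, ∃ φ : K i →+* L, j.comp φ = ψ) (jp : L →+* PadicAlgCl p)
    (c : ∀ i, (K i →+* L) → ℤ) (hc : ∀ i φ, c i (cbar φ) = - c i φ)
    (hrel : ∀ g : L ≃ₐ[ℚ] L, ∑ i, ∑ φ, c i φ * u i (jp.comp (g • φ)) = 0) (φ₀ : K i₀ →+* L) :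
    c i₀ φ₀ = 0 := by
  classical
  obtain ⟨⟨κc, hκc', hκc''⟩, hne⟩ := conj_data (K := K) j h
  have hanti : ∀ i, ∀ φ : K i →+* L, u i (jp.comp (cbar φ)) = - u i (jp.comp φ) :=
    fun i φ => anti_of_slopes' (hweil i) (hκ i).ne' (hu i) (jp.comp φ)
  let Y : Type := Σ i, (K i →+* L)
  let cb : Y → Y := fun y => ⟨y.1, cbar y.2⟩
  let f : Y ≃ Embs K := embEquiv (F := K) j h
  have hf1st : ∀ y : Y, (f y).1 = y.1 := fun y => rfl
  have hfcb : ∀ y, f (cb y) = bar (f y) := by
    rintro ⟨i, φ⟩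
    change (⟨i, j.comp (cbar φ)⟩ : Σ i, (K i →+* ℂ)) = ⟨i, ComplexEmbedding.conjugate (j.comp φ)⟩
    rw [comp_cbar]
  have hf1 : ∀ g : L ≃ₐ[ℚ] L, ∃ τ : ℂ ≃+* ℂ, ∀ y, f (g • y) = τ • f y := by
    intro g
    obtain ⟨τ, hτ⟩ := exists_lift' j g
    refine ⟨τ, ?_⟩
    rintro ⟨i, φ⟩
    change (⟨i, j.comp (g • φ)⟩ : Σ i, (K i →+* ℂ)) = ⟨i, (τ : ℂ →+* ℂ).comp (j.comp φ)⟩
    rw [lifts_comp j hτ]
  have hf2 : ∀ τ : ℂ ≃+* ℂ, ∃ g : L ≃ₐ[ℚ] L, ∀ y, f (g • y) = τ • f y := by
    intro τ
    obtain ⟨g, hg⟩ := exists_lift j τ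
    refine ⟨g, ?_⟩
    rintro ⟨i, φ⟩
    change (⟨i, j.comp (g • φ)⟩ : Σ i, (K i →+* ℂ)) = ⟨i, (τ : ℂ →+* ℂ).comp (j.comp φ)⟩
    rw [lifts_comp j hg]
  have hcb : ∀ y, cb (cb y) = y := by
    rintro ⟨i, φ⟩
    change (⟨i, cbar (cbar φ)⟩ : Σ i, (K i →+* L)) = ⟨i, φ⟩
    rw [cbar_cbar]
  have hcbne : ∀ y, cb y ≠ y := by
    rintro ⟨i, φ⟩ hh
    exact cbar_ne φ (eq_of_heq (Sigma.mk.inj hh).2)
  have hG : ∀ (g : L ≃ₐ[ℚ] L) (y : Y), g • cb y = cb (g • y) := by
    rintro g ⟨i, φ⟩
    rfl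
  let W : Y → ℤ := fun y => u y.1 (jp.comp y.2)
  have hW : ∀ y, W (cb y) = - W y := by
    rintro ⟨i, φ⟩
    exact hanti i φ
  -- the deviations
  have hdevall : ∀ (ν : PadicAlgCl p ≃+* ℂ) (q : Embs K → ℚ), IsDeviation p m π ν q →
      ∃ g₀ : L ≃ₐ[ℚ] L, ∀ z : Y, q (f z) = κ z.1 * W (g₀ • z) := by
    intro ν q hq
    let e : L →+* PadicAlgCl p := (ν.symm : ℂ →+* PadicAlgCl p).comp j
    let ealg : L →ₐ[ℚ] PadicAlgCl p := (jp : L →+* PadicAlgCl p).toRatAlgHom
    obtain ⟨g₀, hg₀⟩ := Pool.Agent.H485R3.exists_gal ealg (e : L →+* PadicAlgCl p).toRatAlgHom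
    have hg₀' : ∀ x, ν.symm (j x) = jp (g₀ x) := hg₀
    refine ⟨g₀, ?_⟩
    rintro ⟨i, φ⟩
    have h5 := hu i (jp.comp (g₀ • φ))
    have h6 : deviation p m π ν (f (⟨i, φ⟩ : Y)) =
        2 * (- Real.logb p ‖(jp.comp (g₀ • φ)) (π i)‖) - m i := by
      change 2 * (- Real.logb p ‖ν.symm (j (φ (π i)))‖) - m i = _
      rw [hg₀']
      rfl
    have h7 := hq (f ⟨i, φ⟩)
    rw [h6, h5] at h7
    exact_mod_cast h7
  -- the main claim
  have key : ∀ (i₀ : I) (ψ : K i₀ →+* L), LocalType p m π (f ⟨i₀, ψ⟩) → ∀ c' : Y → ℤ,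
      (∀ y, c' (cb y) = - c' y) → (∀ g : L ≃ₐ[ℚ] L, ∑ y, c' y * W (g • y) = 0) →
      c' ⟨i₀, ψ⟩ = 0 := by
    intro i₀ φ₀ htype c' hc' hrel'
    rcases htype with ⟨h1, h2⟩ | ⟨ν, b, n, hb, hn, hs⟩ | ⟨ν, q, hq, hb⟩ | ⟨ν, q, t, hq, ht, hdom⟩ |
      ⟨htr, b, hcard, hb, hns'⟩ | hirr
    · -- odd slopes
      have hWo : ∀ y, (∃ g : L ≃ₐ[ℚ] L, g • (⟨i₀, φ₀⟩ : Y) = y) → Odd (W y) := by
        rintro _ ⟨g, rfl⟩
        exact hodd i₀ h1 _
      rcases h2 with h2 | h2
      · have h3 := oddClass_transfer f hfcb hf1 hf2 h2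
        refine zero_at hcb hcbne hG hW (fun y hy => hWo y (h3.1 y hy)) ?_ hc' hrel' h3
        intro y y' hy hy' hh
        obtain ⟨g, rfl⟩ := h3.1 y hy
        obtain ⟨g', rfl⟩ := h3.1 y' hy'
        exact congrArg (fun ψ => (⟨i₀, ψ⟩ : Σ i, (K i →+* L)))
          (eq_of_slopes_at (hint i₀) (hweil i₀) (hpow i₀) (hκ i₀) (hu i₀) jp (g • φ₀) (g' • φ₀)
            (fun g => hh g))
      · have h3 := twoPowerClass_transfer f hfcb hf1 hf2 h2
        exact zero_at_two hcb hcbne hG hW (fun y hy => hWo y (h3.1 y hy)) hc' hrel' h3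
    · -- prime powers
      have h3 := sumClass_transfer f hfcb hf1 hf2 hs
      let e : L →+* PadicAlgCl p := (ν.symm : ℂ →+* PadicAlgCl p).comp j
      let ealg : L →ₐ[ℚ] PadicAlgCl p := (jp : L →+* PadicAlgCl p).toRatAlgHom
      obtain ⟨g₀, hg₀⟩ := Pool.Agent.H485R3.exists_gal ealg (e : L →+* PadicAlgCl p).toRatAlgHom
      have hg₀' : ∀ x, ν.symm (j x) = jp (g₀ x) := hg₀
      have hdev : ∀ z : Y, Link (L ≃ₐ[ℚ] L) cb (⟨i₀, φ₀⟩ : Y) z →
          (κ i₀ : ℝ) * W (g₀ • z) = b * n (f z) := by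
        intro z hz
        have h4 := hn (f z) ((link_iff f hfcb hf1 hf2 _ _).1 hz)
        obtain ⟨g, rfl⟩ := h3.1 z hz
        rw [← h4]
        have h5 := hu i₀ (jp.comp (g₀ • g • φ₀))
        have h6 : deviation p m π ν (f (g • (⟨i₀, φ₀⟩ : Y))) =
            2 * (- Real.logb p ‖(jp.comp (g₀ • g • φ₀)) (π i₀)‖) - m i₀ := by
          change 2 * (- Real.logb p ‖ν.symm (j ((g • φ₀) (π i₀)))‖) - m i₀ = _
          rw [hg₀']
          rfl
        rw [h6, h5]
        rfl
      have hκ0 : (κ i₀ : ℝ) ≠ 0 := by exact_mod_cast (hκ i₀).ne'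
      -- a point where `n` does not vanish
      obtain ⟨z₁, hz₁, hnz₁⟩ : ∃ z₁ : Y, Link (L ≃ₐ[ℚ] L) cb (⟨i₀, φ₀⟩ : Y) z₁ ∧
          n (f z₁) ≠ 0 := by
        by_contra hcon
        push Not at hcon
        obtain ⟨_, r, k, hr, hk, hS⟩ := h3
        obtain ⟨S₀, hS₀⟩ := Pool.Agent.H925R2.exists_isHalf
          (R := Cls (L ≃ₐ[ℚ] L) cb (⟨i₀, φ₀⟩ : Y))
          (inv := fun z => ⟨cb z.1, link_trans z.2 (link_cb hcb hcbne hG _)⟩)
          (fun z => Subtype.ext (hcb z.1)) (fun z h => hcbne z.1 (congrArg Subtype.val h))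
        apply hS (S₀.map ⟨Subtype.val, Subtype.val_injective⟩)
        · intro z hz
          obtain ⟨w, _, rfl⟩ := Finset.mem_map.1 hz
          exact w.2
        · intro z hz
          have h2 := hS₀ ⟨z, hz⟩
          have e1 : ∀ w : Cls (L ≃ₐ[ℚ] L) cb (⟨i₀, φ₀⟩ : Y),
              w.1 ∈ S₀.map ⟨Subtype.val, Subtype.val_injective⟩ ↔ w ∈ S₀ := by
            intro w
            rw [Finset.mem_map]
            constructor
            · rintro ⟨w', hw', h⟩
              have h3 : w' = w := Subtype.ext h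
              rwa [← h3]
            · intro h
              exact ⟨w, h, rfl⟩
          rw [← e1, ← e1] at h2
          exact h2
        · rw [Finset.sum_map]
          refine Finset.dvd_sum fun w _ => ?_
          have h5 : n (f w.1) = 0 := hcon w.1 w.2
          change (r : ℤ) ∣ n (f w.1)
          rw [h5]
          exact dvd_zero _
      have h4 := hdev z₁ hz₁
      have ha : W (g₀ • z₁) ≠ 0 := by
        intro h0
        rw [h0] at h4
        have h5 : b * (n (f z₁) : ℝ) ≠ 0 := mul_ne_zero hb (by exact_mod_cast hnz₁)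
        exact h5 (by rw [← h4]; simp)
      refine zero_at_sum hcb hcbne hG hW hc' hrel' g₀ (u := fun y => n (f y)) (a := W (g₀ • z₁))
        (b := n (f z₁)) ha ?_ h3
      intro z hz
      have h5 := hdev z hz
      have h6 : (κ i₀ : ℝ) * ((W (g₀ • z₁) : ℝ) * n (f z)) =
          (κ i₀ : ℝ) * ((n (f z₁) : ℝ) * W (g₀ • z)) := by
        calc (κ i₀ : ℝ) * ((W (g₀ • z₁) : ℝ) * n (f z)) =
            ((κ i₀ : ℝ) * W (g₀ • z₁)) * n (f z) := by ring
          _ = b * n (f z₁) * n (f z) := by rw [h4]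
          _ = (b * n (f z)) * n (f z₁) := by ring
          _ = ((κ i₀ : ℝ) * W (g₀ • z)) * n (f z₁) := by rw [h5]
          _ = _ := by ring
      exact_mod_cast mul_left_cancel₀ hκ0 h6
    · -- a block of half the size
      obtain ⟨g₀, hg₀⟩ := hdevall ν q hq
      have h3 := blockClass_transfer f hfcb hf1 hf2 hb
      refine zero_at_block hcb hcbne hG hW hc' hrel' g₀ (κ := κ i₀) (hκ i₀).ne' ?_ h3
      intro z hz
      obtain ⟨g, rfl⟩ := h3.1 z hz
      exact hg₀ (g • (⟨i₀, φ₀⟩ : Y))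
    · -- dominated classes
      obtain ⟨g₀, hg₀⟩ := hdevall ν q hq
      have hrelC : ∀ g : L ≃ₐ[ℚ] L, ∑ y ∈ Finset.univ.filter
          (fun y => Link (L ≃ₐ[ℚ] L) cb (⟨i₀, φ₀⟩ : Y) y),
          ((c' y : ℚ) / κ y.1) * q (f (g • y)) = 0 := by
        intro g
        have h1 := core_split hG hW hrel' (⟨i₀, φ₀⟩ : Y) (g₀ * g)
        have h2 : ((∑ y ∈ Finset.univ.filter
            (fun y => Link (L ≃ₐ[ℚ] L) cb (⟨i₀, φ₀⟩ : Y) y), c' y * W ((g₀ * g) • y) : ℤ) : ℚ) = 0 := by
          rw [h1, Int.cast_zero]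
        rw [← h2]
        push_cast
        refine Finset.sum_congr rfl fun y _ => ?_
        rw [hg₀, mul_smul]
        have h3 : κ (g • y).1 = κ y.1 := rfl
        rw [h3]
        have h4 := (hκ y.1).ne'
        field_simp
      have hqodd : ∀ y : Y, q (f (cb y)) = - q (f y) := by
        intro y
        rw [hg₀, hg₀, hG, hW]
        have h3 : κ (cb y).1 = κ y.1 := rfl
        rw [h3]
        push_cast
        ring
      have haodd : ∀ y : Y, (c' (cb y) : ℚ) / κ (cb y).1 = - ((c' y : ℚ) / κ y.1) := by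
        intro y
        rw [hc']
        have h3 : κ (cb y).1 = κ y.1 := rfl
        rw [h3]
        push_cast
        ring
      have htrans : ∀ y z : Y, z.1 = y.1 → ∃ g : L ≃ₐ[ℚ] L, g • y = z := by
        rintro ⟨i, φ⟩ ⟨i', φ'⟩ hi
        change i' = i at hi
        subst hi
        obtain ⟨g, hg⟩ := MulAction.exists_smul_eq (L ≃ₐ[ℚ] L) φ φ'
        refine ⟨g, ?_⟩
        rw [← hg]
        rfl
      have hfin : (c' ⟨i₀, φ₀⟩ : ℚ) / κ i₀ = 0 := by
        rcases hdom with hdom | ⟨l, hl, hdom⟩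
        · refine zero_at_dom_arch hcb hcbne hG (y₀ := (⟨i₀, φ₀⟩ : Y))
            (a := fun y => (c' y : ℚ) / κ y.1) (d := fun y => q (f y)) (t := fun y => t y.1)
            haodd hqodd (fun y => ht y.1) (fun g y => rfl) hrelC ?_
          intro y hy
          obtain ⟨z', hz', hsum⟩ := hdom (f y) ((link_iff f hfcb hf1 hf2 _ _).1 hy)
          obtain ⟨z, rfl⟩ := f.surjective z'
          obtain ⟨g, rfl⟩ := htrans y z hz'
          refine ⟨g, (Finset.univ.filter (fun w => SameClass (f (g • y)) w ∧ w ≠ f (g • y) ∧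
            w ≠ TH127.SC.bar (f (g • y)))).map f.symm.toEmbedding, fun w => ?_, ?_⟩
          · rw [Finset.mem_map_equiv, Equiv.symm_symm, Finset.mem_filter]
            have e1 : SameClass (f (g • y)) (f w) ↔ Link (L ≃ₐ[ℚ] L) cb (g • y) w :=
              (link_iff f hfcb hf1 hf2 _ _).symm
            rw [e1, f.injective.ne_iff, ← hfcb, f.injective.ne_iff]
            exact ⟨fun h => h.2, fun h => ⟨Finset.mem_univ _, h⟩⟩
          · refine lt_of_eq_of_lt ?_ hsum
            rw [Finset.sum_map]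
            refine Finset.sum_congr rfl fun w _ => ?_
            rw [Equiv.coe_toEmbedding, f.apply_symm_apply]
            have e2 : (f.symm w).1 = w.1 := by
              obtain ⟨w', rfl⟩ := f.surjective w
              rw [f.symm_apply_apply]
              rfl
            rw [e2]
        · have : Fact l.Prime := ⟨hl⟩
          refine zero_at_dom_padic hcb hcbne hG l (y₀ := (⟨i₀, φ₀⟩ : Y))
            (a := fun y => (c' y : ℚ) / κ y.1) (d := fun y => q (f y)) (t := fun y => t y.1)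
            haodd hqodd (fun y => ht y.1) (fun g y => rfl) hrelC ?_
          intro y hy
          obtain ⟨z', hz', hz0, hsum⟩ := hdom (f y) ((link_iff f hfcb hf1 hf2 _ _).1 hy)
          obtain ⟨z, rfl⟩ := f.surjective z'
          obtain ⟨g, rfl⟩ := htrans y z hz'
          refine ⟨g, hz0, fun w hw hw1 hw2 => ?_⟩
          exact hsum (f w) ((link_iff f hfcb hf1 hf2 _ _).1 hw) (fun h => hw1 (f.injective h))
            (fun h => hw2 (f.injective (by rw [h, hfcb])))
      rcases div_eq_zero_iff.1 hfin with h1 | h1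
      · exact_mod_cast h1
      · exact absurd h1 (hκ i₀).ne'
    · -- classes with one or a prime number of pairs
      by_contra hc0
      have htrL := trans_transfer f hfcb hf1 hf2 (y := (⟨i₀, φ₀⟩ : Y)) htr
      have hcardL : Nat.card {z // Link (L ≃ₐ[ℚ] L) cb (⟨i₀, φ₀⟩ : Y) z} = 2 * b := by
        rw [card_transfer f hfcb hf1 hf2]
        exact hcard
      set B : Set Y := {z | Link (L ≃ₐ[ℚ] L) cb (⟨i₀, φ₀⟩ : Y) z} with hB
      have hxB : (⟨i₀, φ₀⟩ : Y) ∈ B := link_refl _
      have hBinv : ∀ y ∈ B, cb y ∈ B := fun y hy => link_trans hy (link_cb hcb hcbne hG y)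
      have hstab : ∀ (g : L ≃ₐ[ℚ] L), ∀ y ∈ B, g • y ∈ B → ∀ z, g • z ∈ B ↔ z ∈ B := by
        intro g y hy hgy z
        constructor
        · intro hz
          have h1 : Link (L ≃ₐ[ℚ] L) cb (g • y) (g • z) := link_trans (link_symm hgy) hz
          rw [link_smul_iff hG] at h1
          exact link_trans hy h1
        · intro hz
          have h1 : Link (L ≃ₐ[ℚ] L) cb (g • y) (g • z) :=
            link_smul hG g (link_trans (link_symm hy) hz)
          exact link_trans hgy h1
      have hBcard : B.ncard = 2 * b := by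
        rw [← hcardL, Set.ncard_def, Set.encard, Nat.card]
        rfl
      let c₁ : Y → ℤ := fun y => if y ∈ B then c' y else 0
      have hc₁ : c₁ ∈ C298.Rel (L ≃ₐ[ℚ] L) cb W B := by
        refine ⟨fun y => ?_, fun g => ?_, fun y hy => if_neg hy⟩
        · by_cases hy : y ∈ B
          · simp only [c₁, hy, hBinv y hy, if_true, hc']
          · have h1 : cb y ∉ B := by
              intro h
              have h2 := hBinv _ h
              rw [hcb] at h2
              exact hy h2
            simp only [c₁, hy, h1, if_false, neg_zero]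
        · have h1 := core_split hG hW hrel' (⟨i₀, φ₀⟩ : Y) g
          rw [Finset.sum_filter] at h1
          rw [← h1]
          refine Finset.sum_congr rfl fun y _ => ?_
          by_cases hy : Link (L ≃ₐ[ℚ] L) cb (⟨i₀, φ₀⟩ : Y) y
          · have hy' : y ∈ B := hy
            simp only [c₁, hy, hy', if_true]
          · have hy' : y ∉ B := hy
            simp only [c₁, hy, hy', if_false, zero_mul]
      have hc₁x : c₁ ⟨i₀, φ₀⟩ ≠ 0 := by
        simp only [c₁, hxB, if_true]
        exact hc0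
      have hinj : Function.Injective (fun φ : K i₀ →+* L => (⟨i₀, φ⟩ : Y)) := by
        intro φ φ' hh
        exact eq_of_heq (Sigma.mk.inj hh).2
      -- no two embeddings in the class have the same values
      have hcase1 : ¬ ∃ y₁ ∈ B, ∃ y₂ ∈ B, y₁ ≠ y₂ ∧ ∀ g : L ≃ₐ[ℚ] L, W (g • y₁) = W (g • y₂) := by
        rintro ⟨y₁, hy₁, y₂, hy₂, hne12, heq⟩
        obtain ⟨g, rfl⟩ := htrL y₁ hy₁
        obtain ⟨g', rfl⟩ := htrL y₂ hy₂
        apply hne12
        exact congrArg (fun ψ => (⟨i₀, ψ⟩ : Σ i, (K i →+* L)))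
          (eq_of_slopes_at (hint i₀) (hweil i₀) (hpow i₀) (hκ i₀) (hu i₀) jp (g • φ₀) (g' • φ₀)
            (fun g => heq g))
      -- the norm to the subfield of a block is not supersingular
      have hcase2 : ∀ (F : IntermediateField ℚ (K i₀)), finrank F (K i₀) = b →
          ¬ IsTotallyReal F → (∀ g : L ≃ₐ[ℚ] L,
            tr F (fun φ => u i₀ (jp.comp φ)) (g • res F φ₀) = 0) → False := by
        intro F hF3 hreal hbal
        obtain ⟨r, hr, hr1⟩ := unitNorm_root j (h i₀) (hint i₀) (hweil i₀) (hu i₀) jp F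
          (res F φ₀) hbal
        exact hns' F hF3 hreal ⟨r, hr, hr1⟩
      have hb' : (b = 1 ∨ b.Prime) ∨ ∃ F : IntermediateField ℚ (K i₀), ¬ IsTotallyReal F ∧
          finrank F (K i₀) = b ∧ DoublyTransitive F := by
        rcases hb with hb | hb | hb
        · exact Or.inl (Or.inl hb)
        · exact Or.inl (Or.inr hb)
        · exact Or.inr hb
      rcases hb' with hb | ⟨F, hreal, hF3, h2tr⟩
      · rcases small_block hcb hcbne hG hW b hb hxB hBinv hstab htrL hBcard hc₁ hc₁x with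
          hh | ⟨-, -, O, hxO, hOcard, hOB, hOinv, hOblock, hObal⟩
        · exact hcase1 hh
        · -- the block gives a subfield
          have hsig : ∀ y ∈ O, ∃ φ : K i₀ →+* L, (⟨i₀, φ⟩ : Y) = y := by
            intro y hy
            obtain ⟨g, rfl⟩ := htrL y (hOB y hy)
            exact ⟨g • φ₀, rfl⟩
          let O' : Finset (K i₀ →+* L) := Finset.univ.filter (fun φ => (⟨i₀, φ⟩ : Y) ∈ O)
          have hO' : ∀ φ, φ ∈ O' ↔ (⟨i₀, φ⟩ : Y) ∈ O := by
            intro φ
            simp only [O', Finset.mem_filter, Finset.mem_univ, true_and]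
          have hmap : O'.map ⟨_, hinj⟩ = O := by
            ext y
            rw [Finset.mem_map]
            constructor
            · rintro ⟨φ, hφ, rfl⟩
              exact (hO' φ).1 hφ
            · intro hy
              obtain ⟨φ, rfl⟩ := hsig y hy
              exact ⟨φ, (hO' φ).2 hy, rfl⟩
          have hO'card : O'.card = b := by
            rw [← hOcard, ← hmap, Finset.card_map]
          obtain ⟨F, hF1, hF2⟩ := exists_subfield_of_block j (h i₀) O' (x := φ₀) ((hO' _).2 hxO)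
            (fun g y hy hgy z hz => (hO' _).2 (hOblock g ⟨i₀, y⟩ ((hO' _).1 hy) ((hO' _).1 hgy)
              ⟨i₀, z⟩ ((hO' _).1 hz)))
          have hreal : ¬ IsTotallyReal F := by
            rw [← nonReal_iff]
            by_contra hcon
            unfold NonReal at hcon
            push Not at hcon
            have h1 : res F (cbar φ₀) = res F φ₀ := by
              ext x
              rw [res_apply, res_apply, cbar_apply, hcon x x.2]
            have h2 := hF2 1 (cbar φ₀)
            rw [one_smul, inv_one, one_smul] at h2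
            exact hOinv _ hxO ((hO' _).1 (h2.1 h1))
          refine hcase2 F (by rw [hF1, hO'card]) hreal fun g => ?_
          rw [← res_smul]
          unfold tr
          rw [← Finset.sum_filter]
          have h1 := hObal g
          rw [← hmap, Finset.sum_map] at h1
          rw [← h1]
          symm
          refine Finset.sum_nbij' (fun φ => g • φ) (fun φ => g⁻¹ • φ) ?_ ?_ ?_ ?_ ?_
          · intro φ hφ
            refine Finset.mem_filter.2 ⟨Finset.mem_univ _, (hF2 g _).2 ?_⟩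
            rw [inv_smul_smul]
            exact hφ
          · intro φ hφ
            exact (hF2 g _).1 (Finset.mem_filter.1 hφ).2
          · intro φ _
            exact inv_smul_smul g φ
          · intro φ _
            exact smul_inv_smul g φ
          · intro φ _
            rfl
      · -- a doubly transitive subfield
        have hmove : ∀ φ : K i₀ →+* L, res F (cbar φ) ≠ res F φ := by
          intro φ hcon
          apply hreal
          by_contra hreal'
          rw [← nonReal_iff] at hreal'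
          obtain ⟨x, hx, hne⟩ := hreal'
          have h1 := RingHom.congr_fun hcon (⟨x, hx⟩ : F)
          rw [res_apply, res_apply, cbar_apply] at h1
          exact hne (φ.injective h1)
        let O' : Finset (K i₀ →+* L) := Finset.univ.filter (fun φ => res F φ = res F φ₀)
        have hO' : ∀ φ, φ ∈ O' ↔ res F φ = res F φ₀ := by
          intro φ
          simp only [O', Finset.mem_filter, Finset.mem_univ, true_and]
        let O : Finset Y := O'.map ⟨_, hinj⟩
        have hO : ∀ y, y ∈ O ↔ ∃ φ : K i₀ →+* L, res F φ = res F φ₀ ∧ (⟨i₀, φ⟩ : Y) = y := by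
          intro y
          simp only [O, Finset.mem_map, hO', Function.Embedding.coeFn_mk]
        have hOcard : O.card = b := by
          rw [Finset.card_map, ← hF3, ← card_ext j (h i₀) F (res F φ₀), Finset.sum_boole]
          simp [O']
        have hxO : (⟨i₀, φ₀⟩ : Y) ∈ O := (hO _).2 ⟨φ₀, rfl, rfl⟩
        have hOinv : ∀ y ∈ O, cb y ∉ O := by
          intro y hy hy'
          obtain ⟨φ, hφ, rfl⟩ := (hO _).1 hy
          obtain ⟨φ', hφ', h1⟩ := (hO _).1 hy'
          have h2 : φ' = cbar φ := eq_of_heq (Sigma.mk.inj h1).2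
          subst h2
          exact hmove φ (hφ'.trans hφ.symm)
        have hresg : ∀ (g : L ≃ₐ[ℚ] L) (φ φ' : K i₀ →+* L), res F φ = res F φ' →
            res F (g • φ) = res F (g • φ') := by
          intro g φ φ' hh
          rw [res_smul, res_smul, hh]
        have hOB : ∀ y ∈ O, y ∈ B := by
          intro y hy
          obtain ⟨φ, hφ, rfl⟩ := (hO _).1 hy
          refine Relation.EqvGen.rel _ _ ?_
          have e1 : ∀ (g : L ≃ₐ[ℚ] L) (ψ ψ' : K i₀ →+* L),
              g • (⟨i₀, ψ⟩ : Y) = (⟨i₀, ψ'⟩ : Y) → g • ψ = ψ' := fun g ψ ψ' hh => hinj hh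
          rintro ⟨g, ⟨h1, h2⟩ | ⟨h1, h2⟩ | ⟨h1, h2⟩⟩
          · have h3 := hresg g _ _ hφ
            rw [e1 g φ (cbar φ) h2, e1 g φ₀ φ₀ h1, ← hφ] at h3
            exact hmove φ h3
          · have h3 := hresg g _ _ hφ
            rw [e1 g φ φ h2, e1 g φ₀ (cbar φ₀) h1, hφ] at h3
            exact hmove φ₀ h3.symm
          · have h3 := hresg g _ _ hφ
            rw [e1 g φ (cbar φ₀) h2, e1 g φ₀ φ h1, hφ] at h3
            exact hmove φ₀ h3
        have hcover := half_cover_of hcb O hBinv hOB hOinv (by rw [hBcard, hOcard])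
        have hOblock : ∀ (g : L ≃ₐ[ℚ] L), ∀ y ∈ O, g • y ∈ O → ∀ z ∈ O, g • z ∈ O := by
          intro g y hy hgy z hz
          obtain ⟨φ, hφ, rfl⟩ := (hO _).1 hy
          obtain ⟨φ', hφ', h1⟩ := (hO _).1 hgy
          obtain ⟨ψ, hψ, rfl⟩ := (hO _).1 hz
          have h2 : φ' = g • φ := hinj h1
          subst h2
          exact (hO _).2 ⟨g • ψ, (hresg g _ _ (hψ.trans hφ.symm)).trans hφ', rfl⟩
        have h2O : ∀ y₁ ∈ O, ∀ y₂ ∈ O, ∀ z₁ ∈ O, ∀ z₂ ∈ O, y₁ ≠ y₂ → z₁ ≠ z₂ →
            ∃ g : L ≃ₐ[ℚ] L, g • y₁ = z₁ ∧ g • y₂ = z₂ := by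
          intro y₁ hy₁ y₂ hy₂ z₁ hz₁ z₂ hz₂ hy hz
          obtain ⟨φ₁, hφ₁, rfl⟩ := (hO _).1 hy₁
          obtain ⟨φ₂, hφ₂, rfl⟩ := (hO _).1 hy₂
          obtain ⟨ψ₁, hψ₁, rfl⟩ := (hO _).1 hz₁
          obtain ⟨ψ₂, hψ₂, rfl⟩ := (hO _).1 hz₂
          have e2 : ∀ (φ ψ : K i₀ →+* L), res F φ = res F φ₀ → res F ψ = res F φ₀ →
              ∀ x ∈ F, (j.comp φ) x = (j.comp ψ) x := by
            intro φ ψ h1 h2 x hx
            have h3 := RingHom.congr_fun (h1.trans h2.symm) (⟨x, hx⟩ : F)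
            exact congrArg j h3
          obtain ⟨τ, hτ1, hτ2⟩ := h2tr (j.comp φ₁) (j.comp φ₂) (j.comp ψ₁) (j.comp ψ₂)
            (fun hh => hy (by rw [comp_injective j hh])) (fun hh => hz (by rw [comp_injective j hh]))
            (fun x hx => ⟨e2 _ _ hφ₂ hφ₁ x hx, e2 _ _ hψ₁ hφ₁ x hx, e2 _ _ hψ₂ hφ₁ x hx⟩)
          obtain ⟨g, hg⟩ := exists_lift j τ
          refine ⟨g, ?_, ?_⟩
          · rw [lifts_comp j hg] at hτ1
            exact congrArg (fun ψ => (⟨i₀, ψ⟩ : Σ i, (K i →+* L))) (comp_injective j hτ1)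
          · rw [lifts_comp j hg] at hτ2
            exact congrArg (fun ψ => (⟨i₀, ψ⟩ : Σ i, (K i →+* L))) (comp_injective j hτ2)
        rcases two_trans_block hcb hcbne hG hW O hxO hOinv hcover hOblock h2O hc₁ hc₁x with
          hh | hObal
        · exact hcase1 hh
        · refine hcase2 F hF3 hreal fun g => ?_
          rw [← res_smul]
          unfold tr
          rw [← Finset.sum_filter]
          have h1 := hObal g
          rw [Finset.sum_map] at h1
          rw [← h1]
          symm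
          refine Finset.sum_nbij' (fun φ => g • φ) (fun φ => g⁻¹ • φ) ?_ ?_ ?_ ?_ ?_
          · intro φ hφ
            exact Finset.mem_filter.2 ⟨Finset.mem_univ _, hresg g _ _ ((hO' _).1 hφ)⟩
          · intro φ hφ
            exact (hO' _).2 ((hresg g⁻¹ _ _ (Finset.mem_filter.1 hφ).2).trans
              (by rw [inv_smul_smul]))
          · intro φ _
            exact inv_smul_smul g φ
          · intro φ _
            exact smul_inv_smul g φ
          · intro φ _
            rfl
    · -- irreducible classes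
      by_contra hc0
      let V : Submodule ℚ (Embs K → ℚ) :=
        { carrier := {c | (∀ z, c (TH127.SC.bar z) = - c z) ∧
            (∀ z, ¬ SameClass (f ⟨i₀, φ₀⟩) z → c z = 0) ∧
            ∀ g : L ≃ₐ[ℚ] L, ∑ y : Y, c (f y) * (W (g • y) : ℚ) = 0}
          add_mem' := by
            rintro a b ⟨ha1, ha2, ha3⟩ ⟨hb1, hb2, hb3⟩
            refine ⟨fun z => ?_, fun z hz => ?_, fun g => ?_⟩
            · simp only [Pi.add_apply, ha1, hb1]
              ring
            · simp only [Pi.add_apply, ha2 z hz, hb2 z hz, add_zero]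
            · simp only [Pi.add_apply, add_mul, Finset.sum_add_distrib, ha3 g, hb3 g, add_zero]
          zero_mem' := ⟨fun z => by simp, fun z _ => rfl, fun g => by simp⟩
          smul_mem' := by
            rintro r a ⟨ha1, ha2, ha3⟩
            refine ⟨fun z => ?_, fun z hz => ?_, fun g => ?_⟩
            · simp only [Pi.smul_apply, ha1, smul_eq_mul]
              ring
            · simp only [Pi.smul_apply, ha2 z hz, smul_zero]
            · simp only [Pi.smul_apply, smul_eq_mul, mul_assoc]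
              rw [← Finset.mul_sum, ha3 g, mul_zero] }
      have hV : ∀ c, c ∈ V ↔ (∀ z, c (TH127.SC.bar z) = - c z) ∧
          (∀ z, ¬ SameClass (f ⟨i₀, φ₀⟩) z → c z = 0) ∧
            ∀ g : L ≃ₐ[ℚ] L, ∑ y : Y, c (f y) * (W (g • y) : ℚ) = 0 := fun c => Iff.rfl
      have hbarbar : ∀ z : Embs K, TH127.SC.bar (TH127.SC.bar z) = z := by
        intro z
        obtain ⟨y, rfl⟩ := f.surjective z
        rw [← hfcb, ← hfcb, hcb]
      have hbarne : ∀ z : Embs K, TH127.SC.bar z ≠ z := by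
        intro z
        obtain ⟨y, rfl⟩ := f.surjective z
        rw [← hfcb]
        exact fun hh => hcbne y (f.injective hh)
      have hbarG : ∀ (τ : ℂ ≃+* ℂ) (z : Embs K), τ • TH127.SC.bar z = TH127.SC.bar (τ • z) := by
        intro τ z
        obtain ⟨y, rfl⟩ := f.surjective z
        obtain ⟨g, hg⟩ := hf2 τ
        rw [← hfcb, ← hg, ← hg, ← hfcb, hG]
      have hsc : ∀ y, SameClass (f ⟨i₀, φ₀⟩) (f y) ↔ Link (L ≃ₐ[ℚ] L) cb (⟨i₀, φ₀⟩ : Y) y :=
        fun y => (link_iff f hfcb hf1 hf2 _ _).symm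
      have hscbar : ∀ z, SameClass (f ⟨i₀, φ₀⟩) (TH127.SC.bar z) ↔ SameClass (f ⟨i₀, φ₀⟩) z := by
        intro z
        have h1 : SameClass z (TH127.SC.bar z) := link_cb hbarbar hbarne hbarG z
        exact ⟨fun h => link_trans h (link_symm h1), fun h => link_trans h h1⟩
      have hVst : ∀ τ : ℂ ≃+* ℂ, SameClass (f ⟨i₀, φ₀⟩) (τ • f ⟨i₀, φ₀⟩) → ∀ c ∈ V,
          (fun z => c (τ • z)) ∈ V := by
        intro τ hτ c hc
        obtain ⟨hc1, hc2, hc3⟩ := (hV c).1 hc
        obtain ⟨g₁, hg₁⟩ := hf2 τ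
        refine (hV _).2 ⟨fun z => ?_, fun z hz => ?_, fun g => ?_⟩
        · rw [hbarG, hc1]
        · refine hc2 _ fun hcon => hz ?_
          have h1 : SameClass (τ • f ⟨i₀, φ₀⟩) (τ • z) := link_trans (link_symm hτ) hcon
          exact (link_smul_iff hbarG τ).1 h1
        · rw [← hc3 (g * g₁⁻¹)]
          refine Fintype.sum_equiv (MulAction.toPerm g₁) _ _ fun y => ?_
          rw [MulAction.toPerm_apply, hg₁, mul_smul, inv_smul_smul]
      rcases hirr V (fun c hc => ⟨hc.1, hc.2.1⟩) hVst with hV0 | hV1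
      · -- the restriction of the relation to the class
        have hmem : (fun z => if SameClass (f ⟨i₀, φ₀⟩) z then (c' (f.symm z) : ℚ) else 0) ∈ V := by
          refine (hV _).2 ⟨fun z => ?_, fun z hz => if_neg hz, fun g => ?_⟩
          · obtain ⟨y, rfl⟩ := f.surjective z
            by_cases hz : SameClass (f ⟨i₀, φ₀⟩) (f y)
            · simp only [hz, (hscbar _).2 hz, if_true]
              rw [← hfcb, f.symm_apply_apply, f.symm_apply_apply, hc']
              push_cast
              rfl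
            · simp only [hz, (hscbar _).not.2 hz, if_false, neg_zero]
          · have h1 := core_split hG hW hrel' (⟨i₀, φ₀⟩ : Y) g
            rw [Finset.sum_filter] at h1
            have h2 : ((∑ y, (if Link (L ≃ₐ[ℚ] L) cb (⟨i₀, φ₀⟩ : Y) y then c' y * W (g • y)
                else 0) : ℤ) : ℚ) = 0 := by
              rw [h1, Int.cast_zero]
            refine Eq.trans ?_ h2
            rw [Int.cast_sum]
            refine Finset.sum_congr rfl fun y _ => ?_
            by_cases hy : Link (L ≃ₐ[ℚ] L) cb (⟨i₀, φ₀⟩ : Y) y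
            · simp only [hy, (hsc y).2 hy, if_true, f.symm_apply_apply]
              push_cast
              rfl
            · simp only [hy, (hsc y).not.2 hy, if_false, zero_mul, Int.cast_zero]
        rw [hV0, Submodule.mem_bot] at hmem
        have h1 := congrFun hmem (f ⟨i₀, φ₀⟩)
        have h2 : SameClass (f ⟨i₀, φ₀⟩) (f ⟨i₀, φ₀⟩) := link_refl _
        simp only [h2, if_true, f.symm_apply_apply, Pi.zero_apply] at h1
        exact hc0 (by exact_mod_cast h1)
      · -- all odd functions on the class are relations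
        have hz : ∀ g : L ≃ₐ[ℚ] L, W (g • (⟨i₀, φ₀⟩ : Y)) = 0 := by
          intro g
          have hmem := hV1 (fun z => if z = f ⟨i₀, φ₀⟩ then 1 else
            if z = TH127.SC.bar (f ⟨i₀, φ₀⟩) then -1 else 0) (by
              intro z
              by_cases h1 : z = f ⟨i₀, φ₀⟩
              · subst h1
                simp only [hbarne, if_false, if_true]
              · by_cases h2 : z = TH127.SC.bar (f ⟨i₀, φ₀⟩)
                · subst h2
                  simp only [hbarbar, hbarne, if_false, if_true]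
                  norm_num
                · have h3 : TH127.SC.bar z ≠ f ⟨i₀, φ₀⟩ := fun h => h2 (by rw [← h, hbarbar])
                  have h4 : TH127.SC.bar z ≠ TH127.SC.bar (f ⟨i₀, φ₀⟩) := fun h => h1 (by
                    rw [← hbarbar z, h, hbarbar])
                  simp only [h1, h2, h3, h4, if_false, neg_zero]) (by
              intro z hz
              have h1 : z ≠ f ⟨i₀, φ₀⟩ := fun h => hz (by rw [h]; exact link_refl _)
              have h2 : z ≠ TH127.SC.bar (f ⟨i₀, φ₀⟩) := fun h => hz (by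
                rw [h]
                exact (hscbar _).2 (link_refl _))
              simp only [h1, h2, if_false])
          have h1 := ((hV _).1 hmem).2.2 g
          have h2 : ∑ y : Y, (if f y = f ⟨i₀, φ₀⟩ then (1 : ℚ) else
              if f y = TH127.SC.bar (f ⟨i₀, φ₀⟩) then -1 else 0) * (W (g • y) : ℚ) =
              ∑ y ∈ ({⟨i₀, φ₀⟩, cb ⟨i₀, φ₀⟩} : Finset Y), (if f y = f ⟨i₀, φ₀⟩ then (1 : ℚ) else
              if f y = TH127.SC.bar (f ⟨i₀, φ₀⟩) then -1 else 0) * (W (g • y) : ℚ) := by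
            symm
            refine Finset.sum_subset (Finset.subset_univ _) fun y _ hy => ?_
            rw [Finset.mem_insert, Finset.mem_singleton, not_or] at hy
            have h3 : f y ≠ f ⟨i₀, φ₀⟩ := fun h => hy.1 (f.injective h)
            have h4 : f y ≠ TH127.SC.bar (f ⟨i₀, φ₀⟩) := fun h => hy.2 (f.injective (by
              rw [h, hfcb]))
            simp only [h3, h4, if_false, zero_mul]
          rw [h2, Finset.sum_pair (Ne.symm (hcbne _)), hG, hW, hfcb] at h1
          simp only [hbarne, if_false, if_true] at h1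
          have h3 : (2 : ℚ) * (W (g • (⟨i₀, φ₀⟩ : Y)) : ℚ) = 0 := by
            push_cast at h1
            linarith
          have h4 := (mul_eq_zero.1 h3).resolve_left two_ne_zero
          exact_mod_cast h4
        have h5 : φ₀ = cbar φ₀ := eq_of_slopes_at (hint i₀) (hweil i₀) (hpow i₀) (hκ i₀) (hu i₀)
          jp φ₀ (cbar φ₀) (fun g => by
            have h6 := hz g
            have h7 : W (g • cb (⟨i₀, φ₀⟩ : Y)) = 0 := by rw [hG, hW, h6, neg_zero]
            exact h6.trans h7.symm)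
        exact cbar_ne φ₀ h5.symm
  obtain ⟨ψ, hψ⟩ := h i₀ χ
  have hfψ : f ⟨i₀, ψ⟩ = (⟨i₀, χ⟩ : Σ i, (K i →+* ℂ)) := by
    change (⟨i₀, j.comp ψ⟩ : Σ i, (K i →+* ℂ)) = ⟨i₀, χ⟩
    rw [hψ]
  obtain ⟨g, hg⟩ := MulAction.exists_smul_eq (L ≃ₐ[ℚ] L) ψ φ₀
  have h1 := key i₀ ψ (by rw [hfψ]; exact hχ) (fun y => c y.1 (g • y.2)) (by
    rintro ⟨i, φ⟩
    change c i (g • cbar φ) = - c i (g • φ)
    rw [← hc]
    rfl) (by
    intro k
    rw [Fintype.sum_sigma]
    rw [← hrel (k * g⁻¹)]
    refine Finset.sum_congr rfl fun i _ => ?_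
    refine Fintype.sum_equiv (MulAction.toPerm g) _ _ fun φ => ?_
    rw [MulAction.toPerm_apply, mul_smul, inv_smul_smul]
    rfl)
  have h2 : c i₀ (g • ψ) = 0 := h1
  rwa [hg] at h2

end

end Pool.Agent.H395.Exo
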