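import Mathlib
import Pool.Agent.H395.Angle
import Pool.Agent.H395.Exo.FreeAt

/-!
# Relations between the slopes
-/

set_option autoImplicit false
set_option linter.unusedSectionVars false
set_option linter.unusedVariables false

namespace Pool.Agent.H395.Exo

open NumberField Module Pool.Agent.W527 Pool.Agent.H204R3.CM Pool.Agent.H977R3.WN
  Pool.Agent.H485R3.Exact Pool.Agent.TH127.SC Pool.Agent.Y137.MV

noncomputable section

variable {p : ℕ} [hp : Fact p.Prime] {I : Type} [Fintype I] {K : I → Type} [∀ i, Field (K i)]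
  [∀ i, NumberField (K i)] [∀ i, IsCMField (K i)] {a : ℕ} {π : ∀ i, K i}

/-- A multiplicative relation between the conjugates of the Weil numbers gives a linear relation
between the slopes. -/
theorem rel_of_product (hweil : ∀ i, ∀ φ : K i →+* ℂ, ‖φ (π i)‖ ^ 2 = (p : ℝ) ^ a)
    {κ : I → ℚ} (hκ : ∀ i, 0 < κ i) {u : ∀ i, (K i →+* PadicAlgCl p) → ℤ}
    (hu : ∀ i, ∀ τ : K i →+* PadicAlgCl p,
      2 * (- Real.logb p ‖τ (π i)‖) - a = (κ i : ℝ) * u i τ)
    {L : Type} [Field L] [NumberField L] [IsGalois ℚ L] (j : L →+* ℂ)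
    (h : ∀ i, ∀ ψ : K i →+* ℂ, ∃ φ : K i →+* L, j.comp φ = ψ) (jp : L →+* PadicAlgCl p)
    (r : ℤ) (n : (Σ i, (K i →+* ℂ)) → ℤ)
    (hrel : ∏ z : Σ i, (K i →+* ℂ), (z.2 (π z.1)) ^ n z = ((p ^ a : ℕ) : ℂ) ^ r) :
    ∃ A : I → ℤ, (∀ i, A i ≠ 0) ∧ ∀ g : L ≃ₐ[ℚ] L, ∑ i, ∑ φ : K i →+* L,
      ((n ⟨i, j.comp φ⟩ - n ⟨i, j.comp (cbar φ)⟩) * A i) * u i (jp.comp (g • φ)) = 0 := by
  classical
  have hp1 : (1 : ℝ) < p := by exact_mod_cast hp.out.one_lt
  have hπ0 : ∀ i, π i ≠ 0 := fun i => ne_zero_of_weil (p := p) (m := a) (hweil i)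
  obtain ⟨⟨κc, hκc', hκc''⟩, hne⟩ := conj_data (K := K) j h
  have hanti : ∀ i, ∀ φ : K i →+* L, u i (jp.comp (cbar φ)) = - u i (jp.comp φ) :=
    fun i φ => anti_of_slopes' (m := a) (hweil i) (hκ i).ne' (hu i) (jp.comp φ)
  let Y : Type := Σ i, (K i →+* L)
  let Y' : Type := Σ i, (K i →+* ℂ)
  let cb : Y → Y := fun y => ⟨y.1, cbar y.2⟩
  let f : Y ≃ Y' := embEquiv (F := K) j h
  have hfval : ∀ y : Y, (f y).2 (π y.1) = j (y.2 (π y.1)) := fun y => rfl
  have hfcb : ∀ y : Y, f (cb y) = (⟨(f y).1, ComplexEmbedding.conjugate (f y).2⟩ : Y') := by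
    rintro ⟨i, φ⟩
    change (⟨i, j.comp (cbar φ)⟩ : Σ i, (K i →+* ℂ)) = ⟨i, ComplexEmbedding.conjugate (j.comp φ)⟩
    rw [comp_cbar]
  have hcb : ∀ y, cb (cb y) = y := by
    rintro ⟨i, φ⟩
    change (⟨i, cbar (cbar φ)⟩ : Σ i, (K i →+* L)) = ⟨i, φ⟩
    rw [cbar_cbar]
  let W : Y → ℤ := fun y => u y.1 (jp.comp y.2)
  have hW : ∀ y, W (cb y) = - W y := by
    rintro ⟨i, φ⟩
    exact hanti i φ
  let N : Y → ℤ := fun y => n (f y)
  -- the relation in `L`
  have hrelL : ∏ y : Y, (y.2 (π y.1)) ^ N y = ((p : L) ^ a) ^ r := by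
    apply j.injective
    rw [map_prod, map_zpow₀, map_pow, map_natCast]
    have h1 : ((p ^ a : ℕ) : ℂ) ^ r = ((p : ℂ) ^ a) ^ r := by push_cast; rfl
    rw [← h1, ← hrel]
    refine Fintype.prod_equiv f _ _ fun y => ?_
    rw [map_zpow₀]
    rfl
  have hdev : ∀ (g : L ≃ₐ[ℚ] L) (y : Y), 2 * Real.logb p ‖jp (g (y.2 (π y.1)))‖ =
      -(a + κ y.1 * W (g • y)) := by
    intro g y
    have h1 := hu y.1 (jp.comp (g • y).2)
    change 2 * (- Real.logb p ‖jp (g (y.2 (π y.1)))‖) - a = (κ y.1 : ℝ) * W (g • y) at h1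
    linarith
  have hlog : ∀ g : L ≃ₐ[ℚ] L, ∑ y : Y, (N y : ℝ) * (κ y.1 * W (g • y)) =
      2 * (r * a) - a * ∑ y : Y, (N y : ℝ) := by
    intro g
    have h1 := congrArg (fun x => Real.logb p ‖jp (g x)‖) hrelL
    simp only [map_prod, map_zpow₀, map_pow, map_natCast, norm_prod, norm_zpow, norm_pow] at h1
    have h2 : ‖(p : PadicAlgCl p)‖ = (p : ℝ)⁻¹ := by
      have h4 : (p : PadicAlgCl p) = algebraMap ℚ_[p] (PadicAlgCl p) (p : ℚ_[p]) := by simp
      rw [h4, PadicAlgCl.norm_extends, Padic.norm_p]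
    rw [h2, Real.logb_prod _ _ (fun y _ => zpow_ne_zero _ (norm_ne_zero_iff.2
      ((_root_.map_ne_zero jp).2 ((_root_.map_ne_zero g).2
        ((_root_.map_ne_zero _).2 (hπ0 _))))))] at h1
    simp only [logb_zpow', Real.logb_pow, Real.logb_inv, Real.logb_self_eq_one hp1] at h1
    have h3 : ∑ y : Y, (N y : ℝ) * (κ y.1 * W (g • y)) =
        ∑ y : Y, (-(2 * ((N y : ℝ) * Real.logb p ‖jp (g (y.2 (π y.1)))‖)) - a * (N y : ℝ)) := by
      refine Finset.sum_congr rfl fun y _ => ?_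
      have := hdev g y
      have h4 : (κ y.1 : ℝ) * W (g • y) = -(2 * Real.logb p ‖jp (g (y.2 (π y.1)))‖) - a := by
        linarith
      rw [h4]
      ring
    rw [h3, Finset.sum_sub_distrib, Finset.sum_neg_distrib, ← Finset.mul_sum, ← Finset.mul_sum, h1]
    ring
  have hc0 : 2 * ((r : ℝ) * a) - a * ∑ y : Y, (N y : ℝ) = 0 := by
    have h1 := hlog 1
    have h2 := hlog κc
    have h3 : ∀ y : Y, W (κc • y) = - W ((1 : L ≃ₐ[ℚ] L) • y) := by
      rintro ⟨i, φ⟩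
      rw [one_smul, ← hW]
      change u i (jp.comp (κc • φ)) = u i (jp.comp (cbar φ))
      rw [hκc'']
    simp only [h3, Int.cast_neg, mul_neg, Finset.sum_neg_distrib] at h2
    linarith
  have hF : ∀ g : L ≃ₐ[ℚ] L, ∑ y : Y, ((N y : ℝ) - N (cb y)) * (κ y.1 * W (g • y)) = 0 := by
    intro g
    have h2 : ∑ y : Y, (N (cb y) : ℝ) * (κ y.1 * W (g • y)) =
        ∑ y : Y, -((N y : ℝ) * (κ y.1 * W (g • y))) := by
      refine Finset.sum_nbij' cb cb (fun _ _ => Finset.mem_univ _)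
        (fun _ _ => Finset.mem_univ _) (fun y _ => hcb y) (fun y _ => hcb y) (fun y _ => ?_)
      have h3 : g • cb y = cb (g • y) := rfl
      have h4 : (cb y).1 = y.1 := rfl
      rw [h3, hW, h4]
      push_cast
      ring
    simp only [sub_mul, Finset.sum_sub_distrib]
    rw [h2, Finset.sum_neg_distrib, hlog, hc0]
    ring
  -- integral coefficients
  let D : ℕ := ∏ i, (κ i).den
  have hD0 : (D : ℚ) ≠ 0 := by
    have h1 : D ≠ 0 := Finset.prod_ne_zero_iff.2 fun i _ => (κ i).den_nz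
    exact_mod_cast h1
  have hD : ∀ i, ∃ m : ℤ, (m : ℚ) = κ i * D := by
    intro i
    obtain ⟨r, hr⟩ := Finset.dvd_prod_of_mem (fun i => (κ i).den) (Finset.mem_univ i)
    refine ⟨(κ i).num * r, ?_⟩
    have h1 : (D : ℚ) = (κ i).den * r := by
      have h2 : D = (κ i).den * r := hr
      exact_mod_cast h2
    rw [h1, ← mul_assoc, Rat.mul_den_eq_num]
    push_cast
    rfl
  choose A hA using hD
  have hA0 : ∀ i, A i ≠ 0 := by
    intro i h0
    have h1 := hA i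
    rw [h0, Int.cast_zero] at h1
    exact mul_ne_zero (hκ i).ne' hD0 h1.symm
  refine ⟨A, hA0, fun g => ?_⟩
  have h1 := hF g
  have h2 : ∑ y : Y, ((N y - N (cb y)) * A y.1) * W (g • y) = 0 := by
    have h3 : (((∑ y : Y, ((N y - N (cb y)) * A y.1) * W (g • y) : ℤ) : ℚ) : ℝ) =
        D * ∑ y : Y, ((N y : ℝ) - N (cb y)) * (κ y.1 * W (g • y)) := by
      push_cast
      rw [Finset.mul_sum]
      refine Finset.sum_congr rfl fun y _ => ?_
      have h4 : (A y.1 : ℝ) = κ y.1 * D := by exact_mod_cast hA y.1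
      rw [h4]
      ring
    rw [h1, mul_zero] at h3
    exact_mod_cast h3
  rw [Fintype.sum_sigma] at h2
  exact h2

end

end Pool.Agent.H395.Exo
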