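import Mathlib
import Pool.Agent.H395.Exo.Defs
import Pool.Agent.H395.Exo.Extract

/-!
# Embeddings of imaginary quadratic fields
-/

set_option autoImplicit false
set_option linter.unusedSectionVars false
set_option linter.unusedVariables false

namespace Pool.Agent.H395.Exo

open NumberField Module Pool.Agent.W527 Pool.Agent.H204R3.CM Pool.Agent.H977R3.WN
  Pool.Agent.H485R3.Exact Pool.Agent.TH127.SC Pool.Agent.Y137.MV

noncomputable section

section quad

variable {k : Type} [Field k] [NumberField k] [IsCMField k] (hk : finrank ℚ k = 2) (κ : k →+* ℂ)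

theorem conj_ne_self (χ : k →+* ℂ) : ComplexEmbedding.conjugate χ ≠ χ := by
  intro h
  have h1 := comp_cbar χ (RingHom.id k)
  rw [RingHom.comp_id, h] at h1
  have h2 : cbar (RingHom.id k) = RingHom.id k := by
    ext x
    apply χ.injective
    exact RingHom.congr_fun h1 x
  exact cbar_ne _ h2

include hk in
/-- An imaginary quadratic field has two embeddings. -/
theorem emb_quad (χ : k →+* ℂ) : χ = κ ∨ χ = ComplexEmbedding.conjugate κ := by
  classical
  by_contra hcon
  push Not at hcon
  have h1 : Fintype.card (k →+* ℂ) = 2 := by rw [NumberField.Embeddings.card, hk]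
  have h2 : ({χ, κ, ComplexEmbedding.conjugate κ} : Finset (k →+* ℂ)).card ≤ 2 := by
    rw [← h1]
    exact Finset.card_le_univ _
  rw [Finset.card_insert_of_notMem (by simp [hcon.1, hcon.2]),
    Finset.card_insert_of_notMem (by
      rw [Finset.mem_singleton]
      exact (conj_ne_self κ).symm), Finset.card_singleton] at h2
  omega

include hk in
/-- An automorphism over `k` also fixes the other embedding. -/
theorem fix_conj {σ : ℂ ≃+* ℂ} (hσ : ∀ x, σ (κ x) = κ x) :
    (σ : ℂ →+* ℂ).comp (ComplexEmbedding.conjugate κ) = ComplexEmbedding.conjugate κ := by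
  rcases emb_quad hk κ ((σ : ℂ →+* ℂ).comp (ComplexEmbedding.conjugate κ)) with h | h
  · exfalso
    apply conj_ne_self κ
    ext x
    apply σ.injective
    have h1 : σ (ComplexEmbedding.conjugate κ x) = κ x := RingHom.congr_fun h x
    rw [h1, hσ]
  · exact h

end quad

end

end Pool.Agent.H395.Exo
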