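import Mathlib

/-!
# Irreducibility of the functions with sum zero
-/

set_option autoImplicit false
set_option linter.unusedSectionVars false
set_option linter.unusedVariables false

namespace Pool.Agent.H395.Exo

open Module Polynomial

noncomputable section

variable {X : Type} [Fintype X] [DecidableEq X]

/-- A doubly transitive group. -/
theorem irr_of_double (P : Subgroup (Equiv.Perm X))
    (h2 : ∀ x y x' y' : X, x ≠ y → x' ≠ y' → ∃ τ ∈ P, τ x = x' ∧ τ y = y')
    (V : Submodule ℚ (X → ℚ)) (hV : ∀ c ∈ V, ∑ x, c x = 0)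
    (hst : ∀ τ ∈ P, ∀ c ∈ V, (fun x => c (τ x)) ∈ V) :
    V = ⊥ ∨ ∀ c : X → ℚ, ∑ x, c x = 0 → c ∈ V := by
  classical
  by_cases hV0 : V = ⊥
  · exact Or.inl hV0
  right
  obtain ⟨f, hf, hf0⟩ := (Submodule.ne_bot_iff _).1 hV0
  obtain ⟨φ, hφ⟩ : ∃ φ, f φ ≠ 0 := by
    by_contra hcon
    push Not at hcon
    exact hf0 (funext hcon)
  let S : Finset (Equiv.Perm X) := Finset.univ.filter fun τ => τ ∈ P ∧ τ φ = φ
  have hS : ∀ τ, τ ∈ S ↔ τ ∈ P ∧ τ φ = φ := by
    intro τ
    simp only [S, Finset.mem_filter, Finset.mem_univ, true_and]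
  have hS1 : (1 : Equiv.Perm X) ∈ S := (hS 1).2 ⟨P.one_mem, rfl⟩
  let F : X → ℚ := fun x => ∑ τ ∈ S, f (τ x)
  have hF : F ∈ V := by
    have h1 : F = ∑ τ ∈ S, fun x => f (τ x) := by
      funext x
      rw [Finset.sum_apply]
    rw [h1]
    exact Submodule.sum_mem _ fun τ hτ => hst τ ((hS τ).1 hτ).1 f hf
  have hFφ : F φ = S.card * f φ := by
    have h1 : F φ = ∑ τ ∈ S, f φ := Finset.sum_congr rfl fun τ hτ => by rw [((hS τ).1 hτ).2]
    rw [h1, Finset.sum_const, nsmul_eq_mul]
  have ha : F φ ≠ 0 := by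
    rw [hFφ]
    exact mul_ne_zero (Nat.cast_ne_zero.2 (Finset.card_ne_zero_of_mem hS1)) hφ
  have hconst : ∀ x y, x ≠ φ → y ≠ φ → F x = F y := by
    intro x y hx hy
    obtain ⟨ρ, hρ, h3, h4⟩ := h2 φ x φ y hx.symm hy.symm
    change ∑ τ ∈ S, f (τ x) = ∑ τ ∈ S, f (τ y)
    symm
    refine Finset.sum_nbij' (fun τ => τ * ρ) (fun τ => τ * ρ⁻¹) ?_ ?_ ?_ ?_ ?_
    · intro τ hτ
      obtain ⟨h5, h6⟩ := (hS τ).1 hτ
      exact (hS _).2 ⟨P.mul_mem h5 hρ, by rw [Equiv.Perm.mul_apply, h3, h6]⟩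
    · intro τ hτ
      obtain ⟨h5, h6⟩ := (hS τ).1 hτ
      refine (hS _).2 ⟨P.mul_mem h5 (P.inv_mem hρ), ?_⟩
      rw [Equiv.Perm.mul_apply, Equiv.Perm.inv_eq_iff_eq.2 h3.symm, h6]
    · intro τ _
      rw [mul_assoc, mul_inv_cancel, mul_one]
    · intro τ _
      rw [mul_assoc, inv_mul_cancel, mul_one]
    · intro τ _
      rw [Equiv.Perm.mul_apply, h4]
  -- another point
  obtain ⟨y₀, hy₀⟩ : ∃ y, y ≠ φ := by
    by_contra hcon
    push Not at hcon
    apply ha
    have h3 := hV F hF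
    rw [Finset.sum_eq_single φ (fun x _ hx => absurd (hcon x) hx)
      (fun h => absurd (Finset.mem_univ _) h)] at h3
    exact h3
  set b := F y₀ with hb
  have hFx : ∀ x, F x = b + if x = φ then (F φ - b) else 0 := by
    intro x
    by_cases hx : x = φ
    · rw [if_pos hx, hx]
      ring
    · rw [if_neg hx, add_zero]
      exact hconst x y₀ hx hy₀
  have hab : F φ - b ≠ 0 := by
    intro h3
    apply ha
    have h4 := hV F hF
    rw [Finset.sum_congr rfl fun x _ => hFx x] at h4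
    rw [h3] at h4
    simp only [ite_self, add_zero, Finset.sum_const, nsmul_eq_mul] at h4
    have h5 : ((Finset.univ : Finset X).card : ℚ) ≠ 0 :=
      Nat.cast_ne_zero.2 (Finset.card_ne_zero_of_mem (Finset.mem_univ φ))
    have h6 : b = 0 := (mul_eq_zero.1 h4).resolve_left h5
    linarith
  have hmove : ∀ ψ : X, ∃ ρ ∈ P, ρ ψ = φ := by
    intro ψ
    by_cases hψ : ψ = φ
    · exact ⟨1, P.one_mem, hψ⟩
    · obtain ⟨ρ, hρ, h3, -⟩ := h2 ψ φ φ ψ hψ (Ne.symm hψ)
      exact ⟨ρ, hρ, h3⟩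
  choose ρ hρ hρφ using hmove
  have hG : ∀ ψ : X, (fun x => F (ρ ψ x)) ∈ V := fun ψ => hst _ (hρ ψ) F hF
  have hGx : ∀ ψ x : X, F (ρ ψ x) = b + if x = ψ then (F φ - b) else 0 := by
    intro ψ x
    rw [hFx]
    have h3 : ρ ψ x = φ ↔ x = ψ := by
      rw [← hρφ ψ]
      exact (ρ ψ).injective.eq_iff
    simp only [h3]
  intro c hc
  have h3 : c = ∑ ψ, (c ψ / (F φ - b)) • fun x => F (ρ ψ x) := by
    funext x
    rw [Finset.sum_apply]
    simp only [Pi.smul_apply, smul_eq_mul, hGx, mul_add, Finset.sum_add_distrib, mul_ite, mul_zero]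
    rw [Finset.sum_ite_eq, if_pos (Finset.mem_univ x), ← Finset.sum_mul, ← Finset.sum_div, hc]
    field_simp
    ring
  rw [h3]
  exact Submodule.sum_mem _ fun ψ _ => V.smul_mem _ (hG ψ)

/-- The shift by a permutation. -/
def shift (τ : Equiv.Perm X) : (X → ℚ) →ₗ[ℚ] (X → ℚ) := LinearMap.funLeft ℚ ℚ τ

theorem shift_apply (τ : Equiv.Perm X) (f : X → ℚ) (x : X) : shift τ f x = f (τ x) := rfl

theorem shift_pow (τ : Equiv.Perm X) (f : X → ℚ) (n : ℕ) (x : X) :
    (shift τ ^ n) f x = f ((τ ^ n) x) := by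
  induction n generalizing f x with
  | zero => rfl
  | succ n ih =>
    rw [pow_succ, Module.End.mul_apply, ih, shift_apply, pow_succ', Equiv.Perm.mul_apply]

/-- A transitive group on a prime number of points. -/
theorem irr_of_prime (hprime : (Fintype.card X).Prime) (P : Subgroup (Equiv.Perm X))
    (h1 : ∀ x y : X, ∃ τ ∈ P, τ x = y)
    (V : Submodule ℚ (X → ℚ)) (hV : ∀ c ∈ V, ∑ x, c x = 0)
    (hst : ∀ τ ∈ P, ∀ c ∈ V, (fun x => c (τ x)) ∈ V) :
    V = ⊥ ∨ ∀ c : X → ℚ, ∑ x, c x = 0 → c ∈ V := by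
  classical
  by_cases hV0 : V = ⊥
  · exact Or.inl hV0
  right
  obtain ⟨f, hf, hf0⟩ := (Submodule.ne_bot_iff _).1 hV0
  set r := Fintype.card X with hr
  have : Fact r.Prime := ⟨hprime⟩
  obtain ⟨x₀⟩ : Nonempty X := Fintype.card_pos_iff.1 hprime.pos
  -- an element of order `r`
  have htr : MulAction.IsPretransitive P X := ⟨fun x y => by
    obtain ⟨τ, hτ, h2⟩ := h1 x y
    exact ⟨⟨τ, hτ⟩, h2⟩⟩
  have hdvd : r ∣ Nat.card P := by
    have h2 := MulAction.index_stabilizer_of_transitive P x₀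
    rw [Nat.card_eq_fintype_card] at h2
    rw [hr, ← h2]
    exact Subgroup.index_dvd_card _
  obtain ⟨τ', hτ'⟩ := exists_prime_orderOf_dvd_card' r hdvd
  obtain ⟨τ, hτP⟩ := τ'
  have hord : orderOf τ = r := by
    rw [← hτ', Subgroup.orderOf_mk]
  have hcyc : τ.IsCycle := Equiv.Perm.isCycle_of_prime_order' (by rw [hord]; exact hprime) (by
    rw [hord, ← hr]
    have := hprime.pos
    omega)
  have hsupp : τ.support = Finset.univ := by
    apply Finset.eq_univ_of_card
    rw [← hcyc.orderOf, hord]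
  have hon : τ.IsCycleOn (Finset.univ : Finset X) := by
    have h2 := hcyc.isCycleOn
    have h3 : {x | τ x ≠ x} = ((Finset.univ : Finset X) : Set X) := by
      ext x
      have h4 : x ∈ τ.support := by rw [hsupp]; exact Finset.mem_univ x
      simp only [Set.mem_ofPred_eq, Finset.coe_univ, Set.mem_univ, iff_true]
      exact Equiv.Perm.mem_support.1 h4
    rw [← h3]
    exact h2
  -- the cyclotomic polynomial
  have hstab : ∀ q : ℚ[X], ∀ c ∈ V, (aeval (shift τ) q) c ∈ V := by
    intro q c hc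
    induction q using Polynomial.induction_on' with
    | add q q' h2 h3 =>
      rw [map_add, LinearMap.add_apply]
      exact V.add_mem h2 h3
    | monomial n a =>
      rw [aeval_monomial, Module.End.mul_apply, Module.algebraMap_end_apply]
      apply V.smul_mem
      have h2 : ∀ n : ℕ, (shift τ ^ n) c ∈ V := by
        intro n
        have h3 := hst (τ ^ n) (P.pow_mem hτP n) c hc
        have h4 : (fun x => c ((τ ^ n) x)) = (shift τ ^ n) c := by
          funext x
          rw [shift_pow]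
        rw [← h4]
        exact h3
      exact h2 n
  have hkill : (aeval (shift τ) (cyclotomic r ℚ)) f = 0 := by
    rw [cyclotomic_prime]
    rw [map_sum, LinearMap.sum_apply]
    funext x
    rw [Finset.sum_apply]
    simp only [map_pow, aeval_X, shift_pow, Pi.zero_apply]
    have h2 := hV f hf
    rw [← h2]
    have h3 : (Finset.range r).image (fun i => (τ ^ i) x) = Finset.univ := by
      rw [Finset.eq_univ_iff_forall]
      intro y
      obtain ⟨n, hn, h4⟩ := hon.exists_pow_eq (Finset.mem_univ x) (Finset.mem_univ y)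
      rw [Finset.card_univ, ← hr] at hn
      exact Finset.mem_image.2 ⟨n, Finset.mem_range.2 hn, h4⟩
    rw [← h3, Finset.sum_image]
    intro i hi i' hi' h4
    have h5 := hon.pow_apply_eq_pow_apply (Finset.mem_univ x) (m := i) (n := i')
    rw [Finset.card_univ, ← hr] at h5
    have h6 := h5.1 h4
    have h7 := Finset.mem_range.1 hi
    have h8 := Finset.mem_range.1 hi'
    exact Nat.ModEq.eq_of_lt_of_lt h6 h7 h8
  let Ψ : degreeLT ℚ (r - 1) →ₗ[ℚ] (X → ℚ) :=
    { toFun := fun q => (aeval (shift τ) (q : ℚ[X])) f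
      map_add' := fun q q' => by
        rw [Submodule.coe_add, map_add, LinearMap.add_apply]
      map_smul' := fun a q => by
        rw [Submodule.coe_smul, map_smul, LinearMap.smul_apply, RingHom.id_apply] }
  have hΨ : ∀ q, Ψ q = (aeval (shift τ) (q : ℚ[X])) f := fun q => rfl
  have hinj : Function.Injective Ψ := by
    rw [injective_iff_map_eq_zero]
    intro q hq
    by_contra hq0
    have hq1 : (q : ℚ[X]) ≠ 0 := fun h => hq0 (Subtype.ext h)
    have hdeg : (q : ℚ[X]).degree < ((r - 1 : ℕ) : WithBot ℕ) := mem_degreeLT.1 q.2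
    have hirr : Irreducible (cyclotomic r ℚ) := cyclotomic.irreducible_rat hprime.pos
    have hcop : IsCoprime (cyclotomic r ℚ) (q : ℚ[X]) := by
      rw [hirr.coprime_iff_not_dvd]
      intro hd
      have h2 := degree_le_of_dvd hd hq1
      rw [degree_cyclotomic, Nat.totient_prime hprime] at h2
      exact absurd (lt_of_le_of_lt h2 hdeg) (lt_irrefl _)
    obtain ⟨u, v, huv⟩ := hcop
    apply hf0
    have h2 : (aeval (shift τ) (u * cyclotomic r ℚ + v * (q : ℚ[X]))) f = f := by
      rw [huv, map_one, Module.End.one_apply]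
    rw [map_add, map_mul, map_mul, LinearMap.add_apply, Module.End.mul_apply,
      Module.End.mul_apply, hkill, map_zero, zero_add] at h2
    rw [hΨ] at hq
    rw [hq, map_zero] at h2
    exact h2.symm
  let Z : Submodule ℚ (X → ℚ) := LinearMap.ker (∑ x : X, LinearMap.proj (R := ℚ) (φ := fun _ => ℚ) x)
  have hZ : ∀ c, c ∈ Z ↔ ∑ x, c x = 0 := by
    intro c
    rw [LinearMap.mem_ker, LinearMap.sum_apply]
    rfl
  have hZdim : finrank ℚ Z + 1 = r := by
    have h2 := LinearMap.finrank_range_add_finrank_ker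
      (∑ x : X, LinearMap.proj (R := ℚ) (φ := fun _ => ℚ) x)
    have h3 : LinearMap.range (∑ x : X, LinearMap.proj (R := ℚ) (φ := fun _ => ℚ) x) = ⊤ := by
      rw [LinearMap.range_eq_top]
      intro a
      refine ⟨Pi.single x₀ a, ?_⟩
      rw [LinearMap.sum_apply]
      simp only [LinearMap.proj_apply]
      rw [Finset.sum_pi_single']
      simp
    rw [h3, finrank_top, finrank_self, finrank_fintype_fun_eq_card] at h2
    have h4 : finrank ℚ Z = finrank ℚ (LinearMap.ker
      (∑ x : X, LinearMap.proj (R := ℚ) (φ := fun _ => ℚ) x)) := rfl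
    rw [hr, h4]
    omega
  have hVZ : V ≤ Z := fun c hc => (hZ c).2 (hV c hc)
  have hdim : r - 1 ≤ finrank ℚ V := by
    have h2 : finrank ℚ (degreeLT ℚ (r - 1)) = r - 1 := by
      rw [(degreeLTEquiv ℚ (r - 1)).finrank_eq, finrank_fin_fun]
    rw [← h2]
    exact LinearMap.finrank_le_finrank_of_injective (f := Ψ.codRestrict V fun q => hstab q f hf)
      fun q q' h => hinj (congrArg Subtype.val h)
  have hVeq : V = Z := by
    apply Submodule.eq_of_le_of_finrank_le hVZ
    omega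
  intro c hc
  rw [hVeq]
  exact (hZ c).2 hc

end

end Pool.Agent.H395.Exo
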