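import Mathlib
import Pool.Agent.H395.Exo.Irr
import Pool.Agent.H395.Exo.Imag

/-!
# Criteria for the irreducibility of the functions with sum zero on the embeddings over `k`
-/

set_option autoImplicit false
set_option linter.unusedSectionVars false
set_option linter.unusedVariables false

namespace Pool.Agent.H395.Exo

open NumberField Module Pool.Agent.W527 Pool.Agent.H204R3.CM Pool.Agent.TH127.SC

noncomputable section

section one

variable {k : Type} [Field k] (κ : k →+* ℂ) {E : Type} [Field E] [NumberField E] (θ : k →+* E)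

/-- The embeddings over `k`. -/
abbrev Over : Type := {χ : E →+* ℂ // χ.comp θ = κ}

instance : Fintype (Over κ θ) := by
  classical
  exact inferInstanceAs (Fintype {χ : E →+* ℂ // χ.comp θ = κ})

/-- The permutations of the embeddings over `k` given by the automorphisms over `k`. -/
def permOver : Subgroup (Equiv.Perm (Over κ θ)) where
  carrier := {τ | ∃ σ : ℂ ≃+* ℂ, (∀ x, σ (κ x) = κ x) ∧
    ∀ x, (τ x : E →+* ℂ) = (σ : ℂ →+* ℂ).comp (x : E →+* ℂ)}
  mul_mem' := by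
    rintro τ τ' ⟨σ, h1, h2⟩ ⟨σ', h1', h2'⟩
    refine ⟨σ * σ', fun x => ?_, fun x => ?_⟩
    · change σ (σ' (κ x)) = κ x
      rw [h1', h1]
    · rw [Equiv.Perm.mul_apply, h2, h2']
      rfl
  one_mem' := ⟨1, fun x => rfl, fun x => rfl⟩
  inv_mem' := by
    rintro τ ⟨σ, h1, h2⟩
    refine ⟨σ⁻¹, fun x => ?_, fun x => ?_⟩
    · apply σ.injective
      rw [h1]
      exact σ.apply_symm_apply _
    · have h3 := h2 (τ⁻¹ x)
      have h4 : τ (τ⁻¹ x) = x := τ.apply_symm_apply x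
      rw [h4] at h3
      rw [h3]
      ext y
      exact (σ.symm_apply_apply _).symm

/-- The permutation given by an automorphism. -/
def permOf (σ : ℂ ≃+* ℂ) (hσ : ∀ x, σ (κ x) = κ x) : Equiv.Perm (Over κ θ) where
  toFun χ := ⟨(σ : ℂ →+* ℂ).comp χ.1, by
    ext x
    have h2 : χ.1 (θ x) = κ x := RingHom.congr_fun χ.2 x
    change σ (χ.1 (θ x)) = κ x
    rw [h2, hσ]⟩
  invFun χ := ⟨(σ.symm : ℂ →+* ℂ).comp χ.1, by
    ext x
    have h2 : χ.1 (θ x) = κ x := RingHom.congr_fun χ.2 x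
    change σ.symm (χ.1 (θ x)) = κ x
    rw [h2]
    apply σ.injective
    rw [σ.apply_symm_apply, hσ]⟩
  left_inv χ := Subtype.ext (RingHom.ext fun x => σ.symm_apply_apply _)
  right_inv χ := Subtype.ext (RingHom.ext fun x => σ.apply_symm_apply _)

theorem permOf_mem (σ : ℂ ≃+* ℂ) (hσ : ∀ x, σ (κ x) = κ x) : permOf κ θ σ hσ ∈ permOver κ θ :=
  ⟨σ, hσ, fun x => rfl⟩

theorem sum_over (f : (E →+* ℂ) → ℚ) (hf : ∀ χ, χ.comp θ ≠ κ → f χ = 0) :
    ∑ x : Over κ θ, f x.1 = ∑ χ, f χ := by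
  classical
  rw [← Finset.sum_subtype (Finset.univ.filter fun χ : E →+* ℂ => χ.comp θ = κ)
    (p := fun χ : E →+* ℂ => χ.comp θ = κ) (fun x => by simp) f]
  exact Finset.sum_filter_of_ne fun χ _ hne => by
    by_contra hcon
    exact hne (hf χ hcon)

theorem sumZero_of_sub (h : ∀ V : Submodule ℚ (Over κ θ → ℚ), (∀ c ∈ V, ∑ x, c x = 0) →
    (∀ τ ∈ permOver κ θ, ∀ c ∈ V, (fun x => c (τ x)) ∈ V) →
      V = ⊥ ∨ ∀ c : Over κ θ → ℚ, ∑ x, c x = 0 → c ∈ V) : SumZeroIrreducible κ θ := by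
  classical
  intro V hV hst
  let R : ((E →+* ℂ) → ℚ) →ₗ[ℚ] (Over κ θ → ℚ) := LinearMap.funLeft ℚ ℚ Subtype.val
  have hR : ∀ f x, R f x = f x.1 := fun f x => rfl
  have hA : ∀ c ∈ V.map R, ∑ x, c x = 0 := by
    rintro c ⟨f, hf, rfl⟩
    rw [← (hV f hf).2, ← sum_over κ θ f (hV f hf).1]
    rfl
  have hB : ∀ τ ∈ permOver κ θ, ∀ c ∈ V.map R, (fun x => c (τ x)) ∈ V.map R := by
    rintro τ ⟨σ, hσ, hτ⟩ c ⟨f, hf, rfl⟩
    refine ⟨_, hst σ hσ f hf, ?_⟩
    funext x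
    rw [hR]
    change f _ = f _
    rw [hτ]
  rcases h (V.map R) hA hB with h1 | h1
  · left
    rw [eq_bot_iff]
    intro c hc
    rw [Submodule.mem_bot]
    have h2 : R c = 0 := by
      rw [← Submodule.mem_bot ℚ, ← h1]
      exact Submodule.mem_map_of_mem hc
    funext χ
    by_cases hχ : χ.comp θ = κ
    · exact congrFun h2 ⟨χ, hχ⟩
    · exact (hV c hc).1 χ hχ
  · right
    intro c hc1 hc2
    obtain ⟨f, hf, hfc⟩ := h1 (R c) (by
      rw [← hc2, ← sum_over κ θ c hc1]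
      rfl)
    have h2 : f = c := by
      funext χ
      by_cases hχ : χ.comp θ = κ
      · exact congrFun hfc ⟨χ, hχ⟩
      · rw [hc1 χ hχ, (hV f hf).1 χ hχ]
    rwa [h2] at hf

/-- The irreducibility if the automorphisms over `k` are doubly transitive on the embeddings over
`k`. -/
theorem sumZero_of_double (h2 : ∀ φ₁ φ₂ ψ₁ ψ₂ : E →+* ℂ, φ₁.comp θ = κ → φ₂.comp θ = κ →
    ψ₁.comp θ = κ → ψ₂.comp θ = κ → φ₁ ≠ φ₂ → ψ₁ ≠ ψ₂ → ∃ σ : ℂ ≃+* ℂ, (∀ x, σ (κ x) = κ x) ∧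
      (σ : ℂ →+* ℂ).comp φ₁ = ψ₁ ∧ (σ : ℂ →+* ℂ).comp φ₂ = ψ₂) : SumZeroIrreducible κ θ := by
  classical
  refine sumZero_of_sub κ θ fun V hV hst => irr_of_double (permOver κ θ) ?_ V hV hst
  intro x y x' y' hxy hxy'
  obtain ⟨σ, h3, h4, h5⟩ := h2 x.1 y.1 x'.1 y'.1 x.2 y.2 x'.2 y'.2
    (fun h => hxy (Subtype.ext h)) (fun h => hxy' (Subtype.ext h))
  exact ⟨permOf κ θ σ h3, permOf_mem κ θ σ h3, Subtype.ext h4, Subtype.ext h5⟩

/-- Two embeddings are conjugate. -/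
theorem exists_aut (φ ψ : E →+* ℂ) : ∃ σ : ℂ ≃+* ℂ, (σ : ℂ →+* ℂ).comp φ = ψ := by
  obtain ⟨L, _, _, j, h⟩ := exists_galois (fun _ : Unit => E)
  obtain ⟨φ', rfl⟩ := h () φ
  obtain ⟨ψ', rfl⟩ := h () ψ
  obtain ⟨g, hg⟩ := MulAction.exists_smul_eq (L ≃ₐ[ℚ] L) φ' ψ'
  obtain ⟨σ, hσ⟩ := exists_lift' j g
  refine ⟨σ, ?_⟩
  rw [lifts_comp j hσ, hg]

theorem exists_aut_over (φ ψ : E →+* ℂ) (hφ : φ.comp θ = κ) (hψ : ψ.comp θ = κ) :
    ∃ σ : ℂ ≃+* ℂ, (∀ x, σ (κ x) = κ x) ∧ (σ : ℂ →+* ℂ).comp φ = ψ := by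
  obtain ⟨σ, hσ⟩ := exists_aut φ ψ
  refine ⟨σ, fun x => ?_, hσ⟩
  have h1 : φ (θ x) = κ x := RingHom.congr_fun hφ x
  have h2 : ψ (θ x) = κ x := RingHom.congr_fun hψ x
  rw [← h1]
  have h3 : σ (φ (θ x)) = ψ (θ x) := RingHom.congr_fun hσ (θ x)
  rw [h3, h2, h1]

theorem card_over [NumberField k] [IsCMField k] (hk : finrank ℚ k = 2) :
    2 * Fintype.card (Over κ θ) = finrank ℚ E := by
  classical
  rw [← NumberField.Embeddings.card E ℂ]
  have h1 : Fintype.card (E →+* ℂ) = Fintype.card (Over κ θ ⊕ Over κ θ) := by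
    refine Fintype.card_congr (Equiv.ofBijective (fun χ : E →+* ℂ =>
      if h : χ.comp θ = κ then (Sum.inl ⟨χ, h⟩ : Over κ θ ⊕ Over κ θ) else
        Sum.inr ⟨ComplexEmbedding.conjugate χ, ?_⟩) ⟨?_, ?_⟩)
    · have h2 : (ComplexEmbedding.conjugate χ).comp θ = ComplexEmbedding.conjugate (χ.comp θ) := rfl
      rw [h2, (emb_quad hk κ (χ.comp θ)).resolve_left h, ComplexEmbedding.involutive_conjugate k κ]
    · intro χ χ' h2
      dsimp only at h2
      split_ifs at h2 with h3 h4 h4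
      · exact congrArg Subtype.val (Sum.inl.inj h2)
      · have h5 := congrArg Subtype.val (Sum.inr.inj h2)
        exact (ComplexEmbedding.involutive_conjugate E).injective h5
    · rintro (⟨χ, hχ⟩ | ⟨χ, hχ⟩)
      · exact ⟨χ, dif_pos hχ⟩
      · refine ⟨ComplexEmbedding.conjugate χ, ?_⟩
        have h3 : ¬ (ComplexEmbedding.conjugate χ).comp θ = κ := by
          intro h4
          have h5 : (ComplexEmbedding.conjugate χ).comp θ =
              ComplexEmbedding.conjugate (χ.comp θ) := rfl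
          rw [h5, hχ] at h4
          exact conj_ne_self κ h4
        dsimp only
        rw [dif_neg h3]
        congr 1
        exact Subtype.ext (ComplexEmbedding.involutive_conjugate E χ)
  rw [h1, Fintype.card_sum]
  ring

/-- The irreducibility if the degree over `k` is a prime number. -/
theorem sumZero_of_prime [NumberField k] [IsCMField k] (hk : finrank ℚ k = 2) {r : ℕ}
    (hr : r.Prime) (hE : finrank ℚ E = 2 * r) : SumZeroIrreducible κ θ := by
  classical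
  have h1 := card_over κ θ hk
  have h2 : Fintype.card (Over κ θ) = r := by omega
  refine sumZero_of_sub κ θ fun V hV hst => irr_of_prime (by rw [h2]; exact hr) (permOver κ θ) ?_
    V hV hst
  intro x y
  obtain ⟨σ, h3, h4⟩ := exists_aut_over κ θ x.1 y.1 x.2 y.2
  exact ⟨permOf κ θ σ h3, permOf_mem κ θ σ h3, Subtype.ext h4⟩

end one

end

end Pool.Agent.H395.Exo
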