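import Mathlib
import Pool.Graph.R_pool_sql_team_seeded_3997aac3.Q29.HT.Defs
import Pool.Graph.R_pool_sql_team_seeded_3997aac3.Q29.NH.Defs
import Pool.Graph.R_pool_sql_team_seeded_1acbe0a2.Y156.P.AbsDefs
import Pool.Graph.R_pool_sql_team_seeded_63374d34.N202.QR.Defs

/-!
# The standard conjecture of Hodge type, modulo numerical and homological equivalence, for the
varieties which specialize to abelian varieties with given Weil numbers: definitions
-/

set_option autoImplicit false

namespace Pool.Agent.H395.Exo

open NumberField Pool.Agent.TH170 Pool.Agent.H204R3.CM Pool.Agent.W547.KB Pool.Agent.W547.HR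
  Pool.Agent.W495.TA Pool.Agent.W495.FM Pool.Agent.TH117.PO Pool.Agent.Y137.HD Module
  Pool.Agent.Q29.HT Pool.Agent.Y156.P Pool.Agent.N202.QR

universe u

/-- The standard conjecture of Hodge type, modulo numerical equivalence, for the ring `A` of
algebraic cycles modulo homological equivalence and the divisor `D`: for `2 j + m = n` and every
primitive `a` of codimension `j`, `D ^ (m + 1) * a = 0`, which is not numerically equivalent to zero,
the number `(-1) ^ j * deg (a * a * D ^ m)` is positive. -/
def HodgeNumPositive {A : Type u} [CommRing A] [Algebra ℚ A] (n : ℕ) (gr : ℕ → Submodule ℚ A)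
    (deg : A →ₗ[ℚ] ℚ) (D : A) : Prop :=
  ∀ j m : ℕ, 2 * j + m = n → ∀ a ∈ gr j, D ^ (m + 1) * a = 0 →
    (∃ b ∈ gr (n - j), deg (a * b) ≠ 0) → 0 < (-1 : ℚ) ^ j * deg (a * (a * D ^ m))

/-- Each simple factor of the abelian variety `Y` over a finite field is supersingular, or some
positive power of its Frobenius endomorphism is the image of a positive power of one of the numbers
`π i` under an embedding of the field `K i` in the CM field of the factor, which is an isomorphism
if `i` is in `J`. In other words `Y` is, over an algebraic closure, isogenous to the product of a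
supersingular abelian variety and of powers of the abelian varieties with the Weil numbers `π i`,
and the algebras of endomorphisms of those with `i` in `J` are commutative. -/
def OfNumbersOn {p : ℕ} [Fact p.Prime] {ν : PadicAlgCl p ≃+* ℂ} {I : Type} {K : I → Type}
    [∀ i, Field (K i)] (J : Set I) (π : ∀ i, K i) (Y : RedAV p ν) : Prop :=
  ∀ k : Y.X.I, GS.IsSupersingular p Y.a (Y.π k) ∨
    ∃ (i : I) (θ : K i →+* (Y.X.factor k).E) (m s : ℕ), (i ∈ J → Function.Surjective θ) ∧
      0 < m ∧ 0 < s ∧ θ (π i ^ m) = Y.π k ^ s

/-- The standard conjecture of Hodge type, modulo numerical equivalence, for all abelian varieties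
`Y` over an algebraic closure of the field with `p` elements which are isogenous to products of
powers of the abelian varieties with the Weil numbers `π i` and of supersingular ones
(`OfNumbersOn`), and for **all** varieties over arbitrary fields of characteristic `p` which
specialize to them: here `A` is the ring of algebraic cycles modulo homological equivalence on such
a variety, of dimension `n`, with the ample divisor `D` which specializes to the polarization given
by `α`. The set `C` of families of rational classes of algebraic cycles on the varieties `Y` has the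
properties in `IsCompatible`, `IsRosatiPositive` and `AreTate`, all of which are known theorems. -/
def NumPositiveForNumbers {p : ℕ} [Fact p.Prime] (ν : PadicAlgCl p ≃+* ℂ) {I : Type}
    {K : I → Type} [∀ i, Field (K i)] (J : Set I) (π : ∀ i, K i) : Prop :=
  ∀ (Ω : Nat.Primes → Type) [∀ l, Field (Ω l)] [∀ l, CharZero (Ω l)]
    [∀ l : Nat.Primes, Algebra ℚ_[(l : ℕ)] (Ω l)] [∀ l, IsAlgClosed (Ω l)]
    (C : (Y : RedAV p ν) → (κ : Type) → FCl Ω Y κ → Prop), IsCompatible Ω C →
    ∀ l : Nat.Primes, IsRosatiPositive (Ω l) (atPrime C l) → AreTate (Ω l) (atPrime C l) →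
      ∀ Y : RedAV p ν, OfNumbersOn J π Y → ∀ α : Y.X.H1, IsPolar Y.X α →
        (∀ r m : ℕ, 2 * (2 * r + m) = finrank ℚ Y.X.H1 →
          ∀ z : (TM (Ω l) Y) [⋀^Fin r × Fin 2]→ₗ[Ω l] Ω l, atPrime C l Y (Fin r × Fin 2) z →
            ¬ IsNumTrivial (Ω l) (atPrime C l) z → IsPrim α m z → IsPosClass α m z) ∧
        ∀ (A : Type) [CommRing A] [Algebra ℚ A] (n : ℕ) (gr : ℕ → Submodule ℚ A)
          (deg : A →ₗ[ℚ] ℚ) (D : A) (sp : ∀ r : ℕ, A → Form (Ω l) Y r),
          Specializes (atPrime C l) n gr D Y α sp → IsCycleRing n gr deg D →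
            HodgeNumPositive n gr deg D

/-- The standard conjecture of Hodge type for `l`-adic cohomology, `l` in the set `S` of prime
numbers, and the coincidence of numerical and `l`-adic homological equivalence, for the same abelian
varieties `Y` and **all** varieties which specialize to them: here `A` is the ring of algebraic cycles
modulo `l`-adic homological equivalence on such a variety (`HodgePositive`; for the coincidence of the
two equivalence relations we assume the conjecture `A` of Lefschetz type, `LefschetzA`, a theorem for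
abelian varieties). -/
def HomPositiveForNumbers {p : ℕ} [Fact p.Prime] (ν : PadicAlgCl p ≃+* ℂ) (S : Set Nat.Primes)
    {I : Type} {K : I → Type} [∀ i, Field (K i)] (J : Set I) (π : ∀ i, K i) : Prop :=
  ∀ (Ω : Nat.Primes → Type) [∀ l, Field (Ω l)] [∀ l, CharZero (Ω l)]
    [∀ l : Nat.Primes, Algebra ℚ_[(l : ℕ)] (Ω l)] [∀ l, IsAlgClosed (Ω l)]
    (C : (Y : RedAV p ν) → (κ : Type) → FCl Ω Y κ → Prop), IsCompatible Ω C →
    ∀ l ∈ S, IsRosatiPositive (Ω l) (atPrime C l) → AreTate (Ω l) (atPrime C l) →
      ∀ Y : RedAV p ν, OfNumbersOn J π Y → ∀ α : Y.X.H1, IsPolar Y.X α →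
        (∀ r m : ℕ, 2 * (2 * r + m) = finrank ℚ Y.X.H1 →
          ∀ z : (TM (Ω l) Y) [⋀^Fin r × Fin 2]→ₗ[Ω l] Ω l, atPrime C l Y (Fin r × Fin 2) z →
            z ≠ 0 → IsPrim α m z → IsPosClass α m z) ∧
        ∀ (A : Type) [CommRing A] [Algebra ℚ A] (n : ℕ) (gr : ℕ → Submodule ℚ A)
          (deg : A →ₗ[ℚ] ℚ) (D : A) (sp : ∀ r : ℕ, A → Form (Ω l) Y r),
          Specializes (atPrime C l) n gr D Y α sp → IsCycleRing n gr deg D →
            HodgePositive n gr deg D ∧ (LefschetzA n gr D → NumEqHom n gr deg)

end Pool.Agent.H395.Exo
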