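import Mathlib

/-!
# Functions with sum zero and a dominating value
-/

set_option autoImplicit false
set_option linter.unusedSectionVars false
set_option linter.unusedVariables false

namespace Pool.Agent.H395.Exo

/-- A function with sum zero vanishes if it is orthogonal to the translates of a function one value
of which dominates the others. -/
theorem dom_zero {X : Type} [Fintype X] [DecidableEq X] {f q : X → ℚ} {t : ℚ} {z : X}
    (hf : ∑ x, f x = 0)
    (hdom : ∑ w with w ≠ z, |q w - t| < |q z - t| ∨ ∃ l : ℕ, l.Prime ∧ q z ≠ t ∧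
      ∀ w, w ≠ z → padicNorm l (q w - t) < padicNorm l (q z - t))
    (hrel : ∀ x : X, ∃ ρ : Equiv.Perm X, ρ x = z ∧ ∑ y, f y * q (ρ y) = 0) (x : X) : f x = 0 := by
  classical
  by_contra hx
  have hne : Nonempty X := ⟨x⟩
  have hrel' : ∀ x : X, ∃ ρ : Equiv.Perm X, ρ x = z ∧
      f x * (q z - t) = - ∑ y with y ≠ x, f y * (q (ρ y) - t) := by
    intro x
    obtain ⟨ρ, h1, h2⟩ := hrel x
    refine ⟨ρ, h1, ?_⟩
    have h3 : ∑ y, f y * (q (ρ y) - t) = 0 := by
      simp only [mul_sub, Finset.sum_sub_distrib, ← Finset.sum_mul, h2, hf]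
      ring
    rw [← Finset.add_sum_erase _ _ (Finset.mem_univ x), h1] at h3
    have h4 : (Finset.univ.erase x) = Finset.univ.filter fun y => y ≠ x := by
      ext y
      simp
    rw [h4] at h3
    linarith
  rcases hdom with hdom | ⟨l, hl, hz, hdom⟩
  · obtain ⟨x₀, hx₀⟩ := Finite.exists_max fun y => |f y|
    have hpos : 0 < |f x₀| := lt_of_lt_of_le (abs_pos.2 hx) (hx₀ x)
    obtain ⟨ρ, h1, h2⟩ := hrel' x₀
    have h3 : |f x₀| * |q z - t| ≤ |f x₀| * ∑ w with w ≠ z, |q w - t| := by
      rw [← abs_mul, h2, abs_neg]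
      refine (Finset.abs_sum_le_sum_abs _ _).trans ?_
      rw [Finset.mul_sum]
      have h4 : ∑ w with w ≠ z, |f x₀| * |q w - t| =
          ∑ y with y ≠ x₀, |f x₀| * |q (ρ y) - t| := by
        symm
        refine Finset.sum_nbij' (fun y => ρ y) (fun w => ρ.symm w) ?_ ?_ ?_ ?_ ?_
        · intro y hy
          refine Finset.mem_filter.2 ⟨Finset.mem_univ _, fun h5 => ?_⟩
          rw [← h1] at h5
          exact (Finset.mem_filter.1 hy).2 (ρ.injective h5)
        · intro w hw
          refine Finset.mem_filter.2 ⟨Finset.mem_univ _, fun h5 => ?_⟩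
          apply (Finset.mem_filter.1 hw).2
          rw [← h1, ← h5, ρ.apply_symm_apply]
        · intro y _
          exact ρ.symm_apply_apply y
        · intro w _
          exact ρ.apply_symm_apply w
        · intro y _
          rfl
      rw [h4]
      refine Finset.sum_le_sum fun y _ => ?_
      rw [abs_mul]
      exact mul_le_mul_of_nonneg_right (hx₀ y) (abs_nonneg _)
    have h4 := le_of_mul_le_mul_left h3 hpos
    linarith
  · have : Fact l.Prime := ⟨hl⟩
    obtain ⟨x₀, hx₀⟩ := Finite.exists_max fun y => padicNorm l (f y)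
    have hpos : 0 < padicNorm l (f x₀) := by
      refine lt_of_lt_of_le ?_ (hx₀ x)
      exact lt_of_le_of_ne (padicNorm.nonneg _) (Ne.symm (padicNorm.nonzero hx))
    obtain ⟨ρ, h1, h2⟩ := hrel' x₀
    have hzpos : 0 < padicNorm l (q z - t) :=
      lt_of_le_of_ne (padicNorm.nonneg _) (Ne.symm (padicNorm.nonzero (sub_ne_zero.2 hz)))
    have h3 : padicNorm l (∑ y with y ≠ x₀, f y * (q (ρ y) - t)) <
        padicNorm l (f x₀) * padicNorm l (q z - t) := by
      refine padicNorm.sum_lt' (fun y hy => ?_) (mul_pos hpos hzpos)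
      rw [padicNorm.mul]
      have h4 : ρ y ≠ z := by
        intro h5
        rw [← h1] at h5
        exact (Finset.mem_filter.1 hy).2 (ρ.injective h5)
      exact lt_of_le_of_lt (mul_le_mul_of_nonneg_right (hx₀ y) (padicNorm.nonneg _))
        (mul_lt_mul_of_pos_left (hdom _ h4) hpos)
    rw [← padicNorm.mul, h2, padicNorm.neg] at h3
    exact lt_irrefl _ h3

end Pool.Agent.H395.Exo
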