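import Mathlib
import Pool.Agent.H395.Exo.Defs
import Pool.Agent.H395.Exo.IrrCrit
import Pool.Agent.H395.Exo.DomOver

/-!
# The relations are constant on the embeddings of a field of quadratic type over `k`
-/

set_option autoImplicit false
set_option linter.unusedSectionVars false
set_option linter.unusedVariables false

namespace Pool.Agent.H395.Exo

open NumberField Module Pool.Agent.W527 Pool.Agent.H204R3.CM Pool.Agent.H977R3.WN
  Pool.Agent.H485R3.Exact Pool.Agent.TH127.SC Pool.Agent.Y137.MV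

noncomputable section

section main

variable {p : ℕ} [hp : Fact p.Prime] {I : Type} [Fintype I] {K : I → Type} [∀ i, Field (K i)]
  [∀ i, NumberField (K i)] [∀ i, IsCMField (K i)] {m : I → ℕ} {π : ∀ i, K i}
  {k : Type} [Field k] [NumberField k] [IsCMField k] (hk : finrank ℚ k = 2) (κ : k →+* ℂ)

include hk in
/-- A relation which vanishes outside `J` is constant on the embeddings over `k` of the fields
`K i`, `i` in `J`. -/
theorem const_at_quad {J : Set I} {θ : ∀ i, i ∈ J → (k →+* K i)} (i₀ : I) (hi₀ : i₀ ∈ J)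
    (hpow : PowersGenerate π) (hov : SumZeroIrreducible κ (θ i₀ hi₀) ∨ DominatedOver p κ (π i₀) (θ i₀ hi₀))
    (hal : MovesAlone κ J i₀ (θ i₀ hi₀))
    (hint : ∀ i, IsIntegral ℤ (π i))
    (hweil : ∀ i, ∀ φ : K i →+* ℂ, ‖φ (π i)‖ ^ 2 = (p : ℝ) ^ m i)
    {q : I → ℚ} (hq : ∀ i, 0 < q i) {u : ∀ i, (K i →+* PadicAlgCl p) → ℤ}
    (hu : ∀ i, ∀ τ : K i →+* PadicAlgCl p,
      2 * (- Real.logb p ‖τ (π i)‖) - m i = (q i : ℝ) * u i τ)
    {L : Type} [Field L] [NumberField L] [IsGalois ℚ L] (j : L →+* ℂ)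
    (h : ∀ i, ∀ ψ : K i →+* ℂ, ∃ φ : K i →+* L, j.comp φ = ψ) (jp : L →+* PadicAlgCl p)
    (c : ∀ i, (K i →+* L) → ℤ) (hc : ∀ i φ, c i (cbar φ) = - c i φ)
    (hrel : ∀ g : L ≃ₐ[ℚ] L, ∑ i, ∑ φ, c i φ * u i (jp.comp (g • φ)) = 0)
    (hJ : ∀ i, i ∉ J → ∀ φ, c i φ = 0) (φ ψ : K i₀ →+* L)
    (hφ : (j.comp φ).comp (θ i₀ hi₀) = κ) (hψ : (j.comp ψ).comp (θ i₀ hi₀) = κ) :
    c i₀ φ = c i₀ ψ := by
  classical
  by_contra hne
  obtain ⟨σ, hσκ, hσφ, hσ⟩ := hal (j.comp φ) (j.comp ψ) hφ hψ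
  obtain ⟨s, hs⟩ := exists_lift j σ
  have hsφ : s • φ = ψ := comp_injective j (by
    change j.comp (s • φ) = j.comp ψ
    rw [← lifts_comp j hs, hσφ])
  have hsfix : ∀ i ∈ J, i ≠ i₀ → ∀ χ : K i →+* L, s • χ = χ := by
    intro i hi hne' χ
    apply comp_injective j
    change j.comp (s • χ) = j.comp χ
    rw [← lifts_comp j hs, hσ i hi hne']
  have hanti : ∀ i, ∀ φ : K i →+* L, u i (jp.comp (cbar φ)) = - u i (jp.comp φ) :=
    fun i φ => anti_of_slopes' (hweil i) (hq i).ne' (hu i) (jp.comp φ)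
  set t : k →+* K i₀ := θ i₀ hi₀ with ht
  -- the automorphisms over `k`
  have hkeep : ∀ τ : ℂ ≃+* ℂ, (∀ x, τ (κ x) = κ x) → ∀ χ : K i₀ →+* ℂ,
      ((τ : ℂ →+* ℂ).comp χ).comp t = κ ↔ χ.comp t = κ := by
    intro τ hτ χ
    constructor
    · intro h1
      ext x
      apply τ.injective
      rw [hτ]
      exact RingHom.congr_fun h1 x
    · intro h1
      ext x
      have h2 : χ (t x) = κ x := RingHom.congr_fun h1 x
      change τ (χ (t x)) = κ x
      rw [h2, hτ]
  -- the conjugate embeddings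
  have hbar : ∀ χ : K i₀ →+* L, (j.comp (cbar χ)).comp t = κ ↔ ¬ (j.comp χ).comp t = κ := by
    intro χ
    have h1 : (j.comp (cbar χ)).comp t = ComplexEmbedding.conjugate ((j.comp χ).comp t) := by
      rw [comp_cbar]
      rfl
    rw [h1]
    rcases emb_quad hk κ ((j.comp χ).comp t) with h2 | h2
    · rw [h2]
      exact ⟨fun h3 => absurd h3 (conj_ne_self κ), fun h3 => absurd rfl h3⟩
    · rw [h2, ComplexEmbedding.involutive_conjugate k κ]
      exact ⟨fun _ => conj_ne_self κ, fun _ => rfl⟩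
  let e₀ : (K i₀ →+* L) ≃ (K i₀ →+* ℂ) :=
    Equiv.ofBijective (fun χ => j.comp χ) ⟨comp_injective j, h i₀⟩
  have he₀ : ∀ χ, e₀ χ = j.comp χ := fun χ => rfl
  -- the difference of the relation and of its translate
  let c' : (K i₀ →+* L) → ℤ := fun χ => c i₀ (s • χ) - c i₀ χ
  have hc' : ∀ χ, c' (cbar χ) = - c' χ := by
    intro χ
    have h1 : s • cbar χ = cbar (s • χ) := rfl
    simp only [c', h1, hc]
    ring
  have hrel' : ∀ g : L ≃ₐ[ℚ] L, ∑ χ, c' χ * u i₀ (jp.comp (g • χ)) = 0 := by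
    intro g
    have h1 := hrel g
    have h2 : ∑ i, ∑ χ : K i →+* L, c i (s • χ) * u i (jp.comp (g • χ)) = 0 := by
      rw [← hrel (g * s⁻¹)]
      refine Finset.sum_congr rfl fun i _ => ?_
      refine Fintype.sum_equiv (MulAction.toPerm s) _ _ fun χ => ?_
      rw [MulAction.toPerm_apply, mul_smul, inv_smul_smul]
    have h3 : ∑ i, ∑ χ : K i →+* L, (c i (s • χ) - c i χ) * u i (jp.comp (g • χ)) = 0 := by
      simp only [sub_mul, Finset.sum_sub_distrib]
      rw [h1, h2, sub_zero]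
    rw [Finset.sum_eq_single i₀] at h3
    · exact h3
    · intro i _ hi
      by_cases hiJ : i ∈ J
      · refine Finset.sum_eq_zero fun χ _ => ?_
        rw [hsfix i hiJ hi, sub_self, zero_mul]
      · refine Finset.sum_eq_zero fun χ _ => ?_
        rw [hJ i hiJ, hJ i hiJ, sub_self, zero_mul]
    · intro h4
      exact absurd (Finset.mem_univ _) h4
  have hhalf : ∀ g : L ≃ₐ[ℚ] L, ∑ χ : K i₀ →+* L,
      (if (j.comp χ).comp t = κ then c' χ * u i₀ (jp.comp (g • χ)) else 0) = 0 := by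
    intro g
    have h1 : ∑ χ : K i₀ →+* L,
        (if (j.comp χ).comp t = κ then 0 else c' χ * u i₀ (jp.comp (g • χ))) =
        ∑ χ : K i₀ →+* L,
        (if (j.comp χ).comp t = κ then c' χ * u i₀ (jp.comp (g • χ)) else 0) := by
      refine Finset.sum_nbij' cbar cbar (fun _ _ => Finset.mem_univ _)
        (fun _ _ => Finset.mem_univ _) (fun χ _ => cbar_cbar χ) (fun χ _ => cbar_cbar χ)
        (fun χ _ => ?_)
      have h2 : g • cbar χ = cbar (g • χ) := rfl
      by_cases h3 : (j.comp χ).comp t = κ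
      · have h4 : ¬ (j.comp (cbar χ)).comp t = κ := fun h5 => (hbar χ).1 h5 h3
        rw [if_pos h3, if_neg h4]
      · have h4 : (j.comp (cbar χ)).comp t = κ := (hbar χ).2 h3
        rw [if_neg h3, if_pos h4, hc', h2, hanti]
        ring
    have h2 := hrel' g
    have h3 : ∑ χ : K i₀ →+* L, c' χ * u i₀ (jp.comp (g • χ)) =
        ∑ χ : K i₀ →+* L,
        (if (j.comp χ).comp t = κ then c' χ * u i₀ (jp.comp (g • χ)) else 0) +
        ∑ χ : K i₀ →+* L,
        (if (j.comp χ).comp t = κ then 0 else c' χ * u i₀ (jp.comp (g • χ))) := by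
      rw [← Finset.sum_add_distrib]
      refine Finset.sum_congr rfl fun χ _ => ?_
      split_ifs <;> ring
    rw [h3, h1] at h2
    omega
  -- the submodule of relations
  let V : Submodule ℚ ((K i₀ →+* ℂ) → ℚ) :=
    { carrier := {f | (∀ χ : K i₀ →+* ℂ, χ.comp t ≠ κ → f χ = 0) ∧ ∑ χ, f χ = 0 ∧
        ∀ g : L ≃ₐ[ℚ] L, ∑ χ : K i₀ →+* L, f (j.comp χ) * (u i₀ (jp.comp (g • χ)) : ℚ) = 0}
      add_mem' := by
        rintro f f' ⟨h1, h2, h3⟩ ⟨h1', h2', h3'⟩
        refine ⟨fun χ hχ => ?_, ?_, fun g => ?_⟩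
        · rw [Pi.add_apply, h1 χ hχ, h1' χ hχ, add_zero]
        · simp only [Pi.add_apply, Finset.sum_add_distrib]
          rw [h2, h2', add_zero]
        · simp only [Pi.add_apply, add_mul, Finset.sum_add_distrib]
          rw [h3, h3', add_zero]
      zero_mem' := by
        refine ⟨fun _ _ => rfl, ?_, fun g => ?_⟩
        · simp
        · simp
      smul_mem' := by
        rintro r f ⟨h1, h2, h3⟩
        refine ⟨fun χ hχ => ?_, ?_, fun g => ?_⟩
        · rw [Pi.smul_apply, h1 χ hχ, smul_zero]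
        · simp only [Pi.smul_apply, smul_eq_mul, ← Finset.mul_sum]
          rw [h2, mul_zero]
        · simp only [Pi.smul_apply, smul_eq_mul, mul_assoc, ← Finset.mul_sum]
          rw [h3, mul_zero] }
  have hV : ∀ f, f ∈ V ↔ (∀ χ : K i₀ →+* ℂ, χ.comp t ≠ κ → f χ = 0) ∧ ∑ χ, f χ = 0 ∧
      ∀ g : L ≃ₐ[ℚ] L, ∑ χ : K i₀ →+* L, f (j.comp χ) * (u i₀ (jp.comp (g • χ)) : ℚ) = 0 :=
    fun f => Iff.rfl
  have hstable : ∀ τ : ℂ ≃+* ℂ, (∀ x, τ (κ x) = κ x) → ∀ f ∈ V,
      (fun χ => f ((τ : ℂ →+* ℂ).comp χ)) ∈ V := by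
    intro τ hτ f hf
    obtain ⟨h1, h2, h3⟩ := (hV f).1 hf
    obtain ⟨g₁, hg₁⟩ := exists_lift j τ
    refine (hV _).2 ⟨fun χ hχ => h1 _ fun h4 => hχ ((hkeep τ hτ χ).1 h4), ?_, fun g => ?_⟩
    · rw [← h2]
      refine Fintype.sum_bijective (fun χ : K i₀ →+* ℂ => (τ : ℂ →+* ℂ).comp χ) ⟨?_, ?_⟩ _ _
        fun χ => rfl
      · intro χ χ' h4
        ext x
        exact τ.injective (RingHom.congr_fun h4 x)
      · intro χ
        refine ⟨(τ.symm : ℂ →+* ℂ).comp χ, ?_⟩
        ext x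
        exact τ.apply_symm_apply _
    · rw [← h3 (g * g₁⁻¹)]
      refine Fintype.sum_equiv (MulAction.toPerm g₁) _ _ fun χ => ?_
      rw [MulAction.toPerm_apply, mul_smul, inv_smul_smul, lifts_comp j hg₁]
  have hsB : ∀ χ : K i₀ →+* L, (j.comp (s • χ)).comp t = κ ↔ (j.comp χ).comp t = κ := by
    intro χ
    rw [← lifts_comp j hs]
    exact hkeep σ hσκ _
  let f₀ : (K i₀ →+* ℂ) → ℚ := fun χ => if χ.comp t = κ then ((c' (e₀.symm χ) : ℤ) : ℚ) else 0
  have hf₀ : ∀ χ : K i₀ →+* L, f₀ (j.comp χ) = if (j.comp χ).comp t = κ then (c' χ : ℚ) else 0 := by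
    intro χ
    have h1 : e₀.symm (j.comp χ) = χ := by rw [← he₀, e₀.symm_apply_apply]
    simp only [f₀, h1]
  have hf₀V : f₀ ∈ V := by
    refine (hV _).2 ⟨fun χ hχ => if_neg hχ, ?_, fun g => ?_⟩
    · rw [← Equiv.sum_comp e₀]
      have h1 : ∀ χ, f₀ (e₀ χ) = (if (j.comp (s • χ)).comp t = κ then (c i₀ (s • χ) : ℚ) else 0) -
          (if (j.comp χ).comp t = κ then (c i₀ χ : ℚ) else 0) := by
        intro χ
        rw [he₀, hf₀]
        simp only [hsB]
        split_ifs
        · simp only [c']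
          push_cast
          ring
        · ring
      rw [Finset.sum_congr rfl fun χ _ => h1 χ, Finset.sum_sub_distrib, sub_eq_zero]
      exact Fintype.sum_equiv (MulAction.toPerm s) _ _ fun χ => rfl
    · have h1 := hhalf g
      have h2 : (((∑ χ : K i₀ →+* L,
          (if (j.comp χ).comp t = κ then c' χ * u i₀ (jp.comp (g • χ)) else 0) : ℤ)) : ℚ) = 0 := by
        rw [h1, Int.cast_zero]
      rw [← h2, Int.cast_sum]
      refine Finset.sum_congr rfl fun χ _ => ?_
      rw [hf₀]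
      split_ifs
      · push_cast
        ring
      · push_cast
        ring
  have hval : f₀ (j.comp φ) ≠ 0 := by
    rw [hf₀, if_pos hφ]
    simp only [c', hsφ]
    have h1 : c i₀ ψ - c i₀ φ ≠ 0 := fun h2 => hne (by omega)
    exact_mod_cast h1
  rcases hov with hirr | hdom
  · rcases hirr V (fun f hf => ⟨hf.1, hf.2.1⟩) hstable with h1 | h1
    · rw [h1, Submodule.mem_bot] at hf₀V
      exact hval (by rw [hf₀V]; rfl)
    · have hφψ : j.comp φ ≠ j.comp ψ := fun h2 => hne (by rw [comp_injective j h2])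
      have h2 := h1 (Pi.single (j.comp φ) 1 - Pi.single (j.comp ψ) 1) (fun χ hχ => by
        rw [Pi.sub_apply, Pi.single_eq_of_ne, Pi.single_eq_of_ne, sub_zero]
        · intro h3
          subst h3
          exact hχ hψ
        · intro h3
          subst h3
          exact hχ hφ) (by
        simp only [Pi.sub_apply, Finset.sum_sub_distrib, Finset.sum_pi_single', Finset.mem_univ,
          if_true, sub_self])
      have h3 : φ = ψ := by
        refine eq_of_slopes_at (hint i₀) (hweil i₀) (hpow i₀) (hq i₀) (hu i₀) jp φ ψ fun g => ?_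
        have h4 := ((hV _).1 h2).2.2 g
        have h5 : ∀ χ : K i₀ →+* L, (Pi.single (j.comp φ) 1 - Pi.single (j.comp ψ) 1 :
            (K i₀ →+* ℂ) → ℚ) (j.comp χ) = (if χ = φ then 1 else 0) - (if χ = ψ then 1 else 0) := by
          intro χ
          have h6 : ∀ χ' : K i₀ →+* L, (Pi.single (j.comp χ') 1 : (K i₀ →+* ℂ) → ℚ) (j.comp χ) =
              if χ = χ' then 1 else 0 := by
            intro χ'
            by_cases h7 : χ = χ'
            · subst h7
              rw [Pi.single_eq_same, if_pos rfl]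
            · rw [Pi.single_eq_of_ne (fun h8 => h7 (comp_injective j h8)), if_neg h7]
          rw [Pi.sub_apply, h6, h6]
        rw [Finset.sum_congr rfl fun χ _ => by rw [h5 χ]] at h4
        simp only [sub_mul, Finset.sum_sub_distrib, ite_mul, one_mul, zero_mul,
          Finset.sum_ite_eq', Finset.mem_univ, if_true] at h4
        exact_mod_cast sub_eq_zero.1 h4
      exact hne (by rw [h3])
  · obtain ⟨ν, s', t₀, z, hs', hz, hdom⟩ := hdom
    let ecomp : L →+* PadicAlgCl p := (ν.symm : ℂ →+* PadicAlgCl p).comp j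
    let ealg : L →ₐ[ℚ] PadicAlgCl p := (jp : L →+* PadicAlgCl p).toRatAlgHom
    obtain ⟨g₀, hg₀⟩ := Pool.Agent.H485R3.exists_gal ealg
      (ecomp : L →+* PadicAlgCl p).toRatAlgHom
    have hg₀' : ∀ x, ν.symm (j x) = jp (g₀ x) := hg₀
    have hslope : ∀ χ : K i₀ →+* L, 2 * s' (j.comp χ) - m i₀ =
        q i₀ * u i₀ (jp.comp (g₀ • χ)) := by
      intro χ
      have h5 := hu i₀ (jp.comp (g₀ • χ))
      have h6 := hs' (j.comp χ)
      have h7 : ((2 * s' (j.comp χ) - m i₀ : ℚ) : ℝ) =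
          ((q i₀ * u i₀ (jp.comp (g₀ • χ)) : ℚ) : ℝ) := by
        push_cast
        rw [← h5, h6]
        change 2 * (- Real.logb p ‖ν.symm (j (χ (π i₀)))‖) - m i₀ = _
        rw [hg₀']
        rfl
      exact_mod_cast h7
    have hsum := ((hV _).1 hf₀V).2.1
    have hall := dom_zero (X := Over κ t) (f := fun χ => f₀ χ.1) (q := fun χ => s' χ.1) (t := t₀)
      (z := ⟨z, hz⟩) (by
        rw [sum_over κ t f₀ fun χ hχ => if_neg hχ]
        exact hsum) (by
        rcases hdom with hdom | ⟨l, hl, hz0, hdom⟩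
        · left
          refine lt_of_eq_of_lt ?_ hdom
          refine Finset.sum_bij (fun χ _ => χ.1) ?_ ?_ ?_ ?_
          · intro χ hχ
            refine Finset.mem_filter.2 ⟨Finset.mem_univ _, χ.2, fun h9 => ?_⟩
            exact (Finset.mem_filter.1 hχ).2 (Subtype.ext h9)
          · intro χ _ χ' _ h9
            exact Subtype.ext h9
          · intro w hw
            obtain ⟨-, h9, h10⟩ := Finset.mem_filter.1 hw
            exact ⟨⟨w, h9⟩, Finset.mem_filter.2 ⟨Finset.mem_univ _, fun h11 =>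
              h10 (congrArg Subtype.val h11)⟩, rfl⟩
          · intro χ _
            rfl
        · right
          exact ⟨l, hl, hz0, fun w hw => hdom w.1 w.2 fun h9 => hw (Subtype.ext h9)⟩) (by
        intro χ₀
        obtain ⟨σ', h9, h10⟩ := exists_aut_over κ t χ₀.1 z χ₀.2 hz
        refine ⟨permOf κ t σ' h9, Subtype.ext h10, ?_⟩
        obtain ⟨g₁, hg₁⟩ := exists_lift j σ'
        have h11 := ((hV _).1 hf₀V).2.2 (g₀ * g₁)
        have h12 : ∑ χ : Over κ t, f₀ χ.1 * s' ((σ' : ℂ →+* ℂ).comp χ.1) =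
            ∑ χ : K i₀ →+* ℂ, f₀ χ * s' ((σ' : ℂ →+* ℂ).comp χ) :=
          sum_over κ t (fun χ => f₀ χ * s' ((σ' : ℂ →+* ℂ).comp χ)) fun χ hχ => by
            have h13 : f₀ χ = 0 := if_neg hχ
            rw [h13, zero_mul]
        refine h12.trans ?_
        rw [← Equiv.sum_comp e₀]
        have h14 : ∀ χ : K i₀ →+* L, f₀ (e₀ χ) * s' ((σ' : ℂ →+* ℂ).comp (e₀ χ)) =
            (q i₀ / 2) * (f₀ (j.comp χ) * (u i₀ (jp.comp ((g₀ * g₁) • χ)) : ℚ)) +
              (m i₀ / 2) * f₀ (j.comp χ) := by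
          intro χ
          rw [he₀, lifts_comp j hg₁]
          have h15 := hslope (g₁ • χ)
          rw [← mul_smul] at h15
          have h16 : s' (j.comp (g₁ • χ)) =
              (q i₀ * u i₀ (jp.comp ((g₀ * g₁) • χ)) + m i₀) / 2 := by
            rw [← h15]
            ring
          rw [h16]
          ring
        rw [Finset.sum_congr rfl fun χ _ => h14 χ, Finset.sum_add_distrib, ← Finset.mul_sum,
          ← Finset.mul_sum, h11, mul_zero, zero_add]
        have h17 : ∑ χ : K i₀ →+* L, f₀ (j.comp χ) = 0 := by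
          rw [← hsum, ← Equiv.sum_comp e₀]
          rfl
        rw [h17, mul_zero])
    exact hval (hall ⟨j.comp φ, hφ⟩)

end main

end

end Pool.Agent.H395.Exo
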