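import Mathlib
import Pool.Agent.H395.Exo.QuadAt

/-!
# The shape of the relations between Weil numbers of local and of quadratic types
-/

set_option autoImplicit false
set_option linter.unusedSectionVars false
set_option linter.unusedVariables false

namespace Pool.Agent.H395.Exo

open NumberField Module Pool.Agent.W527 Pool.Agent.H204R3.CM Pool.Agent.H977R3.WN
  Pool.Agent.H485R3.Exact Pool.Agent.TH127.SC Pool.Agent.Y137.MV

noncomputable section

variable {p : ℕ} [hp : Fact p.Prime] {I : Type} [Fintype I] {K : I → Type} [∀ i, Field (K i)]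
  [∀ i, NumberField (K i)] [∀ i, IsCMField (K i)] {a : ℕ} {π : ∀ i, K i}
  {k : Type} [Field k] [NumberField k] [IsCMField k] {κ : k →+* ℂ} {J : Set I}
  {θ : ∀ i, i ∈ J → (k →+* K i)}

theorem shape_of_types (hk : finrank ℚ k = 2) (hint : ∀ i, IsIntegral ℤ (π i))
    (hw : ∀ i, π i * IsCMField.complexConj (K i) (π i) = (p : K i) ^ a)
    (hQ : QuadTypes p (fun _ => a) π κ J θ) : QuadShape (p ^ a) π κ J θ := by
  intro r n hrel
  have hweil : ∀ i, ∀ φ : K i →+* ℂ, ‖φ (π i)‖ ^ 2 = (p : ℝ) ^ a := weil_of_mul hw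
  choose q u hq hodd hu using fun i =>
    exists_slopes_odd (p := p) (m := fun _ : I => a) (π := π) hweil i
  obtain ⟨L, _, _, j, h⟩ := exists_galois K
  have h1 : Nonempty (L →ₐ[ℚ] PadicAlgCl p) := ⟨IsAlgClosed.lift⟩
  obtain ⟨e⟩ := h1
  obtain ⟨A, hA, hsum⟩ := rel_of_product hweil hq hu j h (e : L →+* PadicAlgCl p) r n hrel
  set c : ∀ i, (K i →+* L) → ℤ := fun i φ =>
    (n ⟨i, j.comp φ⟩ - n ⟨i, j.comp (cbar φ)⟩) * A i with hc
  have hcodd : ∀ i φ, c i (cbar φ) = - c i φ := by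
    intro i φ
    simp only [hc, cbar_cbar]
    ring
  have hzero : ∀ i, i ∉ J → ∀ φ, c i φ = 0 := by
    intro i hi φ
    obtain ⟨χ, hχ⟩ := hQ.local_type i hi
    exact zero_at_local (m := fun _ => a) hQ.powers i χ hχ hint hweil hq hodd hu j h
      (e : L →+* PadicAlgCl p) c hcodd hsum φ
  have hval : ∀ i (φ : K i →+* L), c i φ = (n ⟨i, j.comp φ⟩ -
      n ⟨i, ComplexEmbedding.conjugate (j.comp φ)⟩) * A i := by
    intro i φ
    simp only [hc, comp_cbar]
  refine ⟨fun i hi φ => ?_, fun i hi φ ψ hφ hψ => ?_⟩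
  · obtain ⟨φ', rfl⟩ := h i φ
    have h2 := hzero i hi φ'
    rw [hval] at h2
    exact sub_eq_zero.1 ((mul_eq_zero.1 h2).resolve_right (hA i))
  · obtain ⟨φ', rfl⟩ := h i φ
    obtain ⟨ψ', rfl⟩ := h i ψ
    have h2 := const_at_quad (m := fun _ => a) hk κ i hi hQ.powers (hQ.over_k i hi)
      (hQ.alone i hi) hint hweil hq hu j h (e : L →+* PadicAlgCl p) c hcodd hsum hzero φ' ψ' hφ hψ
    rw [hval, hval] at h2
    exact mul_right_cancel₀ (hA i) h2

end

end Pool.Agent.H395.Exo
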