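import Mathlib
import Pool.Agent.H395.Exo.Defs
import Pool.Graph.R_pool_sql_team_seeded_63374d34.N202.QR.Defs

/-!
# Criteria: definitions
-/

set_option autoImplicit false

namespace Pool.Agent.H395.Exo

open NumberField Module Pool.Agent.N202.QR

/-- The embeddings `x` and `y` are neither equal nor complex conjugate. -/
def Apart {E : Type} [Field E] (x y : E →+* ℂ) : Prop :=
  x ≠ y ∧ x ≠ ComplexEmbedding.conjugate y

/-- The automorphisms of the complex numbers act triply transitively on the pairs of complex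
conjugate embeddings of the CM field `E`, that is, on the embeddings of its maximal totally real
subfield. -/
def TriplyTransitive (E : Type) [Field E] : Prop :=
  ∀ x y : Fin 3 → (E →+* ℂ), (∀ i j, i ≠ j → Apart (x i) (x j)) →
    (∀ i j, i ≠ j → Apart (y i) (y j)) → ∃ σ : ℂ ≃+* ℂ, ∀ i,
      (σ : ℂ →+* ℂ).comp (x i) = y i ∨
        (σ : ℂ →+* ℂ).comp (x i) = ComplexEmbedding.conjugate (y i)

/-- The prime numbers which do not split in any imaginary quadratic subfield of `E`. -/
def nonsplitPrimes (E : Type) [Field E] [NumberField E] : Set Nat.Primes :=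
  {l | ∀ F : IntermediateField ℚ E, finrank ℚ F = 2 → ¬ IsTotallyReal F →
    ¬ Nonempty (F →+* ℚ_[(l : ℕ)])}

/-- The condition that `E` contains an imaginary quadratic field, as a subset of the set with one
element. -/
def exoticPart (E : Type) [Field E] [NumberField E] : Set Unit :=
  {_i | ∃ F : IntermediateField ℚ E, finrank ℚ F = 2 ∧ ¬ IsTotallyReal F}

/-- The functions with sum zero on the embeddings over an imaginary quadratic field `k` are
irreducible if `[E : k]` is a prime number, and if the automorphisms over `k` act doubly transitively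
on the embeddings over `k`. -/
def OverCriteria : Prop :=
  ∀ (k : Type) [Field k] [NumberField k] [IsCMField k] (κ : k →+* ℂ) (E : Type) [Field E]
    [NumberField E] (θ : k →+* E), finrank ℚ k = 2 →
    ((∃ r : ℕ, r.Prime ∧ finrank ℚ E = 2 * r) ∨
      ∀ φ₁ φ₂ ψ₁ ψ₂ : E →+* ℂ, φ₁.comp θ = κ → φ₂.comp θ = κ → ψ₁.comp θ = κ → ψ₂.comp θ = κ →
        φ₁ ≠ φ₂ → ψ₁ ≠ ψ₂ → ∃ σ : ℂ ≃+* ℂ, (∀ x, σ (κ x) = κ x) ∧
          (σ : ℂ →+* ℂ).comp φ₁ = ψ₁ ∧ (σ : ℂ →+* ℂ).comp φ₂ = ψ₂) →
      SumZeroIrreducible κ θ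

end Pool.Agent.H395.Exo
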