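import Mathlib
import Pool.Agent.H395.Exo.IrrCrit
import Pool.Agent.H395.Exo.CritDefs
import Pool.Agent.H395.Crit

/-!
# Triply transitive fields
-/

set_option autoImplicit false
set_option linter.unusedSectionVars false
set_option linter.unusedVariables false

namespace Pool.Agent.H395.Exo

open NumberField Module Pool.Agent.W527 Pool.Agent.H204R3.CM Pool.Agent.TH127.SC

noncomputable section

/-- A subgroup of index two of a triply transitive group on at least four points is doubly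
transitive. -/
theorem double_of_triple {G X : Type} [Group G] [MulAction G X] [Fintype X]
    (hX : 4 ≤ Fintype.card X) (N : Subgroup G) (hN : ∀ a b, a ∉ N → b ∉ N → a * b ∈ N)
    (h3 : ∀ x y : Fin 3 → X, Function.Injective x → Function.Injective y →
      ∃ g : G, ∀ i, g • x i = y i) (x y x' y' : X) (hxy : x ≠ y) (hxy' : x' ≠ y') :
    ∃ g ∈ N, g • x = x' ∧ g • y = y' := by
  classical
  have hthird : ∀ a b c : X, ∃ d, d ≠ a ∧ d ≠ b ∧ d ≠ c := by
    intro a b c
    by_contra hcon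
    push Not at hcon
    have h1 : (Finset.univ : Finset X) ⊆ {a, b, c} := by
      intro d _
      rw [Finset.mem_insert, Finset.mem_insert, Finset.mem_singleton]
      by_contra h2
      push Not at h2
      exact h2.2.2 (hcon d h2.1 h2.2.1)
    have h2 := Finset.card_le_card h1
    have h4 := Finset.card_le_three (a := a) (b := b) (c := c)
    rw [Finset.card_univ] at h2
    omega
  have h3' : ∀ a b c a' b' c' : X, a ≠ b → a ≠ c → b ≠ c → a' ≠ b' → a' ≠ c' → b' ≠ c' →
      ∃ g : G, g • a = a' ∧ g • b = b' ∧ g • c = c' := by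
    intro a b c a' b' c' h1 h2 h4 h1' h2' h4'
    obtain ⟨g, hg⟩ := h3 ![a, b, c] ![a', b', c'] (by
      intro i j hij
      fin_cases i <;> fin_cases j <;> simp_all) (by
      intro i j hij
      fin_cases i <;> fin_cases j <;> simp_all)
    exact ⟨g, hg 0, hg 1, hg 2⟩
  have h2 : ∀ a b a' b' : X, a ≠ b → a' ≠ b' → ∃ g : G, g • a = a' ∧ g • b = b' := by
    intro a b a' b' h1 h1'
    obtain ⟨c, hc1, hc2, -⟩ := hthird a b b
    obtain ⟨c', hc1', hc2', -⟩ := hthird a' b' b'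
    obtain ⟨g, hg1, hg2, -⟩ := h3' a b c a' b' c' h1 hc1.symm hc2.symm h1' hc1'.symm hc2'.symm
    exact ⟨g, hg1, hg2⟩
  have hconj : ∀ g h : G, h ∉ N → g * h * g⁻¹ ∉ N := by
    intro g h hh hcon
    by_cases hg : g ∈ N
    · apply hh
      have h4 := N.mul_mem (N.mul_mem (N.inv_mem hg) hcon) hg
      have h5 : g⁻¹ * (g * h * g⁻¹) * g = h := by group
      rwa [h5] at h4
    · apply hg
      have h4 := N.mul_mem (N.inv_mem hcon) (hN g h hg hh)
      have h5 : (g * h * g⁻¹)⁻¹ * (g * h) = g := by group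
      rwa [h5] at h4
  obtain ⟨g, hg1, hg2⟩ := h2 x y x' y' hxy hxy'
  by_cases hg : g ∈ N
  · exact ⟨g, hg, hg1, hg2⟩
  -- an element outside of `N` which fixes two points
  suffices hfix : ∃ a b : X, a ≠ b ∧ ∃ h : G, h ∉ N ∧ h • a = a ∧ h • b = b by
    obtain ⟨a, b, hab, h, hh, ha, hb⟩ := hfix
    obtain ⟨u, hu1, hu2⟩ := h2 a b x y hab hxy
    refine ⟨g * (u * h * u⁻¹), hN _ _ hg (hconj u h hh), ?_, ?_⟩
    · rw [mul_smul, mul_smul, mul_smul, ← hu1, inv_smul_smul, ha, hu1, hg1]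
    · rw [mul_smul, mul_smul, mul_smul, ← hu2, inv_smul_smul, hb, hu2, hg2]
  by_contra hcon
  push Not at hcon
  have hstab : ∀ a b : X, a ≠ b → ∀ h : G, h • a = a → h • b = b → h ∈ N := by
    intro a b hab h ha hb
    by_contra hh
    exact hcon a b hab h hh ha hb
  -- first step
  obtain ⟨g₁, hg₁, hg₁x⟩ : ∃ g₁ : G, g₁ ∉ N ∧ g₁ • x = x := by
    by_cases hgx : g • x = x
    · exact ⟨g, hg, hgx⟩
    · obtain ⟨b, hb1, hb2, -⟩ := hthird x (g • x) x
      obtain ⟨c, hc1, hc2, hc3⟩ := hthird x (g • x) b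
      obtain ⟨h, ha, hb, hc⟩ := h3' b c (g • x) b c x hc3.symm hb2 hc2 hc3.symm hb1 hc1
      have hh : h ∈ N := hstab b c hc3.symm h ha hb
      refine ⟨h * g, fun h4 => hg ?_, by rw [mul_smul, hc]⟩
      have h5 := N.mul_mem (N.inv_mem hh) h4
      rwa [inv_mul_cancel_left] at h5
  by_cases hgy : g₁ • y = y
  · exact hg₁ (hstab x y hxy g₁ hg₁x hgy)
  · obtain ⟨c, hc1, hc2, hc3⟩ := hthird x y (g₁ • y)
    have h4 : g₁ • y ≠ x := by
      intro h5
      rw [← hg₁x] at h5
      exact hxy (MulAction.injective g₁ h5).symm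
    obtain ⟨h, ha, hb, hc⟩ := h3' x c (g₁ • y) x c y hc1.symm h4.symm hc3 hc1.symm hxy hc2
    have hh : h ∈ N := hstab x c hc1.symm h ha hb
    have h6 : h * g₁ ∈ N := hstab x y hxy (h * g₁) (by rw [mul_smul, hg₁x, ha])
      (by rw [mul_smul, hc])
    apply hg₁
    have h5 := N.mul_mem (N.inv_mem hh) h6
    rwa [inv_mul_cancel_left] at h5

section ov

variable {k : Type} [Field k] [NumberField k] [IsCMField k] (hk : finrank ℚ k = 2)
  (κ : k →+* ℂ) {E : Type} [Field E] [NumberField E] [IsCMField E] (θ : k →+* E)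

theorem conj_comp' (χ : E →+* ℂ) : (ComplexEmbedding.conjugate χ).comp θ =
    ComplexEmbedding.conjugate (χ.comp θ) := rfl

theorem cc' (χ : E →+* ℂ) : ComplexEmbedding.conjugate (ComplexEmbedding.conjugate χ) = χ :=
  ComplexEmbedding.involutive_conjugate E χ

theorem comp_conj' (σ : ℂ →+* ℂ) (φ : E →+* ℂ) : σ.comp (ComplexEmbedding.conjugate φ) =
      ComplexEmbedding.conjugate (σ.comp φ) := by
  have h1 := comp_cbar φ (RingHom.id E)
  have h2 := comp_cbar (σ.comp φ) (RingHom.id E)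
  rw [RingHom.comp_id] at h1 h2
  rw [← h1, ← h2]
  rfl

theorem over_unique (x y : Over κ θ) (h : x.1 = y.1 ∨ x.1 = ComplexEmbedding.conjugate y.1) :
    x = y := by
  rcases h with h | h
  · exact Subtype.ext h
  · exfalso
    have h1 := x.2
    rw [h, conj_comp', y.2] at h1
    exact conj_ne_self κ h1

include hk in
theorem exists_over (χ : E →+* ℂ) : ∃ x : Over κ θ, x.1 = χ ∨ x.1 = ComplexEmbedding.conjugate χ := by
  rcases emb_quad hk κ (χ.comp θ) with h | h
  · exact ⟨⟨χ, h⟩, Or.inl rfl⟩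
  · refine ⟨⟨ComplexEmbedding.conjugate χ, ?_⟩, Or.inr rfl⟩
    rw [conj_comp', h, ComplexEmbedding.involutive_conjugate k κ]

/-- The action on the pairs of complex conjugate embeddings. -/
@[instance_reducible] def pairAct : MulAction (ℂ ≃+* ℂ) (Over κ θ) where
  smul σ χ := (exists_over hk κ θ ((σ : ℂ →+* ℂ).comp χ.1)).choose
  one_smul χ := by
    refine over_unique κ θ _ _ ?_
    exact (exists_over hk κ θ (((1 : ℂ ≃+* ℂ) : ℂ →+* ℂ).comp χ.1)).choose_spec
  mul_smul σ τ χ := by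
    refine over_unique κ θ _ _ ?_
    have h1 := (exists_over hk κ θ (((σ * τ : ℂ ≃+* ℂ) : ℂ →+* ℂ).comp χ.1)).choose_spec
    set a := (exists_over hk κ θ (((σ * τ : ℂ ≃+* ℂ) : ℂ →+* ℂ).comp χ.1)).choose with ha
    have h2 := (exists_over hk κ θ ((τ : ℂ →+* ℂ).comp χ.1)).choose_spec
    set b := (exists_over hk κ θ ((τ : ℂ →+* ℂ).comp χ.1)).choose with hb
    have h3 := (exists_over hk κ θ ((σ : ℂ →+* ℂ).comp b.1)).choose_spec
    set c := (exists_over hk κ θ ((σ : ℂ →+* ℂ).comp b.1)).choose with hc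
    change a.1 = c.1 ∨ a.1 = ComplexEmbedding.conjugate c.1
    have h4 : ((σ * τ : ℂ ≃+* ℂ) : ℂ →+* ℂ).comp χ.1 =
      (σ : ℂ →+* ℂ).comp ((τ : ℂ →+* ℂ).comp χ.1) := rfl
    rw [h4] at h1
    rcases h2 with h2 | h2
    · rw [h2] at h3
      rcases h1 with h1 | h1 <;> rcases h3 with h3 | h3 <;> rw [h1, h3] <;> simp only [cc', true_or,
        or_true]
    · rw [h2, comp_conj'] at h3
      rcases h1 with h1 | h1 <;> rcases h3 with h3 | h3 <;> rw [h1, h3] <;> simp only [cc', true_or,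
        or_true]

theorem pairAct_spec (σ : ℂ ≃+* ℂ) (χ : Over κ θ) : letI := pairAct hk κ θ
    (σ • χ).1 = (σ : ℂ →+* ℂ).comp χ.1 ∨
      (σ • χ).1 = ComplexEmbedding.conjugate ((σ : ℂ →+* ℂ).comp χ.1) :=
  (exists_over hk κ θ ((σ : ℂ →+* ℂ).comp χ.1)).choose_spec

/-- The automorphisms over `k`. -/
def fixer : Subgroup (ℂ ≃+* ℂ) where
  carrier := {σ | ∀ x, σ (κ x) = κ x}
  mul_mem' := by
    intro σ τ h1 h2 x
    change σ (τ (κ x)) = κ x
    rw [h2 x, h1 x]
  one_mem' := fun x => rfl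
  inv_mem' := by
    intro σ h x
    apply σ.injective
    rw [h x]
    exact σ.apply_symm_apply _

include hk in
theorem fixer_index (σ τ : ℂ ≃+* ℂ) (hσ : σ ∉ fixer κ) (hτ : τ ∉ fixer κ) :
    σ * τ ∈ fixer κ := by
  have h1 : ∀ σ : ℂ ≃+* ℂ, σ ∉ fixer κ →
      (σ : ℂ →+* ℂ).comp κ = ComplexEmbedding.conjugate κ := by
    intro σ hσ
    refine (emb_quad hk κ ((σ : ℂ →+* ℂ).comp κ)).resolve_left fun h => hσ fun x => ?_
    exact RingHom.congr_fun h x
  have h2 : (σ : ℂ →+* ℂ).comp (ComplexEmbedding.conjugate κ) = κ := by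
    refine (emb_quad hk κ _).resolve_right fun h => ?_
    have h3 := h.trans (h1 σ hσ).symm
    apply conj_ne_self κ
    ext x
    apply σ.injective
    exact RingHom.congr_fun h3 x
  intro x
  have h3 := RingHom.congr_fun (h1 τ hτ) x
  have h4 := RingHom.congr_fun h2 x
  change σ (τ (κ x)) = κ x
  have h5 : τ (κ x) = ComplexEmbedding.conjugate κ x := h3
  rw [h5]
  exact h4

include hk in
/-- The functions with sum zero are irreducible if the real subfield is triply transitive. -/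
theorem sumZero_of_triple (h3 : TriplyTransitive E) (hE : 6 ≤ finrank ℚ E) :
    SumZeroIrreducible κ θ := by
  classical
  have hcard := card_over κ θ hk
  by_cases h4 : Fintype.card (Over κ θ) = 3
  · exact sumZero_of_prime κ θ hk Nat.prime_three (by omega)
  let _ := pairAct hk κ θ
  have hd := double_of_triple (X := Over κ θ) (by omega) (fixer κ)
    (fun a b ha hb => fixer_index hk κ a b ha hb) (by
      intro x y hx hy
      obtain ⟨σ, hσ⟩ := h3 (fun i => (x i).1) (fun i => (y i).1)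
        (fun i j hij => ⟨fun h => hij (hx (Subtype.ext h)), fun h => hij (hx (over_unique κ θ _ _
          (Or.inr h)))⟩)
        (fun i j hij => ⟨fun h => hij (hy (Subtype.ext h)), fun h => hij (hy (over_unique κ θ _ _
          (Or.inr h)))⟩)
      refine ⟨σ, fun i => over_unique κ θ _ _ ?_⟩
      rcases pairAct_spec hk κ θ σ (x i) with h5 | h5 <;> rcases hσ i with h6 | h6 <;>
        rw [h5, h6] <;> simp only [cc', true_or, or_true])
  refine sumZero_of_double κ θ ?_
  intro φ₁ φ₂ ψ₁ ψ₂ h1 h2 h1' h2' hne hne'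
  obtain ⟨σ, hσ, h5, h6⟩ := hd ⟨φ₁, h1⟩ ⟨φ₂, h2⟩ ⟨ψ₁, h1'⟩ ⟨ψ₂, h2'⟩
    (fun h => hne (congrArg Subtype.val h)) (fun h => hne' (congrArg Subtype.val h))
  have hspec : ∀ χ : Over κ θ, (σ • χ).1 = (σ : ℂ →+* ℂ).comp χ.1 := by
    intro χ
    have h7 : σ • χ = permOf κ θ σ hσ χ := over_unique κ θ _ _ (pairAct_spec hk κ θ σ χ)
    rw [h7]
    rfl
  refine ⟨σ, hσ, ?_, ?_⟩
  · rw [← hspec ⟨φ₁, h1⟩, h5]
  · rw [← hspec ⟨φ₂, h2⟩, h6]

end ov

end

end Pool.Agent.H395.Exo
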