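import Mathlib
import Pool.Agent.H395.Exo.Triple

/-!
# Triply transitive fields without imaginary quadratic subfields
-/

set_option autoImplicit false
set_option linter.unusedSectionVars false
set_option linter.unusedVariables false

namespace Pool.Agent.H395.Exo

open NumberField Module Pool.Agent.W527 Pool.Agent.H204R3.CM Pool.Agent.TH127.SC

noncomputable section

variable {E : Type} [Field E] [NumberField E] [IsCMField E]

/-- The image of an embedding under an automorphism of the complex numbers. -/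
def mv (σ : ℂ ≃+* ℂ) (φ : E →+* ℂ) : E →+* ℂ := (σ : ℂ →+* ℂ).comp φ

theorem mv_mul (σ τ : ℂ ≃+* ℂ) (φ : E →+* ℂ) : mv (σ * τ) φ = mv σ (mv τ φ) := rfl

theorem mv_inv_mv (σ : ℂ ≃+* ℂ) (φ : E →+* ℂ) : mv σ⁻¹ (mv σ φ) = φ :=
  RingHom.ext fun x => σ.symm_apply_apply _

theorem mv_mv_inv (σ : ℂ ≃+* ℂ) (φ : E →+* ℂ) : mv σ (mv σ⁻¹ φ) = φ :=
  RingHom.ext fun x => σ.apply_symm_apply _

theorem mv_cj (σ : ℂ ≃+* ℂ) (φ : E →+* ℂ) : mv σ (ComplexEmbedding.conjugate φ) = ComplexEmbedding.conjugate (mv σ φ) := comp_conj' _ _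

theorem mv_inj {σ : ℂ ≃+* ℂ} {φ ψ : E →+* ℂ} (h : mv σ φ = mv σ ψ) : φ = ψ := by
  rw [← mv_inv_mv σ φ, h, mv_inv_mv]

theorem mv_star (φ : E →+* ℂ) : mv (starRingAut : ℂ ≃+* ℂ) φ = ComplexEmbedding.conjugate φ := rfl

theorem cj_ne (φ : E →+* ℂ) : ComplexEmbedding.conjugate φ ≠ φ := by
  intro h
  have h1 := comp_cbar φ (RingHom.id E)
  rw [RingHom.comp_id, h] at h1
  have h2 : cbar (RingHom.id E) = RingHom.id E := by
    ext x
    apply φ.injective
    exact RingHom.congr_fun h1 x
  exact cbar_ne _ h2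

theorem Apart.symm' {x y : E →+* ℂ} (h : Apart x y) : Apart y x :=
  ⟨fun h1 => h.1 h1.symm, fun h1 => h.2 (by rw [h1, cc'])⟩

theorem Apart.right {x y : E →+* ℂ} (h : Apart x y) : Apart x (ComplexEmbedding.conjugate y) :=
  ⟨h.2, fun h1 => h.1 (by rw [h1, cc'])⟩

theorem Apart.mv' {x y : E →+* ℂ} (σ : ℂ ≃+* ℂ) (h : Apart x y) : Apart (mv σ x) (mv σ y) :=
  ⟨fun h1 => h.1 (mv_inj h1), fun h1 => h.2 (mv_inj (by rw [mv_cj, h1]))⟩

theorem exists_third (hE : 6 ≤ finrank ℚ E) (a b : E →+* ℂ) : ∃ w, Apart a w ∧ Apart b w := by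
  classical
  by_contra hcon
  push Not at hcon
  have h1 : (Finset.univ : Finset (E →+* ℂ)) ⊆ {a, ComplexEmbedding.conjugate a} ∪ {b, ComplexEmbedding.conjugate b} := by
    intro w _
    rw [Finset.mem_union, Finset.mem_insert, Finset.mem_singleton, Finset.mem_insert,
      Finset.mem_singleton]
    by_contra h2
    push Not at h2
    exact hcon w ⟨fun h => h2.1.1 h.symm, fun h => h2.1.2 (by rw [h, cc'])⟩
      ⟨fun h => h2.2.1 h.symm, fun h => h2.2.2 (by rw [h, cc'])⟩
  have h2 := Finset.card_le_card h1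
  have h3 := Finset.card_union_le ({a, ComplexEmbedding.conjugate a} : Finset (E →+* ℂ)) {b, ComplexEmbedding.conjugate b}
  have h4 := Finset.card_le_two (a := a) (b := ComplexEmbedding.conjugate a)
  have h5 := Finset.card_le_two (a := b) (b := ComplexEmbedding.conjugate b)
  rw [Finset.card_univ, NumberField.Embeddings.card] at h2
  omega

/-- Some automorphism fixes `x` and conjugates `y`. -/
theorem exists_flip (h3 : TriplyTransitive E) (hE : 6 ≤ finrank ℚ E)
    (hno : ∀ F : IntermediateField ℚ E, finrank ℚ F = 2 → IsTotallyReal F) {x y : E →+* ℂ}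
    (hxy : Apart x y) : ∃ τ : ℂ ≃+* ℂ, mv τ x = x ∧ mv τ y = ComplexEmbedding.conjugate y := by
  classical
  by_contra hcon
  push Not at hcon
  let P : (E →+* ℂ) → (E →+* ℂ) → Prop := fun a b => ∃ τ : ℂ ≃+* ℂ, mv τ x = a ∧ mv τ y = b
  have hexcl : ∀ a b, P a b → ¬ P a (ComplexEmbedding.conjugate b) := by
    rintro a b ⟨τ, h1, h2⟩ ⟨τ', h1', h2'⟩
    refine hcon (τ'⁻¹ * τ) ?_ ?_
    · rw [mv_mul, h1, ← h1', mv_inv_mv]
    · rw [mv_mul, h2]
      have h4 : b = ComplexEmbedding.conjugate (mv τ' y) := by rw [h2', cc']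
      rw [h4, mv_cj, mv_inv_mv]
  have h3' : ∀ a b d a' b' d' : E →+* ℂ, Apart a b → Apart a d → Apart b d → Apart a' b' →
      Apart a' d' → Apart b' d' → ∃ σ : ℂ ≃+* ℂ, (mv σ a = a' ∨ mv σ a = ComplexEmbedding.conjugate a') ∧
        (mv σ b = b' ∨ mv σ b = ComplexEmbedding.conjugate b') ∧ (mv σ d = d' ∨ mv σ d = ComplexEmbedding.conjugate d') := by
    intro a b d a' b' d' h1 h2 h4 h1' h2' h4'
    obtain ⟨σ, hσ⟩ := h3 ![a, b, d] ![a', b', d'] (by
      intro i j hij
      fin_cases i <;> fin_cases j <;> first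
        | exact absurd rfl hij
        | exact h1
        | exact h2
        | exact h4
        | exact h1.symm'
        | exact h2.symm'
        | exact h4.symm') (by
      intro i j hij
      fin_cases i <;> fin_cases j <;> first
        | exact absurd rfl hij
        | exact h1'
        | exact h2'
        | exact h4'
        | exact h1'.symm'
        | exact h2'.symm'
        | exact h4'.symm')
    exact ⟨σ, hσ 0, hσ 1, hσ 2⟩
  have hex : ∀ a b, Apart a b → P a b ∨ P a (ComplexEmbedding.conjugate b) := by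
    intro a b hab
    obtain ⟨w, hw1, hw2⟩ := exists_third hE x y
    obtain ⟨w', hw1', hw2'⟩ := exists_third hE a b
    obtain ⟨σ, h4, h5, -⟩ := h3' x y w a b w' hxy hw1 hw2 hab hw1' hw2'
    rcases h4 with h4 | h4
    · rcases h5 with h5 | h5
      · exact Or.inl ⟨σ, h4, h5⟩
      · exact Or.inr ⟨σ, h4, h5⟩
    · have h6 : mv ((starRingAut : ℂ ≃+* ℂ) * σ) x = a := by rw [mv_mul, mv_star, h4, cc']
      rcases h5 with h5 | h5
      · exact Or.inr ⟨(starRingAut : ℂ ≃+* ℂ) * σ, h6, by rw [mv_mul, mv_star, h5]⟩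
      · exact Or.inl ⟨(starRingAut : ℂ ≃+* ℂ) * σ, h6, by rw [mv_mul, mv_star, h5, cc']⟩
  have hPmv : ∀ (σ : ℂ ≃+* ℂ) a b, P (mv σ a) (mv σ b) ↔ P a b := by
    intro σ a b
    constructor
    · rintro ⟨τ, h1, h2⟩
      exact ⟨σ⁻¹ * τ, by rw [mv_mul, h1, mv_inv_mv], by rw [mv_mul, h2, mv_inv_mv]⟩
    · rintro ⟨τ, h1, h2⟩
      exact ⟨σ * τ, by rw [mv_mul, h1], by rw [mv_mul, h2]⟩
  let e : (E →+* ℂ) → (E →+* ℂ) → ℤ := fun a b => if P a b then 1 else -1
  have he1 : ∀ a b, P a b → e a b = 1 := fun a b h => if_pos h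
  have he2 : ∀ a b, ¬ P a b → e a b = -1 := fun a b h => if_neg h
  have hee : ∀ a b, e a b * e a b = 1 := by
    intro a b
    by_cases h : P a b
    · rw [he1 a b h, mul_one]
    · rw [he2 a b h]
      norm_num
  have hemv : ∀ (σ : ℂ ≃+* ℂ) a b, e (mv σ a) (mv σ b) = e a b := by
    intro σ a b
    simp only [e, hPmv]
  have hright : ∀ a b, Apart a b → e a (ComplexEmbedding.conjugate b) = - e a b := by
    intro a b hab
    rcases hex a b hab with h | h
    · rw [he1 a b h, he2 a (ComplexEmbedding.conjugate b) (hexcl a b h)]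
    · have h4 : ¬ P a b := fun h5 => hexcl a b h5 h
      rw [he1 a (ComplexEmbedding.conjugate b) h, he2 a b h4, neg_neg]
  have hleft : ∀ a b, Apart a b → e (ComplexEmbedding.conjugate a) b = - e a b := by
    intro a b hab
    have h4 := hemv (starRingAut : ℂ ≃+* ℂ) a (ComplexEmbedding.conjugate b)
    rw [mv_star, mv_star, cc'] at h4
    rw [h4, hright a b hab]
  have hboth : ∀ a b, Apart a b → e (ComplexEmbedding.conjugate a) (ComplexEmbedding.conjugate b) = e a b := by
    intro a b hab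
    rw [hleft a (ComplexEmbedding.conjugate b) hab.right, hright a b hab, neg_neg]
  have hsign : ∀ (σ : ℂ ≃+* ℂ) a b a' b', Apart a' b' → ∀ ε η : ℤ,
      ((ε = 1 ∧ mv σ a = a') ∨ (ε = -1 ∧ mv σ a = ComplexEmbedding.conjugate a')) →
      ((η = 1 ∧ mv σ b = b') ∨ (η = -1 ∧ mv σ b = ComplexEmbedding.conjugate b')) → e a b = ε * η * e a' b' := by
    intro σ a b a' b' hab ε η h1 h2
    rw [← hemv σ a b]
    rcases h1 with ⟨h1, h4⟩ | ⟨h1, h4⟩ <;> rcases h2 with ⟨h2, h5⟩ | ⟨h2, h5⟩ <;>
      rw [h1, h2, h4, h5]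
    · ring
    · rw [hright _ _ hab]
      ring
    · rw [hleft _ _ hab]
      ring
    · rw [hboth _ _ hab]
      ring
  have hsg : ∀ (σ : ℂ ≃+* ℂ) (a a' : E →+* ℂ), (mv σ a = a' ∨ mv σ a = ComplexEmbedding.conjugate a') →
      ∃ ε : ℤ, ε * ε = 1 ∧ ((ε = 1 ∧ mv σ a = a') ∨ (ε = -1 ∧ mv σ a = ComplexEmbedding.conjugate a')) := by
    intro σ a a' h
    rcases h with h | h
    · exact ⟨1, by norm_num, Or.inl ⟨rfl, h⟩⟩
    · exact ⟨-1, by norm_num, Or.inr ⟨rfl, h⟩⟩
  have htriple : ∀ a b d a' b' d' : E →+* ℂ, Apart a b → Apart a d → Apart b d → Apart a' b' →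
      Apart a' d' → Apart b' d' → e a b * e b d * e d a = e a' b' * e b' d' * e d' a' ∧
        e a b * e b a = e a' b' * e b' a' := by
    intro a b d a' b' d' h1 h2 h4 h1' h2' h4'
    obtain ⟨σ, s1, s2, s4⟩ := h3' a b d a' b' d' h1 h2 h4 h1' h2' h4'
    obtain ⟨ε, hε, s1⟩ := hsg σ _ _ s1
    obtain ⟨η, hη, s2⟩ := hsg σ _ _ s2
    obtain ⟨ζ, hζ, s4⟩ := hsg σ _ _ s4
    rw [hsign σ a b a' b' h1' ε η s1 s2, hsign σ b d b' d' h4' η ζ s2 s4,
      hsign σ d a d' a' h2'.symm' ζ ε s4 s1, hsign σ b a b' a' h1'.symm' η ε s2 s1]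
    constructor
    · linear_combination (e a' b' * e b' d' * e d' a' * (η * η) * (ζ * ζ)) * hε +
        (e a' b' * e b' d' * e d' a' * (ζ * ζ)) * hη + (e a' b' * e b' d' * e d' a') * hζ
    · linear_combination (e a' b' * e b' a' * (η * η)) * hε + (e a' b' * e b' a') * hη
  obtain ⟨w, hw1, hw2⟩ := exists_third hE x y
  set s : ℤ := e x y * e y w * e w x with hs
  have hsval : ∀ a b d : E →+* ℂ, Apart a b → Apart a d → Apart b d →
      e a b * e b d * e d a = s := fun a b d h1 h2 h4 =>
    (htriple a b d x y w h1 h2 h4 hxy hw1 hw2).1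
  have hδval : ∀ a b : E →+* ℂ, Apart a b → e a b * e b a = e x y * e y x := by
    intro a b hab
    obtain ⟨d, hd1, hd2⟩ := exists_third hE a b
    exact (htriple a b d x y w hab hd1 hd2 hxy hw1 hw2).2
  have hss : s * s = 1 := by
    have h1 := hee x y
    have h2 := hee y w
    have h4 := hee w x
    rw [hs]
    linear_combination (e y w * e y w * (e w x * e w x)) * h1 + (e w x * e w x) * h2 + h4
  have hsymm : ∀ a b : E →+* ℂ, Apart a b → e a b = e b a := by
    set δ : ℤ := e x y * e y x with hδ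
    have hba : ∀ a b : E →+* ℂ, Apart a b → e b a = δ * e a b := by
      intro a b hab
      have h1 := hδval a b hab
      have h2 := hee a b
      linear_combination (e a b) * h1 - (e b a) * h2
    have hδδ : δ * δ = 1 := by
      have h1 := hee x y
      have h2 := hee y x
      rw [hδ]
      linear_combination (e y x * e y x) * h1 + h2
    have h1 := hsval x y w hxy hw1 hw2
    have h2 := hsval y x w hxy.symm' hw2 hw1
    rw [hba x y hxy, hba w x hw1.symm', hba y w hw2] at h2
    have hδ1 : δ = 1 := by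
      have h4 : δ * s = s := by
        have h5 : δ * e x y * (δ * e w x) * (δ * e y w) = s := h2
        have h6 : δ * s = δ * e x y * (δ * e w x) * (δ * e y w) := by
          rw [← h1]
          linear_combination (-(δ * e x y * e y w * e w x)) * hδδ
        rw [h6, h5]
      have h5 : δ * (s * s) = s * s := by rw [← mul_assoc, h4]
      rw [hss, mul_one] at h5
      exact h5
    intro a b hab
    rw [hba a b hab, hδ1, one_mul]
  -- the half system
  let H : (E →+* ℂ) → Prop := fun b => b = x ∨ (Apart x b ∧ e x b = s)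
  have hs0 : s ≠ -s := by
    intro h
    have h1 : s = 0 := by omega
    rw [h1] at hss
    norm_num at hss
  have hpm : ∀ a b, e a b = s ∨ e a b = -s := by
    intro a b
    have h1 : (e a b - s) * (e a b + s) = 0 := by linear_combination hee a b - hss
    rcases mul_eq_zero.1 h1 with h2 | h2
    · left; omega
    · right; omega
  have hhalf : ∀ b, H b ↔ ¬ H (ComplexEmbedding.conjugate b) := by
    intro b
    by_cases h1 : b = x
    · subst h1
      refine ⟨fun _ h2 => ?_, fun _ => Or.inl rfl⟩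
      rcases h2 with h2 | h2
      · exact cj_ne _ h2
      · exact h2.1.2 (by rw [cc'])
    · by_cases h2 : ComplexEmbedding.conjugate b = x
      · refine ⟨fun h4 => ?_, fun h4 => absurd (Or.inl h2) h4⟩
        rcases h4 with h4 | h4
        · exact absurd h4 h1
        · exact absurd h2.symm h4.1.2
      · have hab : Apart x b := ⟨fun h => h1 h.symm, fun h => h2 h.symm⟩
        constructor
        · rintro (h4 | ⟨_, h4⟩)
          · exact absurd h4 h1
          · rintro (h5 | ⟨_, h5⟩)
            · exact h2 h5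
            · rw [hright x b hab, h4] at h5
              omega
        · intro h4
          right
          refine ⟨hab, ?_⟩
          rcases hpm x b with h5 | h5
          · exact h5
          · exfalso
            apply h4
            right
            refine ⟨hab.right, ?_⟩
            rw [hright x b hab, h5, neg_neg]
  have hap : ∀ b d, H b → H d → b ≠ d → Apart b d := by
    intro b d hb hd hne
    refine ⟨hne, fun h => ?_⟩
    rw [h] at hb
    exact (hhalf d).1 hd hb
  have hHe : ∀ b d, H b → H d → b ≠ d → e b d = s := by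
    intro b d hb hd hne
    have hbd := hap b d hb hd hne
    rcases hb with hb | ⟨hb, hb'⟩
    · subst hb
      rcases hd with hd | ⟨-, hd⟩
      · exact absurd hd.symm hne
      · exact hd
    · rcases hd with hd | ⟨hd, hd'⟩
      · subst hd
        rw [← hsymm _ _ hb]
        exact hb'
      · have h1 := hsval x b d hb hd hbd
        rw [hb', ← hsymm x d hd, hd'] at h1
        linear_combination h1 - (e b d) * hss
  have hblock : ∀ (σ : ℂ ≃+* ℂ) (a z : E →+* ℂ), H a → H (mv σ a) → H z → H (mv σ z) := by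
    intro σ a z ha hσa hz
    by_cases haz : a = z
    · rw [← haz]
      exact hσa
    · by_contra hcon'
      have h1 : H (ComplexEmbedding.conjugate (mv σ z)) := by
        by_contra h2
        exact hcon' ((hhalf _).2 h2)
      have haz' := hap a z ha hz haz
      have h2 : mv σ a ≠ ComplexEmbedding.conjugate (mv σ z) := (haz'.mv' σ).2
      have h4 := hHe _ _ hσa h1 h2
      rw [hright _ _ (haz'.mv' σ), hemv, hHe a z ha hz haz] at h4
      omega
  -- the quadratic subfield
  obtain ⟨L, _, _, j, h⟩ := exists_galois (fun _ : Unit => E)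
  have hj : ∀ ψ : E →+* ℂ, ∃ φ : E →+* L, j.comp φ = ψ := h ()
  let O : Finset (E →+* L) := Finset.univ.filter fun φ => H (j.comp φ)
  have hO : ∀ φ, φ ∈ O ↔ H (j.comp φ) := by
    intro φ
    simp only [O, Finset.mem_filter, Finset.mem_univ, true_and]
  obtain ⟨x', hx'⟩ := hj x
  have hx'O : x' ∈ O := (hO x').2 (by rw [hx']; exact Or.inl rfl)
  obtain ⟨F, hF1, hF2⟩ := exists_subfield_of_block j hj O hx'O (by
    intro g y' hy' hgy' z' hz'
    obtain ⟨σ, hσ⟩ := exists_lift' j g
    have h1 := hblock σ (j.comp y') (j.comp z') ((hO _).1 hy') (by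
      change H ((σ : ℂ →+* ℂ).comp (j.comp y'))
      rw [lifts_comp j hσ]
      exact (hO _).1 hgy') ((hO _).1 hz')
    change H ((σ : ℂ →+* ℂ).comp (j.comp z')) at h1
    rw [lifts_comp j hσ] at h1
    exact (hO _).2 h1)
  have hOcard : 2 * O.card = finrank ℚ E := by
    have h1 : Fintype.card (E →+* L) = finrank ℚ E := by
      rw [← NumberField.Embeddings.card E ℂ]
      exact Fintype.card_congr (Equiv.ofBijective (fun φ : E →+* L => j.comp φ)
        ⟨comp_injective j, hj⟩)
    have h2 := Finset.card_filter_add_card_filter_not (s := (Finset.univ : Finset (E →+* L)))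
      (fun φ => H (j.comp φ))
    have h4 : (Finset.univ.filter fun φ : E →+* L => ¬ H (j.comp φ)).card = O.card := by
      refine Finset.card_nbij' cbar cbar ?_ ?_ ?_ ?_
      · intro φ hφ
        have h5 := (Finset.mem_filter.1 hφ).2
        refine (hO _).2 ?_
        rw [comp_cbar, hhalf, cc']
        exact h5
      · intro φ hφ
        refine Finset.mem_filter.2 ⟨Finset.mem_univ _, ?_⟩
        have h5 := (hO φ).1 hφ
        rw [comp_cbar]
        exact (hhalf _).1 h5
      · intro φ _
        exact cbar_cbar φ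
      · intro φ _
        exact cbar_cbar φ
    rw [h4, Finset.card_univ, h1] at h2
    change O.card + O.card = _ at h2
    omega
  have hF3 : finrank ℚ F = 2 := by
    have h1 := Module.finrank_mul_finrank ℚ F E
    rw [hF1, ← hOcard] at h1
    exact Nat.eq_of_mul_eq_mul_right (Finset.card_pos.2 ⟨x', hx'O⟩) h1
  have hreal := hno F hF3
  have h1 : ¬ NonReal F := fun h2 => (nonReal_iff F).1 h2 hreal
  unfold NonReal at h1
  push Not at h1
  have h2 : res F (cbar x') = res F x' := by
    ext z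
    rw [res_apply, res_apply, cbar_apply, h1 z z.2]
  have h4 := hF2 1 (cbar x')
  rw [one_smul, inv_one, one_smul] at h4
  have h5 := (hO _).1 (h4.1 h2)
  rw [comp_cbar] at h5
  exact (hhalf _).1 ((hO _).1 hx'O) h5

end

end Pool.Agent.H395.Exo
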