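import Mathlib
import Pool.Graph.R_pool_sql_team_seeded_63374d34.N202.QR.Main

/-!
# Words of Hodge type defined over an imaginary quadratic field which does not split

The frame of the proof of `quad_both` is that of `quad_nonneg` in
`Pool/Graph/R_pool_sql_team_seeded_63374d34/N202/QR/Quad.lean`.
-/

set_option autoImplicit false
set_option linter.unusedSectionVars false
set_option linter.unusedVariables false

namespace Pool.Agent.H395.Exo

open NumberField Pool.Agent.H204R3.CM Pool.Agent.W547.KB Pool.Agent.W547.LD Pool.Agent.W547.HR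
  Pool.Agent.W495.TA Module Pool.Agent.TH117.PO Pool.Agent.W976.TA Pool.Agent.N202.QR
open scoped TensorProduct

noncomputable section

section

variable {p : ℕ} [Fact p.Prime] {ν : PadicAlgCl p ≃+* ℂ}
  {Ω : Nat.Primes → Type} [∀ l, Field (Ω l)] [∀ l, CharZero (Ω l)]
  [∀ l : Nat.Primes, Algebra ℚ_[(l : ℕ)] (Ω l)] {L : Type} [Field L] [NumberField L]
  [IsCMField L] [IsGalois ℚ L] {δ : L} {d : ℚ}
  {C : (Y : RedAV p ν) → (κ : Type) → FCl Ω Y κ → Prop} (hC : IsCompatible Ω C)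
include hC

/-- If `δ` is not in the field of `l`-adic numbers, the coefficients of a word of Hodge type defined
over an imaginary quadratic field and of the conjugate word vanish simultaneously. -/
theorem quad_both (l : Nat.Primes) (hns : ¬ ∃ x : ℚ_[(l : ℕ)], x ^ 2 = -(d : ℚ_[(l : ℕ)])) (hδ : IsRoot δ d) (jO : ∀ l, L →+* Ω l) (j : L →+* ℂ)
    {Y : RedAV p ν} (hB : Big Y.X j) (e : ∀ l, Basis (Wt Y.X L) (Ω l) (TM (Ω l) Y))
    (h1 : ∀ l w, co (jO l) w (e l w) = 1) (h0 : ∀ l w w', w ≠ w' → co (jO l) w (e l w') = 0)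
    {κ : Type} [Fintype κ] [DecidableEq κ] {z : FCl Ω Y κ} (hz : C Y κ z) {I : κ → Wt Y.X L}
    (hI : Function.Injective I) (hbal : Balanced (fun k => St j (I k)))
    (hK : ∀ σ : L ≃ₐ[ℚ] L, σ δ = δ → ∃ π : Equiv.Perm κ, ∀ k, sw σ (I k) = I (π k)) :
    (z l fun k => e l (I k)) = 0 ↔ (z l fun k => e l (bar (I k))) = 0 := by
  classical
  have hC' : IsFam (fun i : Nat.Primes × (L ≃ₐ[ℚ] L) => Ω i.1) (rep (L ≃ₐ[ℚ] L) C) :=
    hC.toIsFam.rep 1
  have hinv : ∀ x : L, cc L (cc L x) = x := cc_invol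
  let e' : ∀ i : Nat.Primes × (L ≃ₐ[ℚ] L), Basis (Wt Y.X L) (Ω i.1) (TM (Ω i.1) Y) := fun i =>
    (e i.1).reindex (swE Y.X i.2)
  have he' : ∀ (i : Nat.Primes × (L ≃ₐ[ℚ] L)) (w : Wt Y.X L), e' i w = e i.1 (sw i.2 w) := by
    intro i w
    exact Basis.reindex_apply _ _ _
  have hinj : ∀ σ : L ≃ₐ[ℚ] L, Function.Injective (sw (X := Y.X) σ) := fun σ =>
    (swE Y.X σ).symm.injective
  have h1' : ∀ i w, co (jS jO i) w (e' i w) = 1 := by
    intro i w
    rw [he', co_jS]
    exact h1 _ _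
  have h0' : ∀ i w w', w ≠ w' → co (jS jO i) w (e' i w') = 0 := by
    intro i w w' hw
    rw [he', co_jS]
    exact h0 _ _ _ fun h => hw (hinj _ h)
  -- a rational vector where the monomial does not vanish
  obtain ⟨v0, hv0⟩ : ∃ v : κ → Y.X.H1, mono I v ≠ 0 := by
    by_contra hcon
    push Not at hcon
    let l : Nat.Primes := ⟨2, Nat.prime_two⟩
    have h2 : monoO (jO l) I = 0 := by
      refine Pool.Agent.W417.TA.ext_tmul fun v => ?_
      rw [Pool.Agent.W417.TA.monoO_tmul, hcon, map_zero]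
      rfl
    have h3 : monoO (jO l) I (fun k => e l (I k)) = 1 := by
      rw [monoO_det]
      have h4 : (Matrix.of fun k k' => co (jO l) (I k') (e l (I k))) = (1 : Matrix κ κ (Ω l)) := by
        ext k k'
        rw [Matrix.of_apply, Matrix.one_apply]
        split_ifs with h5
        · rw [h5]; exact h1 _ _
        · exact h0 _ _ _ fun h6 => h5 (hI h6).symm
      rw [h4, Matrix.det_one]
    rw [h2] at h3
    exact zero_ne_one h3
  set D : L := mono I v0 with hD
  -- the coefficients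
  let c : ∀ i : Nat.Primes × (L ≃ₐ[ℚ] L), Ω i.1 := fun i => z i.1 fun k => e i.1 (sw i.2 (I k))
  let c' : ∀ i : Nat.Primes × (L ≃ₐ[ℚ] L), Ω i.1 := fun i =>
    z i.1 fun k => e i.1 (sw i.2 (bar (I k)))
  have hzr : rep (L ≃ₐ[ℚ] L) C Y κ (fun i => z i.1) := ⟨z, hz, fun i => rfl⟩
  have hIb : Function.Injective fun k => bar (I k) := fun k k' h => hI (bar_injective h)
  have hLn : LnF (rep (L ≃ₐ[ℚ] L) C) (jS jO) Y I c := by
    have h2 := LnF_coef hC' j hB e' h1' h0' hzr hI
    have h3 : (fun i : Nat.Primes × (L ≃ₐ[ℚ] L) => z i.1 fun k => e' i (I k)) = c := by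
      funext i
      simp only [he']
      rfl
    rw [h3] at h2
    exact h2
  have hLn' : LnF (rep (L ≃ₐ[ℚ] L) C) (jS jO) Y (fun k => bar (I k)) c' := by
    have h2 := LnF_coef hC' j hB e' h1' h0' hzr hIb
    have h3 : (fun i : Nat.Primes × (L ≃ₐ[ℚ] L) => z i.1 fun k => e' i (bar (I k))) = c' := by
      funext i
      simp only [he']
      rfl
    rw [h3] at h2
    exact h2
  -- the values on the two cosets
  let s : Equiv.Perm κ → ℤ := fun π => (Equiv.Perm.sign π : ℤ)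
  have hss : ∀ π, s π * s π = 1 := fun π => by
    change ((Equiv.Perm.sign π : ℤ)) * ((Equiv.Perm.sign π : ℤ)) = 1
    rw [← Units.val_mul, Int.units_mul_self, Units.val_one]
  have hperm : ∀ (l : Nat.Primes) (π : Equiv.Perm κ) (v : κ → TM (Ω l) Y),
      (z l fun k => v (π k)) = (s π : Ω l) * z l v := by
    intro l π v
    have h2 := (z l).map_perm v π
    rw [Units.smul_def, zsmul_eq_mul] at h2
    exact h2
  have hbs : ∀ (σ : L ≃ₐ[ℚ] L) (w : Wt Y.X L), sw σ (bar w) = bar (sw σ w) := by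
    intro σ w
    have h2 : bar w = sw (cc L) w := rfl
    have h3 : bar (sw σ w) = sw (cc L) (sw σ w) := rfl
    rw [h2, h3, ← sw_mul, ← sw_mul, cc_comm j]
  set z0 : ∀ l, Ω l := fun l => z l fun k => e l (I k) with hz0
  set z1 : ∀ l, Ω l := fun l => z l fun k => e l (bar (I k)) with hz1
  have key : ∀ σ : L ≃ₐ[ℚ] L, σ δ = δ → ∃ ε : ℤ, ε * ε = 1 ∧ σ D = ε * D ∧ ∀ l,
      c (l, σ) = ε * z0 l ∧ c' (l, σ) = ε * z1 l ∧ c (l, cc L * σ) = ε * z1 l ∧
        c' (l, cc L * σ) = ε * z0 l := by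
    intro σ hσ
    obtain ⟨π, hπ⟩ := hK σ hσ
    refine ⟨s π, hss π, ?_, fun l => ⟨?_, ?_, ?_, ?_⟩⟩
    · rw [hD, ← mono_sw]
      have h2 : (fun k => sw σ (I k)) = I ∘ π := funext hπ
      rw [h2, mono_perm]
    · change (z l fun k => e l (sw σ (I k))) = _
      simp only [hπ]
      exact hperm l π fun k => e l (I k)
    · change (z l fun k => e l (sw σ (bar (I k)))) = _
      simp only [hbs, hπ]
      exact hperm l π fun k => e l (bar (I k))
    · change (z l fun k => e l (sw (cc L * σ) (I k))) = _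
      simp only [sw_cc, hπ]
      exact hperm l π fun k => e l (bar (I k))
    · change (z l fun k => e l (sw (cc L * σ) (bar (I k)))) = _
      simp only [sw_cc, hbs, hπ, bar_bar]
      exact hperm l π fun k => e l (I k)
  have hcos : ∀ σ : L ≃ₐ[ℚ] L, σ δ = δ ∨ ∃ τ : L ≃ₐ[ℚ] L, τ δ = δ ∧ σ = cc L * τ := by
    intro σ
    rcases hδ.conj_or σ with h2 | h2
    · exact Or.inl h2
    · refine Or.inr ⟨cc L * σ, ?_, ?_⟩
      · change cc L (σ δ) = δ
        rw [h2, map_neg, hδ.cj j, neg_neg]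
      · rw [← mul_assoc, cc_cc, one_mul]
  -- the local conditions
  set N : ℚ := ((Finset.univ.filter fun σ : L ≃ₐ[ℚ] L => σ δ = δ).card : ℚ) with hN
  have hNpos : 0 < N := by
    rw [hN]
    exact Nat.cast_pos.2 (Finset.card_pos.2 ⟨(1 : L ≃ₐ[ℚ] L),
      Finset.mem_filter.2 ⟨Finset.mem_univ _, rfl⟩⟩)
  obtain ⟨u, v, h4, h5⟩ : ∃ u v : ℚ_[(l : ℕ)],
      (N : Ω l) * (jO l D * z0 l) = algebraMap _ (Ω l) u + algebraMap _ (Ω l) v * jO l δ ∧
      (N : Ω l) * (jO l (cc L D) * z1 l) =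
        algebraMap _ (Ω l) u - algebraMap _ (Ω l) v * jO l δ := by
    have h2 := coef_mem hC jO j hB hI hbal hLn l
    have h3 := SS_smul jO l D h2
    obtain ⟨u, v, h4, h5⟩ := SS_sums hδ j jO l h3
    have e1 : (∑ σ with σ δ = δ, jO l (σ D) * c (l, σ)) = (N : Ω l) * (jO l D * z0 l) := by
      have e2 : ∀ σ ∈ Finset.univ.filter (fun σ : L ≃ₐ[ℚ] L => σ δ = δ),
          jO l (σ D) * c (l, σ) = jO l D * z0 l := by
        intro σ hσ
        obtain ⟨ε, hε, h6, h7⟩ := key σ (Finset.mem_filter.1 hσ).2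
        have e5 : ((ε : ℤ) : Ω l) * ((ε : ℤ) : Ω l) = 1 := by
          rw [← Int.cast_mul, hε, Int.cast_one]
        rw [h6, (h7 l).1, map_mul, map_intCast]
        linear_combination (jO l D * z0 l) * e5
      rw [Finset.sum_congr rfl e2, Finset.sum_const, nsmul_eq_mul, hN]
      push_cast
      rfl
    have e1' : (∑ σ with σ δ = δ, jO l ((cc L * σ) D) * c (l, cc L * σ)) =
        (N : Ω l) * (jO l (cc L D) * z1 l) := by
      have e2 : ∀ σ ∈ Finset.univ.filter (fun σ : L ≃ₐ[ℚ] L => σ δ = δ),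
          jO l ((cc L * σ) D) * c (l, cc L * σ) = jO l (cc L D) * z1 l := by
        intro σ hσ
        obtain ⟨ε, hε, h6, h7⟩ := key σ (Finset.mem_filter.1 hσ).2
        have e5 : ((ε : ℤ) : Ω l) * ((ε : ℤ) : Ω l) = 1 := by
          rw [← Int.cast_mul, hε, Int.cast_one]
        have e6 : (cc L * σ) D = (ε : L) * cc L D := by
          change cc L (σ D) = _
          rw [h6, map_mul, map_intCast]
        rw [e6, (h7 l).2.2.1, map_mul, map_intCast]
        linear_combination (jO l (cc L D) * z1 l) * e5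
      rw [Finset.sum_congr rfl e2, Finset.sum_const, nsmul_eq_mul, hN]
      push_cast
      rfl
    rw [e1] at h4
    rw [e1'] at h5
    exact ⟨u, v, h4, h5⟩
  have hD0 : jO l D ≠ 0 := (map_ne_zero (jO l)).2 hv0
  have hD1 : jO l (cc L D) ≠ 0 := (map_ne_zero (jO l)).2 ((map_ne_zero (cc L)).2 hv0)
  have hN0 : (N : Ω l) ≠ 0 := by exact_mod_cast hNpos.ne'
  have hδ2 : jO l δ ^ 2 = algebraMap _ (Ω l) (-(d : ℚ_[(l : ℕ)])) := by
    rw [← map_pow, hδ.sq, map_neg, map_ratCast, map_neg, map_ratCast]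
  have hzero : ∀ u v : ℚ_[(l : ℕ)], algebraMap _ (Ω l) u + algebraMap _ (Ω l) v * jO l δ = 0 →
      u = 0 ∧ v = 0 := by
    intro u v h
    by_cases hv : v = 0
    · rw [hv, map_zero, zero_mul, add_zero] at h
      exact ⟨(map_eq_zero _).1 h, hv⟩
    · exfalso
      apply hns
      refine ⟨u / v, ?_⟩
      apply (algebraMap ℚ_[(l : ℕ)] (Ω l)).injective
      rw [← hδ2, map_pow, map_div₀]
      have h6 : algebraMap _ (Ω l) v ≠ 0 := (map_ne_zero _).2 hv
      have h7 : algebraMap _ (Ω l) u = -(algebraMap _ (Ω l) v * jO l δ) := by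
        linear_combination h
      rw [h7]
      field_simp
  constructor
  · intro h
    change z0 l = 0 at h
    rw [h, mul_zero, mul_zero] at h4
    obtain ⟨hu, hv⟩ := hzero u v h4.symm
    rw [hu, hv, map_zero, zero_mul, sub_zero] at h5
    exact ((mul_eq_zero.1 ((mul_eq_zero.1 h5).resolve_left hN0)).resolve_left hD1)
  · intro h
    change z1 l = 0 at h
    rw [h, mul_zero, mul_zero] at h5
    obtain ⟨hu, hv⟩ := hzero u (-v) (by
      rw [map_neg, h5]
      ring)
    rw [neg_eq_zero] at hv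
    rw [hu, hv, map_zero, zero_mul, add_zero] at h4
    exact ((mul_eq_zero.1 ((mul_eq_zero.1 h4).resolve_left hN0)).resolve_left hD0)

end

end

end Pool.Agent.H395.Exo
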