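import Mathlib
import Pool.Agent.H395.Exo.Nonsplit

/-!
# Positivity for the prime numbers which do not split in the imaginary quadratic field

The frames of the proofs of `word_both` and `positive_nonsplit` are those of `word_sign` and
`positive_quad` in `Pool/Graph/R_pool_sql_team_seeded_63374d34/N202/QR/Main.lean`.
-/

set_option autoImplicit false
set_option linter.unusedSectionVars false
set_option linter.unusedVariables false

namespace Pool.Agent.H395.Exo

open NumberField Pool.Agent.H204R3.CM Pool.Agent.W547.KB Pool.Agent.W547.LD Pool.Agent.W547.HR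
  Pool.Agent.W495.TA Module Pool.Agent.TH117.PO Pool.Agent.W976.TA Pool.Agent.W417.TA
  Pool.Agent.TH117.BL Pool.Agent.W495.TC Pool.Agent.W495.TB Pool.Agent.TH117.F5
  Pool.Agent.N202.QR
open scoped TensorProduct

noncomputable section

variable {p : ℕ} [Fact p.Prime] {ν : PadicAlgCl p ≃+* ℂ}

section

variable {L : Type} [Field L] [NumberField L] [IsCMField L] [IsGalois ℚ L]

/-- If `K` does not embed in the `l`-adic numbers, the root is not an `l`-adic number. -/
theorem nonsplit_root {K : Type} [Field K] [NumberField K] [IsCMField K] (hK : finrank ℚ K = 2)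
    (κL : K →+* L) {δ : L} {d : ℚ} (hδ : IsRoot δ d)
    (hfix : ∀ σ : L ≃ₐ[ℚ] L, σ δ = δ → ∀ x, σ (κL x) = κL x) {l : ℕ} [Fact l.Prime]
    (j : L →+* ℂ) (hns : ¬ Nonempty (K →+* ℚ_[l])) : ¬ ∃ x : ℚ_[l], x ^ 2 = -(d : ℚ_[l]) := by
  rintro ⟨x, hx⟩
  apply hns
  have huniq : ∀ a b a' b' : ℚ, (a : L) + b * δ = a' + b' * δ → a = a' ∧ b = b' := by
    intro a b a' b' h
    have h1 := congrArg (cc L) h
    simp only [map_add, map_mul, map_ratCast, hδ.cj j] at h1
    have h2 : (2 : L) * (a - a') = 0 := by linear_combination h + h1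
    have h3 : (a : L) = a' := sub_eq_zero.1 ((mul_eq_zero.1 h2).resolve_left two_ne_zero)
    have h4 : ((b : L) - b') * δ = 0 := by linear_combination h - h3
    have h5 : (b : L) = b' := sub_eq_zero.1 ((mul_eq_zero.1 h4).resolve_right hδ.ne)
    exact ⟨by exact_mod_cast h3, by exact_mod_cast h5⟩
  choose a b hab using fun y : K => hδ.exists_rat j (m := κL y) fun σ hσ => hfix σ hσ y
  have hval : ∀ (y : K) (r t : ℚ), κL y = r + t * δ → a y = r ∧ b y = t := fun y r t h =>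
    huniq _ _ _ _ ((hab y).symm.trans h)
  have h1 := hval 1 1 0 (by rw [map_one]; push_cast; ring)
  have h0 := hval 0 0 0 (by rw [map_zero]; push_cast; ring)
  have hadd := fun y z : K => hval (y + z) (a y + a z) (b y + b z) (by
    rw [map_add, hab y, hab z]
    push_cast
    ring)
  have hmul := fun y z : K => hval (y * z) (a y * a z - d * (b y * b z)) (a y * b z + b y * a z) (by
    rw [map_mul, hab y, hab z]
    push_cast
    linear_combination ((b y : L) * b z) * hδ.sq)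
  exact ⟨{
    toFun := fun y => (a y : ℚ_[l]) + b y * x
    map_one' := by
      rw [h1.1, h1.2]
      push_cast
      ring
    map_zero' := by
      rw [h0.1, h0.2]
      push_cast
      ring
    map_add' := fun y z => by
      rw [(hadd y z).1, (hadd y z).2]
      push_cast
      ring
    map_mul' := fun y z => by
      rw [(hmul y z).1, (hmul y z).2]
      push_cast
      linear_combination (-(b y : ℚ_[l]) * b z) * hx }⟩

end

section

variable {L : Type} [Field L] [NumberField L] [IsCMField L] [IsGalois ℚ L] {j : L →+* ℂ}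
  {Ω : Nat.Primes → Type} [∀ l, Field (Ω l)] [∀ l, CharZero (Ω l)]
  [∀ l : Nat.Primes, Algebra ℚ_[(l : ℕ)] (Ω l)] [∀ l, IsAlgClosed (Ω l)]
  {C : (Y : RedAV p ν) → (κ : Type) → FCl Ω Y κ → Prop}

/-- The coefficients of a line and of the conjugate line. -/
theorem line_both (hC : IsCompatible Ω C) {l0 : Nat.Primes} {δ : L} {d : ℚ}
    (hns : ¬ ∃ x : ℚ_[(l0 : ℕ)], x ^ 2 = -(d : ℚ_[(l0 : ℕ)])) (hδ : IsRoot δ d)
    (jO : ∀ l, L →+* Ω l) {Y : RedAV p ν} (hB : Big Y.X j)
    {κ : Type} [Fintype κ] [DecidableEq κ] {J : κ → Wt Y.X L}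
    (hJ : Function.Injective J) (hbal : Balanced (fun k => St j (J k)))
    (hK : ∀ σ : L ≃ₐ[ℚ] L, σ δ = δ → ∃ π : Equiv.Perm κ, ∀ k, sw σ (J k) = J (π k))
    {c c' : Ω l0} (h : Ln (jO l0) (atPrime C l0) Y J c c') (hc : c ≠ 0) : c' ≠ 0 := by
  classical
  have hC0 := hC.cycle l0
  have hbasis := fun l => Pool.Agent.W67.TA.basis p ν (Ω l) L j (jO l) Y hB
  choose e h1 h0 using hbasis
  obtain ⟨_, ⟨z, hz, rfl⟩, hz1⟩ := exists_class (e l0) (h1 l0) (h0 l0) hJ h hc
  have hz2 : (z l0 fun k => e l0 (bar (J k))) ≠ 0 := fun h2 =>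
    hz1 ((quad_both hC l0 hns hδ jO j hB e h1 h0 hz hJ hbal hK).2 h2)
  obtain ⟨l, h2, h3⟩ := two_lines hC0 j hB hJ h
    (Ln_coef hC0 j hB (e l0) (h1 l0) (h0 l0) ⟨z, hz, rfl⟩ hJ)
  have h4 : jO l0 l ≠ 0 := by
    rw [← h2]
    exact mul_ne_zero hc hz2
  have h5 : jO l0 (cc L l) ≠ 0 := by
    refine (map_ne_zero (jO l0)).2 ((map_ne_zero (cc L)).2 ?_)
    exact (map_ne_zero (jO l0)).1 h4
  rw [← h3] at h5
  exact left_ne_zero_of_mul h5

/-- The coefficients of a word and of the conjugate word vanish simultaneously. -/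
theorem word_both (hC : IsCompatible Ω C) (l0 : Nat.Primes) {K : Type} [Field K] [NumberField K]
    [IsCMField K] (hK : finrank ℚ K = 2) {κ0 : K →+* ℂ} {κL : K →+* L} (hκ : j.comp κL = κ0)
    {Z : RedAV p ν} (hZ : Big Z.X j) (hkp : BigA (kp p) j) (hrel : HasQuadRelE κ0 Z)
    {Y : RedAV p ν} (hY : Big Y.X j) (hYZ : IsPowersTimesSupersingular Z Y)
    (jO : ∀ l, L →+* Ω l) {κ : Type} [Fintype κ] [DecidableEq κ] {s : κ → Wt Y.X L}
    (hs : Function.Injective s) (hbal : ∀ g, ∑ k, tf p ν j (St j (s k)) g = 0)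
    (heven : Even (Fintype.card κ)) {c c' : Ω l0} (h : Ln (jO l0) (atPrime C l0) Y s c c')
    (hns : ¬ Nonempty (K →+* ℚ_[(l0 : ℕ)])) (hcc : c ≠ 0) : c' ≠ 0 := by
  classical
  have hfin := Pool.Agent.W67.TA.finite_wt j hZ
  let _ : Fintype (Wt Z.X L) := Fintype.ofFinite _
  have hC0 := hC.cycle l0
  obtain ⟨δ, d, hδ, hfix⟩ := exists_root j hK κL
  have hns' := nonsplit_root hK κL hδ hfix j hns
  choose o ho using fun w => weight_cases hY hZ hYZ w
  -- the exponents
  let w : κ → Option (Wt Z.X L) := fun k => o (s k)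
  have hsum : ∀ g, ∑ k, ext0 (tw p ν j Z.X) (w k) g = 0 := by
    intro g
    rw [← hbal g]
    exact Finset.sum_congr rfl fun k _ => by rw [ho (s k)]
  have hbij := toEmb_bijective (j := j) hZ
  let E : Wt Z.X L ≃ Emb Z := Equiv.ofBijective _ hbij
  let e : Emb Z → ℕ := fun u => Nat.card {k // w k = some (E.symm u)}
  have he : ∀ v : Wt Z.X L, (e (toEmb j Z v) : ℤ) = Pool.Agent.TH117.BL.cnt w v := by
    intro v
    have h1 : E.symm (toEmb j Z v) = v := E.symm_apply_apply v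
    change ((Nat.card {k // w k = some (E.symm (toEmb j Z v))} : ℕ) : ℤ) = _
    rw [h1]
    rfl
  have h1 : IsRel Z e := by
    rw [isRel_iff hZ]
    intro σ
    rw [← hsum σ, sum_eq_cnt]
    exact Finset.sum_congr rfl fun v _ => by rw [he]
  obtain ⟨n, hn, hnrel, hG⟩ := rel_decomp (jO l0) hZ hkp hκ _ (hrel e h1)
  obtain ⟨h', Y', hY', J, hJ, hJbal, hJN, hJt⟩ := exists_J hδ hZ n
    (fun σ hσ => hn σ (hfix σ hσ)) hnrel
  have h3 : (fun l : Wt Z.X L => ((e (toEmb j Z l) : ℕ) : ℤ)) = Pool.Agent.TH117.BL.cnt w :=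
    funext he
  have hG' : GenD (AlgM p ν j (jO l0)) (Set.range (ext0 (tw p ν j Z.X)))
      (DD (tw p ν j Z.X) (Pool.Agent.TH117.BL.cnt w) -
        DD (tw p ν j Z.X) (Pool.Agent.TH117.BL.cnt (fl' n h'))) := by
    rw [cnt_fl', ← h3]
    exact hG
  have hA := alg_K (jO l0) hkp hY hY' (fun k => ho (s k)) heven hJt (even_of_bal hJbal) hG'
  have hs' : Function.Injective fun k => bar (s k) := fun k k' hk => hs (bar_injective hk)
  have hKi : Function.Injective (Sum.elim (fun k => inlW (J k)) fun k => inrW (bar (s k)) :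
      _ ⊕ κ → Wt (prodR Y' Y).X L) := by
    refine Function.Injective.sumElim ?_ ?_ ?_
    · intro k k' hk
      refine hJ ?_
      have h5 := Sigma.mk.inj_iff.1 hk
      exact Sigma.ext (Sum.inl.inj h5.1) h5.2
    · intro k k' hk
      refine hs' ?_
      have h5 := Sigma.mk.inj_iff.1 hk
      exact Sigma.ext (Sum.inr.inj h5.1) h5.2
    · intro k k' hk
      exact Sum.inl_ne_inr (Sigma.mk.inj_iff.1 hk).1
  have hKp := pos_of_alg hC0 (jO l0) j (big_prodR hY' hY) hKi hA
  obtain ⟨d1, d1', μK, h11, h12, h13⟩ := hKp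
  have hdd : d1 * d1' ≠ 0 := by
    rw [h12]
    refine (map_ne_zero (jO l0)).2 fun h => ?_
    have h4 := h13.1
    rw [h, map_zero, zero_mul] at h4
    exact h4 rfl
  obtain ⟨δ', hδ', h14⟩ := line_div hC0 hY hs hJ h h11
  have hδ1 : jO l0 δ' ≠ 0 := (map_ne_zero (jO l0)).2 hδ'
  have hne1 : d1 * c * jO l0 δ' ≠ 0 := mul_ne_zero (mul_ne_zero (left_ne_zero_of_mul hdd) hcc) hδ1
  have hne2 := line_both hC hns' hδ jO hY' hJ hJbal hJN h14 hne1
  exact right_ne_zero_of_mul (left_ne_zero_of_mul hne2)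

end

/-- **Positivity of all primitive classes if the imaginary quadratic field does not split.** -/
theorem positive_nonsplit {Ω : Nat.Primes → Type} [∀ l, Field (Ω l)] [∀ l, CharZero (Ω l)]
    [∀ l : Nat.Primes, Algebra ℚ_[(l : ℕ)] (Ω l)] [∀ l, IsAlgClosed (Ω l)]
    {C : (Y : RedAV p ν) → (κ : Type) → FCl Ω Y κ → Prop} (hC : IsCompatible Ω C)
    (l0 : Nat.Primes) (hR : IsRosatiPositive (Ω l0) (atPrime C l0))
    (hT : AreTate (Ω l0) (atPrime C l0)) {K : Type} [Field K] [NumberField K]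
    [IsCMField K] (hK : finrank ℚ K = 2) (κ0 : K →+* ℂ)
    {Z : RedAV p ν} (hrel : HasQuadRelE κ0 Z)
    {Y : RedAV p ν} (hYZ : IsPowersTimesSupersingular Z Y)
    {α : Y.X.H1} (hα : IsPolar Y.X α) {r m : ℕ} (hrm : 2 * (2 * r + m) = finrank ℚ Y.X.H1)
    {z : (TM (Ω l0) Y) [⋀^Fin r × Fin 2]→ₗ[Ω l0] Ω l0} (hz : atPrime C l0 Y _ z)
    (hns : ¬ Nonempty (K →+* ℚ_[(l0 : ℕ)])) (hz0 : z ≠ 0) (hprim : IsPrim α m z) :
    IsPosClass α m z := by
  classical
  have hC0 := hC.cycle l0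
  have hne : Nonempty (((Y.X.prod Z.X).prod (single (kp p))).prod (single (anyPair K))).I :=
    ⟨Sum.inr ()⟩
  obtain ⟨L, _, _, _, _, j, hj⟩ :=
    exists_cm (((Y.X.prod Z.X).prod (single (kp p))).prod (single (anyPair K)))
  have hY : Big Y.X j := fun i ψ => hj (Sum.inl (Sum.inl (Sum.inl i))) ψ
  have hZ : Big Z.X j := fun i ψ => hj (Sum.inl (Sum.inl (Sum.inr i))) ψ
  have hkp : BigA (kp p) j := fun ψ => hj (Sum.inl (Sum.inr ())) ψ
  obtain ⟨κL, hκ⟩ : ∃ κL : K →+* L, j.comp κL = κ0 := hj (Sum.inr ()) κ0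
  let jO : ∀ l, L →+* Ω l := fun l => ((IsAlgClosed.lift : L →ₐ[ℚ] Ω l) : L →+* Ω l)
  obtain ⟨e, h1, h0⟩ := Pool.Agent.W67.TA.basis p ν (Ω l0) L j (jO l0) Y hY
  -- the words occurring in the class
  have hbal : ∀ s : Fin r × Fin 2 → Wt Y.X L, (z fun k => e (s k)) ≠ 0 →
      ∀ g, ∑ k, tf p ν j (St j (s k)) g = 0 := by
    intro s hs g
    let ε : Fin r × Fin 2 ≃ Fin (2 * r) := finProdFinEquiv.trans (finCongr (mul_comm r 2))
    obtain ⟨t, ht, h2⟩ := hT (z.domDomCongr ε) (hC0.reindex ε z hz)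
    have h3 := balanced (jO l0) Pool.Agent.W366.TA.val hY e h1 h0 t r ht (z.domDomCongr ε) h2
      (fun k => s (ε.symm k)) (by
        change (z fun k => e (s (ε.symm (ε k)))) ≠ 0
        simp only [ε.symm_apply_apply]
        exact hs) g
    rw [← h3]
    exact (Equiv.sum_comp ε.symm fun k => tf p ν j (St j (s k)) g).symm
  have hterm : ∀ s : Fin r × Fin 2 → Wt Y.X L,
      (z fun k => e (s k)) * (z fun k => e (bar (s k))) ≠ 0 →
      ∃ μ : L, (z fun k => e (s k)) * (z fun k => JJ (jO l0) e α (e (s k))) = jO l0 μ ∧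
        PosC (j μ) := by
    intro s hss
    have hs := left_ne_zero_of_mul hss
    have hsi : Function.Injective s := by
      intro k k' hk
      by_contra hne
      refine hs (z.map_eq_zero_of_eq _ ?_ hne)
      rw [hk]
    obtain ⟨μ, h4, h5⟩ := word_sign hC l0 hR hK hκ hZ hkp hrel hY hYZ jO hsi (hbal s hs) (by
      rw [Fintype.card_prod, Fintype.card_fin, Fintype.card_fin]
      exact even_two.mul_left r) (Ln_coef hC0 j hY e h1 h0 hz hsi) hss
    refine ⟨μ * (∏ k, ev α (s k))⁻¹, ?_, ?_⟩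
    · rw [x_JJ e h1 h0, map_mul, ← h4, map_inv₀, map_prod]
      ring
    · have h6 : PosC (∏ k, (j (ev α (bar (s k))) * Pool.Agent.TH117.PO.sgn j (s k))) :=
        PosC.prod _ _ fun k _ => polar_sign j hα (s k)
      rw [Finset.prod_mul_distrib] at h6
      have h7 : ∏ k, j (ev α (bar (s k))) = ∏ k, j (ev α (s k)) := by
        rw [Fintype.prod_prod_type, Fintype.prod_prod_type]
        refine Finset.prod_congr rfl fun i _ => ?_
        rw [Fin.prod_univ_two, Fin.prod_univ_two, ev_bar_polar j hα, ev_bar_polar j hα, map_neg,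
          map_neg]
        ring
      rw [h7] at h6
      have h8 := h5.mul h6.inv
      have h9 : j (μ * (∏ k, ev α (s k))⁻¹) = (j μ * ∏ k, Pool.Agent.TH117.PO.sgn j (s k)) *
          ((∏ k, j (ev α (s k))) * ∏ k, Pool.Agent.TH117.PO.sgn j (s k))⁻¹ := by
        have e1 : ∏ k, Pool.Agent.TH117.PO.sgn j (s k) ≠ 0 :=
          Finset.prod_ne_zero_iff.2 fun k _ => sgn_ne j (s k)
        rw [map_mul, map_inv₀, map_prod, mul_inv]
        field_simp
      rw [h9]
      exact h8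
  have key : ∀ s : Fin r × Fin 2 → Wt Y.X L, ∃ μ : L,
      (z fun k => e (s k)) * (z fun k => JJ (jO l0) e α (e (s k))) = jO l0 μ ∧
        (((z fun k => e (s k)) * (z fun k => e (bar (s k))) ≠ 0 → PosC (j μ)) ∧
          ∃ t : ℝ, 0 ≤ t ∧ j μ = t) := by
    intro s
    by_cases hs : (z fun k => e (s k)) * (z fun k => e (bar (s k))) = 0
    · refine ⟨0, ?_, fun h => absurd hs h, 0, le_rfl, by simp⟩
      rw [x_JJ e h1 h0, map_zero, mul_left_comm, hs, mul_zero]
    · obtain ⟨μ, h2, h3⟩ := hterm s hs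
      obtain ⟨t, ht, ht2⟩ := h3
      exact ⟨μ, h2, fun _ => ⟨t, ht, ht2⟩, t, ht.le, ht2⟩
  choose μ h2 h3 t ht h4 using key
  obtain ⟨s0, hs0⟩ : ∃ s : Fin r × Fin 2 → Wt Y.X L,
      (z fun k => e (s k)) * (z fun k => e (bar (s k))) ≠ 0 := by
    by_contra hcon
    push Not at hcon
    apply hz0
    refine Basis.ext_alternating e fun s hsi => ?_
    change (z fun k => e (s k)) = 0
    by_contra hs
    have h5 := word_both hC l0 hK hκ hZ hkp hrel hY hYZ jO hsi (hbal s hs) (by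
      rw [Fintype.card_prod, Fintype.card_fin, Fintype.card_fin]
      exact even_two.mul_left r) (Ln_coef hC0 j hY e h1 h0 hz hsi) hns hs
    exact mul_ne_zero hs h5 (hcon s)
  refine positive_of hC0 hY e h1 h0 hα hrm hz hprim (γ := ∑ s, μ s) ?_ ⟨∑ s, t s, ?_, ?_⟩
  · rw [map_sum]
    exact Finset.sum_congr rfl fun s _ => h2 s
  · refine Finset.sum_pos' (fun s _ => ht s) ⟨s0, Finset.mem_univ s0, ?_⟩
    obtain ⟨t', ht', h5⟩ := h3 s0 hs0
    rw [h4] at h5
    have h6 : t s0 = t' := by exact_mod_cast h5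
    rw [h6]
    exact ht'
  · rw [map_sum]
    push_cast
    exact Finset.sum_congr rfl fun s _ => h4 s

end

end Pool.Agent.H395.Exo
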