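import Mathlib
import Pool.Agent.H395.Abs
import Pool.Agent.H395.Exo.Bridge
import Pool.Agent.H395.Exo.Spec
import Pool.Agent.H395.Exo.PosDefs
import Pool.Agent.H395.Exo.Nonsplit2
import Pool.Graph.R_pool_sql_team_seeded_63374d34.N202.QR.Final

/-!
# The standard conjecture of Hodge type modulo numerical equivalence for abelian varieties with Weil
numbers of local and of quadratic types
-/

set_option autoImplicit false
set_option linter.unusedSectionVars false
set_option linter.unusedVariables false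

namespace Pool.Agent.H395.Exo

open NumberField Module Pool.Agent.TH170.MF Pool.Agent.H204R3.CM Pool.Agent.H977R3.CM
  Pool.Agent.TH170 Pool.Agent.TH170.CM Pool.Agent.TH170.FW Pool.Agent.Y156.P
  Pool.Agent.W495.TA Pool.Agent.W495.FM Pool.Agent.TH117 Pool.Agent.TH117.GN
  Pool.Agent.Q29.HT Pool.Agent.Q29.NH Pool.Agent.Y137.HD Pool.Agent.Y137.MV
  Pool.Agent.TH117.PO Pool.Agent.N202.QR Pool.Agent.W547.HR

variable {p : ℕ} [hp : Fact p.Prime] {ν : PadicAlgCl p ≃+* ℂ} {a : ℕ} {I : Type} [Fintype I]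
  {K : I → Type} [∀ i, Field (K i)] [∀ i, NumberField (K i)] [∀ i, IsCMField (K i)]
  {k : Type} [Field k] [NumberField k] [IsCMField k] {κ : k →+* ℂ} {J : Set I}
  {ϑ : ∀ i, i ∈ J → (k →+* K i)}

theorem numPositive_of_shape (ha : 0 < a) (hk : finrank ℚ k = 2) {π : ∀ i, K i}
    (hw : ∀ i, π i * IsCMField.complexConj (K i) (π i) = (p : K i) ^ a)
    (hS : QuadShape (p ^ a) π κ J ϑ) : NumPositiveForNumbers ν J π := by
  intro Ω _ _ _ _ C hC l hR hT Y hY α hα
  have hrel := quadRel_of_shape (ν := ν) ha hk hw hS hY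
  have hpos : HodgeType (Ω l) (atPrime C l) Y :=
    hodge_quadE hC l hR hT hk κ hrel (powers_self Y)
  exact ⟨fun r m hrm z hz hnt hprim => hpos α hα r m hrm z hz hnt hprim,
    fun A _ _ n gr deg D sp hS hR => hodgeNumPositive_of hS hR fun r m hrm z hz hnt hprim =>
      hpos α hα r m hrm z hz hnt hprim⟩

theorem homPositive_of {S : Set Nat.Primes} {π : ∀ i, K i}
    (h : ∀ (Ω : Nat.Primes → Type) [∀ l, Field (Ω l)] [∀ l, CharZero (Ω l)]
      [∀ l : Nat.Primes, Algebra ℚ_[(l : ℕ)] (Ω l)] [∀ l, IsAlgClosed (Ω l)]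
      (C : (Y : RedAV p ν) → (κ : Type) → FCl Ω Y κ → Prop), IsCompatible Ω C →
      ∀ l ∈ S, IsRosatiPositive (Ω l) (atPrime C l) → AreTate (Ω l) (atPrime C l) →
        ∀ Y : RedAV p ν, OfNumbersOn J π Y → ∀ α : Y.X.H1, IsPolar Y.X α →
          (∀ r m : ℕ, 2 * (2 * r + m) = finrank ℚ Y.X.H1 →
            ∀ z : (TM (Ω l) Y) [⋀^Fin r × Fin 2]→ₗ[Ω l] Ω l, atPrime C l Y (Fin r × Fin 2) z →
              z ≠ 0 → IsPrim α m z → IsPosClass α m z)) : HomPositiveForNumbers ν S J π := by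
  intro Ω _ _ _ _ C hC l hl hR hT Y hY α hα
  have hpos := h Ω C hC l hl hR hT Y hY α hα
  refine ⟨hpos, fun A _ _ n gr deg D sp hS hring => ?_⟩
  have h1 : HodgePositive n gr deg D := hodgePositive_of hS hring hpos
  refine ⟨h1, fun hA => numEqHom hring hA fun j m hjm z hz hp h0 => ?_⟩
  by_contra hz0
  have h2 := h1 j m hjm z hz hp hz0
  rw [h0, map_zero, mul_zero] at h2
  exact lt_irrefl _ h2

theorem ofNumbers_of_on {π : ∀ i, K i} {Y : RedAV p ν} (hY : OfNumbersOn J π Y) :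
    OfNumbers π Y := by
  intro k
  rcases hY k with h | ⟨i, θ, m, s, -, h2⟩
  · exact Or.inl h
  · exact Or.inr ⟨i, θ, m, s, h2⟩

theorem homPositive_of_shape (ha : 0 < a) (hk : finrank ℚ k = 2) {π : ∀ i, K i}
    (hw : ∀ i, π i * IsCMField.complexConj (K i) (π i) = (p : K i) ^ a)
    (hS : QuadShape (p ^ a) π κ J ϑ) :
    HomPositiveForNumbers ν {l | J = ∅ ∨ ¬ Nonempty (k →+* ℚ_[(l : ℕ)])} J π := by
  refine homPositive_of fun Ω _ _ _ _ C hC l hl hR hT Y hY α hα r m hrm z hz hz0 hprim => ?_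
  rcases hl with hJ | hns
  · subst hJ
    have hang : MaximalAngleRank (p ^ a) π := fun r n hrel i φ =>
      (hS r n hrel).1 i (Set.notMem_empty i) φ
    exact Pool.Agent.TH117.PO.positive_full (hC.cycle l) hR hT
      (Or.inr ⟨Y, elementary_of_angle ha hw hang (ofNumbers_of_on hY), powers_self Y⟩) hα hrm hz
      hz0 hprim
  · exact positive_nonsplit hC l hR hT hk κ (quadRel_of_shape (ν := ν) ha hk hw hS hY)
      (powers_self Y) hα hrm hz hns hz0 hprim

/-- **The main theorem.** -/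
theorem numPositive_of_types (ha : 0 < a) (hk : finrank ℚ k = 2) {π : ∀ i, K i}
    (hint : ∀ i, IsIntegral ℤ (π i))
    (hw : ∀ i, π i * IsCMField.complexConj (K i) (π i) = (p : K i) ^ a)
    (hQ : QuadTypes p (fun _ => a) π κ J ϑ) : NumPositiveForNumbers ν J π :=
  numPositive_of_shape ha hk hw (shape_of_types hk hint hw hQ)

theorem homPositive_of_types (ha : 0 < a) (hk : finrank ℚ k = 2) {π : ∀ i, K i}
    (hint : ∀ i, IsIntegral ℤ (π i))
    (hw : ∀ i, π i * IsCMField.complexConj (K i) (π i) = (p : K i) ^ a)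
    (hQ : QuadTypes p (fun _ => a) π κ J ϑ) :
    HomPositiveForNumbers ν {l | J = ∅ ∨ ¬ Nonempty (k →+* ℚ_[(l : ℕ)])} J π :=
  homPositive_of_shape ha hk hw (shape_of_types hk hint hw hQ)

end Pool.Agent.H395.Exo
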