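import Mathlib
import Pool.Agent.H395.Exo.Flip
import Pool.Agent.H395.Exo.Main
import Pool.Graph.R_seed8.TH117.BL.Kp

/-!
# A single triply transitive field
-/

set_option autoImplicit false
set_option linter.unusedSectionVars false
set_option linter.unusedVariables false

namespace Pool.Agent.H395.Exo

open NumberField Module Pool.Agent.W527 Pool.Agent.H204R3.CM Pool.Agent.TH127.SC
  Pool.Agent.TH117.BL Pool.Agent.W495.TA

noncomputable section

variable {E : Type} [Field E] [NumberField E] [IsCMField E]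

theorem same_of_flips (hflip : ∀ x y : E →+* ℂ, Apart x y →
    ∃ τ : ℂ ≃+* ℂ, mv τ x = x ∧ mv τ y = ComplexEmbedding.conjugate y)
    {a b : Embs (fun _ : Unit => E)} (h : SameClass a b) : b = a ∨ b = TH127.SC.bar a := by
  have hbb : ∀ a : Embs (fun _ : Unit => E), TH127.SC.bar (TH127.SC.bar a) = a := by
    rintro ⟨_, φ⟩
    change em (ComplexEmbedding.conjugate (ComplexEmbedding.conjugate φ)) = em φ
    rw [cc']
  have h' : Relation.EqvGen (fun y z : Embs (fun _ : Unit => E) =>
      ¬ Flip (ℂ ≃+* ℂ) TH127.SC.bar y z) a b := h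
  induction h' with
  | rel a b hab =>
    by_contra hcon
    push Not at hcon
    obtain ⟨_, φ⟩ := a
    obtain ⟨_, ψ⟩ := b
    apply hab
    have hap : Apart φ ψ := ⟨fun h1 => hcon.1 (by rw [h1]), fun h1 => hcon.2 (by
      rw [h1]
      change em ψ = em (ComplexEmbedding.conjugate (ComplexEmbedding.conjugate ψ))
      rw [cc'])⟩
    obtain ⟨τ, h1, h2⟩ := hflip φ ψ hap
    refine ⟨τ, Or.inl ⟨?_, ?_⟩⟩
    · exact congrArg em h1
    · exact congrArg em h2
  | refl a => exact Or.inl rfl
  | symm a b hab ih =>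
    rcases ih hab with ih | ih
    · exact Or.inl ih.symm
    · exact Or.inr (by rw [ih, hbb])
  | trans a b c hab hbc ih ih' =>
    rcases ih hab with ih | ih <;> rcases ih' hbc with ih' | ih'
    · exact Or.inl (by rw [ih', ih])
    · exact Or.inr (by rw [ih', ih])
    · exact Or.inr (by rw [ih', ih])
    · exact Or.inl (by rw [ih', ih, hbb])

theorem irreducibleType_of_flips (hflip : ∀ x y : E →+* ℂ, Apart x y →
    ∃ τ : ℂ ≃+* ℂ, mv τ x = x ∧ mv τ y = ComplexEmbedding.conjugate y)
    (x : Embs (fun _ : Unit => E)) : IrreducibleType x := by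
  intro V hV hst
  by_cases hV0 : V = ⊥
  · exact Or.inl hV0
  right
  obtain ⟨f, hf, hf0⟩ := (Submodule.ne_bot_iff _).1 hV0
  obtain ⟨h1, h2⟩ := hV f hf
  have hdet : ∀ c d : Embs (fun _ : Unit => E) → ℚ, (∀ z, c (TH127.SC.bar z) = - c z) →
      (∀ z, ¬ SameClass x z → c z = 0) → (∀ z, d (TH127.SC.bar z) = - d z) →
      (∀ z, ¬ SameClass x z → d z = 0) → c x = d x → c = d := by
    intro c d hc hc' hd hd' hx
    funext z
    by_cases hz : SameClass x z
    · rcases same_of_flips hflip hz with h3 | h3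
      · rw [h3, hx]
      · rw [h3, hc, hd, hx]
    · rw [hc' z hz, hd' z hz]
  have hfx : f x ≠ 0 := by
    intro h3
    apply hf0
    exact hdet f 0 h1 h2 (fun z => by simp) (fun z _ => rfl) h3
  intro c hc hc'
  have h3 : c = (c x / f x) • f := by
    refine hdet _ _ hc hc' (fun z => ?_) (fun z hz => ?_) ?_
    · rw [Pi.smul_apply, Pi.smul_apply, h1, smul_neg]
    · rw [Pi.smul_apply, h2 z hz, smul_zero]
    · rw [Pi.smul_apply, smul_eq_mul, div_mul_cancel₀ _ hfx]
  rw [h3]
  exact V.smul_mem _ hf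

variable {p : ℕ} [hp : Fact p.Prime] {ν : PadicAlgCl p ≃+* ℂ} {a : ℕ}

theorem ofNumbersOn_mono {I : Type} {K : I → Type} [∀ i, Field (K i)] {J J' : Set I}
    {π : ∀ i, K i} (hJ : J ⊆ J') {Y : RedAV p ν} (hY : OfNumbersOn J' π Y) :
    OfNumbersOn J π Y := by
  intro k
  rcases hY k with h | ⟨i, θ, m, s, h1, h2⟩
  · exact Or.inl h
  · exact Or.inr ⟨i, θ, m, s, fun hi => h1 (hJ hi), h2⟩

theorem numPositive_mono {I : Type} {K : I → Type} [∀ i, Field (K i)] {J J' : Set I}
    {π : ∀ i, K i} (hJ : J ⊆ J') (h : NumPositiveForNumbers ν J π) :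
    NumPositiveForNumbers ν J' π := by
  intro Ω _ _ _ _ C hC l hR hT Y hY
  exact h Ω C hC l hR hT Y (ofNumbersOn_mono hJ hY)

theorem homPositive_mono {I : Type} {K : I → Type} [∀ i, Field (K i)] {J J' : Set I}
    {S S' : Set Nat.Primes} {π : ∀ i, K i} (hJ : J ⊆ J') (hS : S' ⊆ S)
    (h : HomPositiveForNumbers ν S J π) : HomPositiveForNumbers ν S' J' π := by
  intro Ω _ _ _ _ C hC l hl hR hT Y hY
  exact h Ω C hC l (hS hl) hR hT Y (ofNumbersOn_mono hJ hY)

/-- **One triply transitive field.** -/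
theorem positive_single (ha : 0 < a) (h3 : TriplyTransitive E) (hE : 6 ≤ finrank ℚ E)
    {π : E} (hint : IsIntegral ℤ π)
    (hw : π * IsCMField.complexConj E π = (p : E) ^ a)
    (hpow : ∀ s : ℕ, 0 < s → IntermediateField.adjoin ℚ {π ^ s} = ⊤) :
    NumPositiveForNumbers (K := fun _ : Unit => E) ν (exoticPart E) (fun _ => π) ∧
      HomPositiveForNumbers (K := fun _ : Unit => E) ν (nonsplitPrimes E) (exoticPart E)
        (fun _ => π) := by
  classical
  by_cases hno : ∀ F : IntermediateField ℚ E, finrank ℚ F = 2 → IsTotallyReal F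
  · obtain ⟨κ⟩ : Nonempty ((kp p).E →+* ℂ) := inferInstance
    have hQ : QuadTypes (K := fun _ : Unit => E) p (fun _ => a) (fun _ => π) κ ∅
        (fun i hi => absurd hi (Set.notMem_empty i)) := by
      refine ⟨fun _ => hpow, fun i _ => ?_, fun i hi => absurd hi (Set.notMem_empty i),
        fun i hi => absurd hi (Set.notMem_empty i)⟩
      obtain ⟨φ⟩ : Nonempty (E →+* ℂ) := inferInstance
      refine ⟨φ, Or.inr (Or.inr (Or.inr (Or.inr (Or.inr ?_))))⟩
      exact irreducibleType_of_flips (fun x y hxy => exists_flip h3 hE hno hxy) _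
    exact ⟨numPositive_mono (J := ∅) (Set.empty_subset _) (numPositive_of_types ha (finrank_kp p)
      (fun _ => hint) (fun _ => hw) hQ), homPositive_mono (J := ∅) (Set.empty_subset _)
      (fun _ _ => Or.inl rfl) (homPositive_of_types ha (finrank_kp p) (fun _ => hint)
        (fun _ => hw) hQ)⟩
  · push Not at hno
    obtain ⟨F, hF2, hF⟩ := hno
    have hTC : IsTotallyComplex F := ⟨fun v => by
      rw [InfinitePlace.isComplex_iff, ComplexEmbedding.isReal_iff]
      exact conj_ne_of_nonReal hF _⟩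
    have hq : Algebra.IsQuadraticExtension ℚ F := ⟨hF2⟩
    have hcm : IsCMField F := IsCMField.ofCMExtension ℚ F
    obtain ⟨κ⟩ : Nonempty (F →+* ℂ) := inferInstance
    have hQ : QuadTypes (K := fun _ : Unit => E) p (fun _ => a) (fun _ => π) κ
        (Set.univ : Set Unit) (fun i hi => algebraMap F E) := by
      refine ⟨fun _ => hpow, fun i hi => absurd (Set.mem_univ i) hi, fun i hi => ?_,
        fun i hi => ?_⟩
      · exact Or.inl (sumZero_of_triple hF2 κ _ h3 hE)
      · intro φ ψ hφ hψ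
        obtain ⟨σ, h1, h2⟩ := exists_aut_over κ (algebraMap F E) φ ψ hφ hψ
        exact ⟨σ, h1, h2, fun j _ hj => absurd (Subsingleton.elim j i) hj⟩
    have hex : (Set.univ : Set Unit) ⊆ exoticPart E := fun _ _ => ⟨F, hF2, hF⟩
    exact ⟨numPositive_mono hex (numPositive_of_types ha hF2 (fun _ => hint) (fun _ => hw) hQ),
      homPositive_mono hex (fun l hl => Or.inr (hl F hF2 hF))
        (homPositive_of_types ha hF2 (fun _ => hint) (fun _ => hw) hQ)⟩

end

end Pool.Agent.H395.Exo
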